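import Mathlib

/-!
# MP_325208: maximal partial spreads, part A

This file joins several modules (of helpers 8, 16, 25, 27, 33, 84, 97) to save build time: the identity for forms of degree `q - 1`, the Cayley-Bacharach property of the holes on tangents, counting, and `2 d ≥ q + 2`.
-/

section S_H8_PS_Key

/-!
MP_325208 (helper8): sums of products of linear functionals over subspaces of a vector space over a finite field, and the
partition of a space into the members of a partial spread and the holes.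
-/

set_option autoImplicit false

open Module Finset
open scoped Classical

namespace H8.PS

variable {F : Type*} [Field F] [Fintype F]

/-- A product of fewer than `(q - 1) dim W` linear functionals sums to zero over `W`. -/
theorem sum_prod_dual {W : Type*} [AddCommGroup W] [Module F W] [Fintype W] [FiniteDimensional F W]
    {ι : Type*} (s : Finset ι) (L : ι → Dual F W) (h : s.card < (Fintype.card F - 1) * finrank F W) :
    ∑ w : W, ∏ i ∈ s, L i w = 0 := by
  classical
  let b := finBasis F W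
  let P : MvPolynomial (Fin (finrank F W)) F :=
    ∏ i ∈ s, ∑ k, MvPolynomial.C (L i (b k)) * MvPolynomial.X k
  have hP : ∀ x : Fin (finrank F W) → F, MvPolynomial.eval x P = ∏ i ∈ s, L i (b.equivFun.symm x) := by
    intro x
    simp only [P, map_prod, map_sum, map_mul, MvPolynomial.eval_C, MvPolynomial.eval_X]
    refine Finset.prod_congr rfl fun i _ => ?_
    rw [Basis.equivFun_symm_apply, map_sum]
    refine Finset.sum_congr rfl fun k _ => ?_
    rw [map_smul, smul_eq_mul, mul_comm]
  have hdeg : P.totalDegree < (Fintype.card F - 1) * Fintype.card (Fin (finrank F W)) := by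
    rw [Fintype.card_fin]
    refine lt_of_le_of_lt ?_ h
    refine (MvPolynomial.totalDegree_finsetProd _ _).trans ?_
    calc ∑ i ∈ s, (∑ k, MvPolynomial.C (L i (b k)) * MvPolynomial.X k : MvPolynomial (Fin (finrank F W)) F).totalDegree
        ≤ ∑ i ∈ s, 1 := by
          refine Finset.sum_le_sum fun i _ => ?_
          refine (MvPolynomial.totalDegree_finsetSum _ _).trans ?_
          refine Finset.sup_le fun k _ => ?_
          refine (MvPolynomial.totalDegree_mul _ _).trans ?_
          rw [MvPolynomial.totalDegree_C, MvPolynomial.totalDegree_X]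
      _ = s.card := by simp
  have := MvPolynomial.sum_eval_eq_zero P hdeg
  rw [← this]
  refine Fintype.sum_equiv b.equivFun.toEquiv _ _ fun w => ?_
  rw [hP]; simp

section part

variable {V : Type*} [AddCommGroup V] [Module F V] [Fintype V]

/-- the vectors not covered by the subspaces `A i`, `i ∈ s` -/
noncomputable def holes {ι : Type*} (s : Finset ι) (A : ι → Submodule F V) : Finset V := by
  classical exact Finset.univ.filter fun v => v ≠ 0 ∧ ∀ i ∈ s, v ∉ A i

theorem mem_holes {ι : Type*} {s : Finset ι} {A : ι → Submodule F V} {v : V} :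
    v ∈ holes s A ↔ v ≠ 0 ∧ ∀ i ∈ s, v ∉ A i := by
  classical
  simp [holes]

/-- Sums over the whole space split into sums over the members and the sum over the holes. -/
theorem part {ι : Type*} (s : Finset ι) (A : ι → Submodule F V)
    (hA : ∀ i ∈ s, ∀ j ∈ s, i ≠ j → A i ⊓ A j = ⊥) {M : Type*} [AddCommMonoid M] (g : V → M) (hg : g 0 = 0) :
    ∑ v, g v = (∑ i ∈ s, ∑ v : A i, g v) + ∑ v ∈ holes s A, g v := by
  classical
  have h1 : ∀ i, ∑ v : A i, g v = ∑ v, if v ∈ A i then g v else 0 := by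
    intro i
    rw [← Finset.sum_filter]
    exact (Finset.sum_subtype (Finset.univ.filter fun v => v ∈ A i) (by simp) g).symm
  have h2 : ∑ v ∈ holes s A, g v = ∑ v, if v ∈ holes s A then g v else 0 := by
    rw [← Finset.sum_filter]; simp
  simp_rw [h1]
  rw [Finset.sum_comm, h2, ← Finset.sum_add_distrib]
  refine Finset.sum_congr rfl fun v _ => ?_
  by_cases hv : v = 0
  · subst hv; simp [hg]
  by_cases hh : v ∈ holes s A
  · rw [if_pos hh, Finset.sum_eq_zero, zero_add]
    intro i hi
    rw [if_neg ((mem_holes.1 hh).2 i hi)]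
  · rw [if_neg hh, add_zero]
    have : ∃ i ∈ s, v ∈ A i := by
      by_contra hcon
      push Not at hcon
      exact hh (mem_holes.2 ⟨hv, hcon⟩)
    obtain ⟨i, hi, hvi⟩ := this
    rw [Finset.sum_eq_single_of_mem i hi, if_pos hvi]
    intro j hj hji
    rw [if_neg]
    intro hvj
    have : v ∈ A i ⊓ A j := ⟨hvi, hvj⟩
    rw [hA i hi j hj (Ne.symm hji)] at this
    exact hv (by simpa using this)

/-- The product of `q - 1` linear functionals sums to zero over the holes. -/
theorem sum_holes [FiniteDimensional F V] {ι : Type*} (s : Finset ι) (A : ι → Submodule F V)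
    (hA : ∀ i ∈ s, ∀ j ∈ s, i ≠ j → A i ⊓ A j = ⊥) (h2 : ∀ i ∈ s, finrank F (A i) = 2) (hV : 2 ≤ finrank F V)
    {κ : Type*} (t : Finset κ) (L : κ → Dual F V) (ht : t.card = Fintype.card F - 1) :
    ∑ v ∈ holes s A, ∏ k ∈ t, L k v = 0 := by
  classical
  have hq : 1 < Fintype.card F := Fintype.one_lt_card
  have h0 : ∏ k ∈ t, L k (0 : V) = 0 := by
    have : t.Nonempty := by rw [← Finset.card_pos, ht]; omega
    obtain ⟨k, hk⟩ := this
    exact Finset.prod_eq_zero hk (map_zero _)
  have h1 := part s A hA (fun v => ∏ k ∈ t, L k v) h0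
  have h3 : ∑ v : V, ∏ k ∈ t, L k v = 0 := by
    apply sum_prod_dual
    rw [ht]; nlinarith [Nat.sub_pos_of_lt hq]
  have h4 : ∑ i ∈ s, ∑ v : A i, ∏ k ∈ t, L k (v : V) = 0 := by
    refine Finset.sum_eq_zero fun i hi => ?_
    have := sum_prod_dual (W := A i) t (fun k => (L k).comp (A i).subtype) (by
      rw [ht, h2 i hi]; omega)
    simpa using this
  rw [h3, h4, zero_add] at h1
  exact h1.symm

/-- Counting the holes in a subspace. -/
theorem card_holes_inter [FiniteDimensional F V] {ι : Type*} (s : Finset ι) (A : ι → Submodule F V)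
    (hA : ∀ i ∈ s, ∀ j ∈ s, i ≠ j → A i ⊓ A j = ⊥) (N : Submodule F V) :
    (((holes s A).filter (· ∈ N)).card : ℤ) =
      (Fintype.card F : ℤ) ^ finrank F N - 1 - ∑ i ∈ s, ((Fintype.card F : ℤ) ^ finrank F (A i ⊓ N : Submodule F V) - 1) := by
  classical
  have hcard : ∀ M : Submodule F V, (∑ v : V, if v ≠ 0 ∧ v ∈ M then (1 : ℤ) else 0) = (Fintype.card F : ℤ) ^ finrank F M - 1 := by
    intro M
    have h1 : (Fintype.card M : ℤ) = (Fintype.card F : ℤ) ^ finrank F M := by
      rw [Module.card_eq_pow_finrank (K := F) (V := M)]; push_cast; rfl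
    rw [← h1]
    have h2 : (∑ v : V, if v ≠ 0 ∧ v ∈ M then (1 : ℤ) else 0) + 1 = ∑ v : V, if v ∈ M then (1 : ℤ) else 0 := by
      have : ∀ v : V, (if v ∈ M then (1 : ℤ) else 0) = (if v ≠ 0 ∧ v ∈ M then (1 : ℤ) else 0) + if v = 0 then 1 else 0 := by
        intro v
        by_cases hv : v = 0
        · subst hv; simp
        · simp [hv]
      simp_rw [this]
      rw [Finset.sum_add_distrib]; simp
    have h3 : (∑ v : V, if v ∈ M then (1 : ℤ) else 0) = Fintype.card M := by
      rw [Finset.sum_boole, Fintype.card_subtype]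
    rw [← h3, ← h2]; ring
  have h1 := part s A hA (fun v => if v ≠ 0 ∧ v ∈ N then (1 : ℤ) else 0) (by simp)
  rw [hcard] at h1
  have h2 : ∀ i ∈ s, (∑ v : A i, if (v : V) ≠ 0 ∧ (v : V) ∈ N then (1 : ℤ) else 0) =
      (Fintype.card F : ℤ) ^ finrank F (A i ⊓ N : Submodule F V) - 1 := by
    intro i _
    rw [← hcard]
    rw [← Finset.sum_subtype (Finset.univ.filter fun v => v ∈ A i) (by simp) (fun v : V => if v ≠ 0 ∧ v ∈ N then (1 : ℤ) else 0),
      Finset.sum_filter]
    refine Finset.sum_congr rfl fun v _ => ?_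
    by_cases hv : v ∈ A i
    · simp [hv, Submodule.mem_inf]
    · simp [hv, Submodule.mem_inf]
  rw [Finset.sum_congr rfl h2] at h1
  have h3 : (((holes s A).filter (· ∈ N)).card : ℤ) = ∑ v ∈ holes s A, if v ≠ 0 ∧ v ∈ N then (1 : ℤ) else 0 := by
    rw [Finset.card_eq_sum_ones, Finset.sum_filter]
    push_cast
    refine Finset.sum_congr rfl fun v hv => ?_
    have := (mem_holes.1 hv).1
    simp [this]
  rw [h3, h1]; ring

end part

end H8.PS

end S_H8_PS_Key

section S_H8_PS_CB

/-!
MP_325208 (helper8): the Cayley–Bacharach argument. `R` is a finite cone (closed under nonzero scalars) without `0`, `w` is a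
weight homogeneous of degree `k`, and all products of `w` with `m = q - 1 - k` linear functionals sum to zero over `R`. Then
`R` has at least `(m + 2) (q - 1)` elements, and if it has at most `(2 m + 1) (q - 1)` elements it lies in a plane.
-/

set_option autoImplicit false

open Module Finset
open scoped Classical

namespace H8.PS

variable {F : Type*} [Field F] [Fintype F] {V : Type*} [AddCommGroup V] [Module F V] [Fintype V]

variable (F) in
/-- the nonzero multiples of a vector -/
noncomputable def ray (v : V) : Finset V := (Finset.univ.filter fun c : F => c ≠ 0).image fun c => c • v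

theorem mem_ray {v u : V} : u ∈ ray F v ↔ ∃ c : F, c ≠ 0 ∧ c • v = u := by
  simp [ray]

theorem ray_inj {v : V} (hv : v ≠ 0) : Function.Injective fun c : F => c • v := smul_left_injective F hv

theorem card_ne_zero_filter : (Finset.univ.filter fun c : F => c ≠ 0).card = Fintype.card F - 1 := by
  rw [Finset.filter_ne' Finset.univ (0 : F), Finset.card_erase_of_mem (Finset.mem_univ _), Finset.card_univ]

theorem card_ray {v : V} (hv : v ≠ 0) : (ray F v).card = Fintype.card F - 1 := by
  rw [ray, Finset.card_image_of_injective _ (ray_inj hv), card_ne_zero_filter]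

theorem ray_subset {R : Finset V} (hc : ∀ v ∈ R, ∀ c : F, c ≠ 0 → c • v ∈ R) {v : V} (hv : v ∈ R) : ray F v ⊆ R := by
  intro u hu
  obtain ⟨c, hc0, rfl⟩ := mem_ray.1 hu
  exact hc v hv c hc0

/-- The assumptions on a weighted cone. -/
structure Good (R : Finset V) (w : V → F) (k m : ℕ) : Prop where
  deg : k + m = Fintype.card F - 1
  ne : ∀ v ∈ R, v ≠ 0
  cone : ∀ v ∈ R, ∀ c : F, c ≠ 0 → c • v ∈ R
  wne : ∀ v ∈ R, w v ≠ 0
  whom : ∀ (v : V) (c : F), c ≠ 0 → w (c • v) = c ^ k * w v
  id : ∀ L : Fin m → Dual F V, ∑ v ∈ R, w v * ∏ i, L i v = 0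

theorem Good.exists_not_mem {R : Finset V} {w : V → F} {k m : ℕ} (h : Good R w k m) {v : V} (hv : v ∈ R) :
    ∃ u ∈ R, u ∉ Submodule.span F {v} := by
  by_contra hcon
  push Not at hcon
  have hR : R = ray F v := by
    ext u
    constructor
    · intro hu
      obtain ⟨c, rfl⟩ := Submodule.mem_span_singleton.1 (hcon u hu)
      refine mem_ray.2 ⟨c, ?_, rfl⟩
      rintro rfl
      exact h.ne _ hu (zero_smul _ _)
    · intro hu
      exact ray_subset h.cone hv hu
  have hv0 : v ∉ (⊥ : Submodule F V) := by simpa using h.ne v hv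
  obtain ⟨f, hf, -⟩ := Submodule.exists_le_ker_of_notMem hv0
  have h1 := h.id fun _ => (f v)⁻¹ • f
  rw [hR, ray, Finset.sum_image fun a _ b _ hab => ray_inj (h.ne v hv) hab] at h1
  have h2 : ∀ c ∈ (Finset.univ.filter fun c : F => c ≠ 0),
      w (c • v) * ∏ _i : Fin m, ((f v)⁻¹ • f) (c • v) = w v := by
    intro c hc
    have hc0 : c ≠ 0 := by simpa using hc
    rw [h.whom v c hc0]
    have : ((f v)⁻¹ • f) (c • v) = c := by
      rw [LinearMap.smul_apply, map_smul, smul_eq_mul, smul_eq_mul]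
      field_simp
    rw [this, Finset.prod_const, Finset.card_univ, Fintype.card_fin]
    have : c ^ (k + m) = 1 := by rw [h.deg]; exact FiniteField.pow_card_sub_one_eq_one c hc0
    calc c ^ k * w v * c ^ m = c ^ (k + m) * w v := by ring
      _ = w v := by rw [this, one_mul]
  rw [Finset.sum_congr rfl h2, Finset.sum_const, card_ne_zero_filter, nsmul_eq_mul,
    Nat.cast_sub Fintype.card_pos, FiniteField.cast_card_eq_zero] at h1
  have : w v = 0 := by simpa using h1
  exact h.wne v hv this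

theorem Good.filter {R : Finset V} {w : V → F} {k m : ℕ} (h : Good R w k (m + 1)) (L : Dual F V) :
    Good (R.filter fun v => L v ≠ 0) (fun v => w v * L v) (k + 1) m := by
  refine ⟨by have := h.deg; omega, fun v hv => h.ne v (Finset.mem_filter.1 hv).1, ?_, ?_, ?_, ?_⟩
  · intro v hv c hc
    rw [Finset.mem_filter] at hv ⊢
    refine ⟨h.cone v hv.1 c hc, ?_⟩
    rw [map_smul]; exact mul_ne_zero hc hv.2
  · intro v hv
    rw [Finset.mem_filter] at hv
    exact mul_ne_zero (h.wne v hv.1) hv.2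
  · intro v c hc
    simp only [h.whom v c hc, map_smul, smul_eq_mul]
    ring
  · intro L'
    have h1 := h.id (Fin.cons L L')
    rw [Finset.sum_filter]
    refine Eq.trans (Finset.sum_congr rfl fun v _ => ?_) h1
    rw [Fin.prod_univ_succ]
    simp only [Fin.cons_zero, Fin.cons_succ]
    by_cases hL : L v = 0
    · simp [hL]
    · rw [if_pos hL]; ring

theorem Good.cb : ∀ (m : ℕ) {R : Finset V} {w : V → F} {k : ℕ}, Good R w k m → R.Nonempty →
    (m + 2) * (Fintype.card F - 1) ≤ R.card ∧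
    (R.card ≤ (2 * m + 1) * (Fintype.card F - 1) → ∃ a b : V, ∀ v ∈ R, v ∈ Submodule.span F {a, b}) := by
  intro m
  have hq : 1 ≤ Fintype.card F - 1 := by have : 1 < Fintype.card F := Fintype.one_lt_card; omega
  have hdis : ∀ {R : Finset V} (L : Dual F V), (∀ v ∈ R, ∀ c : F, c ≠ 0 → c • v ∈ R) → (∀ v ∈ R, v ≠ 0) →
      ∀ v ∈ R, L v = 0 → (R.filter fun x => L x ≠ 0).card + (Fintype.card F - 1) ≤ R.card := by
    intro R L hcone hne v hv hLv
    have h1 : Disjoint (R.filter fun x => L x ≠ 0) (ray F v) := by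
      rw [Finset.disjoint_left]
      intro u hu hu2
      obtain ⟨c, hc, rfl⟩ := mem_ray.1 hu2
      exact (Finset.mem_filter.1 hu).2 (by simp [hLv])
    rw [← card_ray (F := F) (hne v hv), ← Finset.card_union_of_disjoint h1]
    exact Finset.card_le_card (Finset.union_subset (Finset.filter_subset _ _) (ray_subset hcone hv))
  induction m with
  | zero =>
    intro R w k h hR
    obtain ⟨v, hv⟩ := hR
    obtain ⟨u, hu, huv⟩ := h.exists_not_mem hv
    have h1 : 2 * (Fintype.card F - 1) ≤ R.card := by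
      have hd2 : Disjoint (ray F v) (ray F u) := by
        rw [Finset.disjoint_left]
        intro y hy hy2
        obtain ⟨c, hc, rfl⟩ := mem_ray.1 hy
        obtain ⟨d, hd, hd2⟩ := mem_ray.1 hy2
        apply huv
        rw [Submodule.mem_span_singleton]
        exact ⟨d⁻¹ * c, by rw [mul_smul, ← hd2, smul_smul, inv_mul_cancel₀ hd, one_smul]⟩
      have hc1 : (ray F v ∪ ray F u).card = 2 * (Fintype.card F - 1) := by
        rw [Finset.card_union_of_disjoint hd2, card_ray (h.ne v hv), card_ray (h.ne u hu)]; ring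
      rw [← hc1]
      exact Finset.card_le_card (Finset.union_subset (ray_subset h.cone hv) (ray_subset h.cone hu))
    exact ⟨by omega, fun h4 => by omega⟩
  | succ m ih =>
    intro R w k h hR
    obtain ⟨v, hv⟩ := hR
    obtain ⟨u, hu, huv⟩ := h.exists_not_mem hv
    constructor
    · obtain ⟨L, hL, hLv⟩ := Submodule.exists_le_ker_of_notMem huv
      have h1 := (ih (h.filter L) ⟨u, Finset.mem_filter.2 ⟨hu, hL⟩⟩).1
      have h2 := hdis L h.cone h.ne v hv (by
        have := hLv (Submodule.mem_span_singleton_self v)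
        simpa using this)
      have h3 : (m + 1 + 2) * (Fintype.card F - 1) = (m + 2) * (Fintype.card F - 1) + (Fintype.card F - 1) := by ring
      omega
    · intro hcard
      by_contra hcon
      push Not at hcon
      obtain ⟨x, hx, hxs⟩ := hcon v u
      obtain ⟨L, hL, hLvu⟩ := Submodule.exists_le_ker_of_notMem hxs
      have hLv : L v = 0 := by
        have := hLvu (Submodule.subset_span (by simp : v ∈ ({v, u} : Set V)))
        simpa using this
      have hLu : L u = 0 := by
        have := hLvu (Submodule.subset_span (by simp : u ∈ ({v, u} : Set V)))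
        simpa using this
      -- the first filter
      have hg := h.filter L
      have hne1 : (R.filter fun v => L v ≠ 0).Nonempty := ⟨x, Finset.mem_filter.2 ⟨hx, hL⟩⟩
      have h2 : (R.filter fun v => L v ≠ 0).card + 2 * (Fintype.card F - 1) ≤ R.card := by
        have hd1 : Disjoint (R.filter fun v => L v ≠ 0) (ray F v ∪ ray F u) := by
          rw [Finset.disjoint_left]
          intro y hy hy2
          rw [Finset.mem_union] at hy2
          have hy3 := (Finset.mem_filter.1 hy).2
          rcases hy2 with hy2 | hy2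
          · obtain ⟨c, -, rfl⟩ := mem_ray.1 hy2
            exact hy3 (by simp [hLv])
          · obtain ⟨c, -, rfl⟩ := mem_ray.1 hy2
            exact hy3 (by simp [hLu])
        have hd2 : Disjoint (ray F v) (ray F u) := by
          rw [Finset.disjoint_left]
          intro y hy hy2
          obtain ⟨c, hc, rfl⟩ := mem_ray.1 hy
          obtain ⟨d, hd, hd2⟩ := mem_ray.1 hy2
          apply huv
          rw [Submodule.mem_span_singleton]
          refine ⟨d⁻¹ * c, ?_⟩
          rw [mul_smul, ← hd2, smul_smul, inv_mul_cancel₀ hd, one_smul]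
        have hc1 : (ray F v ∪ ray F u).card = 2 * (Fintype.card F - 1) := by
          rw [Finset.card_union_of_disjoint hd2, card_ray (h.ne v hv), card_ray (h.ne u hu)]; ring
        rw [← hc1, ← Finset.card_union_of_disjoint hd1]
        exact Finset.card_le_card (Finset.union_subset (Finset.filter_subset _ _)
          (Finset.union_subset (ray_subset h.cone hv) (ray_subset h.cone hu)))
      have hm : (2 * (m + 1) + 1) * (Fintype.card F - 1) = (2 * m + 1) * (Fintype.card F - 1) + 2 * (Fintype.card F - 1) := by ring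
      obtain ⟨hA, hB⟩ := ih hg hne1
      obtain ⟨a, b, hab⟩ := hB (by omega)
      obtain ⟨y, hy, hys⟩ := hcon a b
      obtain ⟨L', hL', hLab⟩ := Submodule.exists_le_ker_of_notMem hys
      have hg' := h.filter L'
      have hC := (ih hg' ⟨y, Finset.mem_filter.2 ⟨hy, hL'⟩⟩).1
      have hd : Disjoint (R.filter fun v => L v ≠ 0) (R.filter fun v => L' v ≠ 0) := by
        rw [Finset.disjoint_left]
        intro z hz hz2
        have := hLab (hab z hz)
        exact (Finset.mem_filter.1 hz2).2 (by simpa using this)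
      have hu2 : (R.filter fun v => L v ≠ 0).card + (R.filter fun v => L' v ≠ 0).card ≤ R.card := by
        rw [← Finset.card_union_of_disjoint hd]
        exact Finset.card_le_card (Finset.union_subset (Finset.filter_subset _ _) (Finset.filter_subset _ _))
      have h5 : (m + 2) * (Fintype.card F - 1) + (m + 2) * (Fintype.card F - 1) =
        (2 * (m + 1) + 1) * (Fintype.card F - 1) + (Fintype.card F - 1) := by ring
      omega

end H8.PS

end S_H8_PS_CB

section S_H8_PS_Count

/-!
MP_325208 (helper8): counting holes in planes and hyperplanes, and the duality between holes on a plane and functionals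
vanishing on it but on no member.
-/

set_option autoImplicit false

open Module Finset
open scoped Classical

namespace H8.PS

variable {F : Type*} [Field F] [Fintype F]

theorem finrank_span_pair {V : Type*} [AddCommGroup V] [Module F V] {a b : V} (ha : a ≠ 0) (hb : b ∉ Submodule.span F {a}) :
    finrank F (Submodule.span F {a, b}) = 2 := by
  have h1 : LinearIndependent F ![a, b] := by
    rw [LinearIndependent.pair_iff' ha]
    intro c hc
    exact hb (Submodule.mem_span_singleton.2 ⟨c, hc⟩)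
  have h2 := finrank_span_eq_card h1
  have h3 : Set.range ![a, b] = {a, b} := by simp [Matrix.range_cons, Set.pair_comm]
  rw [h3] at h2
  simpa using h2

theorem finrank_span_pair_le {V : Type*} [AddCommGroup V] [Module F V] (a b : V) :
    finrank F (Submodule.span F {a, b}) ≤ 2 := by
  have h2 := finrank_range_le_card (R := F) ![a, b]
  have h3 : Set.range ![a, b] = {a, b} := by simp [Matrix.range_cons, Set.pair_comm]
  rw [Set.finrank, h3] at h2
  simpa using h2

section fam

variable {V : Type*} [AddCommGroup V] [Module F V] [Fintype V] [FiniteDimensional F V]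
  {ι : Type*} {s : Finset ι} {A : ι → Submodule F V}

theorem smul_mem_holes {v : V} (hv : v ∈ holes s A) {c : F} (hc : c ≠ 0) : c • v ∈ holes s A := by
  rw [mem_holes] at hv ⊢
  refine ⟨smul_ne_zero hc hv.1, fun i hi h => hv.2 i hi ?_⟩
  exact (Submodule.smul_mem_iff _ hc).1 h

theorem holes_total (hV : finrank F V = 4) (hA : ∀ i ∈ s, ∀ j ∈ s, i ≠ j → A i ⊓ A j = ⊥)
    (h2 : ∀ i ∈ s, finrank F (A i) = 2) :
    ((holes s A).card : ℤ) = ((Fintype.card F : ℤ) ^ 2 - 1) * ((Fintype.card F : ℤ) ^ 2 + 1 - s.card) := by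
  have h := card_holes_inter s A hA ⊤
  have h1 : (holes s A).filter (· ∈ (⊤ : Submodule F V)) = holes s A := by
    apply Finset.filter_true_of_mem; simp
  rw [h1, finrank_top, hV] at h
  have h3 : ∑ i ∈ s, ((Fintype.card F : ℤ) ^ finrank F (A i ⊓ ⊤ : Submodule F V) - 1) =
      s.card * ((Fintype.card F : ℤ) ^ 2 - 1) := by
    rw [Finset.sum_congr rfl fun i hi => by rw [inf_top_eq, h2 i hi], Finset.sum_const, nsmul_eq_mul]
  rw [h, h3]; ring

theorem one_le_inf (hV : finrank F V = 4) {A N : Submodule F V} (h2 : finrank F A = 2) (hN : finrank F N = 3) :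
    1 ≤ finrank F (A ⊓ N : Submodule F V) := by
  have h := Submodule.finrank_sup_add_finrank_inf_eq A N
  have h1 := Submodule.finrank_le (A ⊔ N)
  omega

theorem holes_hyperplane (hV : finrank F V = 4) (hA : ∀ i ∈ s, ∀ j ∈ s, i ≠ j → A i ⊓ A j = ⊥)
    (h2 : ∀ i ∈ s, finrank F (A i) = 2) (N : Submodule F V) (hN : finrank F N = 3) :
    (((holes s A).filter (· ∈ N)).card : ℤ) ≤
      ((Fintype.card F : ℤ) - 1) * ((Fintype.card F : ℤ) ^ 2 + Fintype.card F + 1 - s.card) := by
  rw [card_holes_inter s A hA N, hN]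
  have hq : (1 : ℤ) ≤ Fintype.card F := by exact_mod_cast Fintype.card_pos
  have h1 : (s.card : ℤ) * ((Fintype.card F : ℤ) - 1) ≤
      ∑ i ∈ s, ((Fintype.card F : ℤ) ^ finrank F (A i ⊓ N : Submodule F V) - 1) := by
    have : (s.card : ℤ) * ((Fintype.card F : ℤ) - 1) = ∑ i ∈ s, ((Fintype.card F : ℤ) - 1) := by
      rw [Finset.sum_const, nsmul_eq_mul]
    rw [this]
    refine Finset.sum_le_sum fun i hi => ?_
    have := pow_le_pow_right₀ hq (one_le_inf hV (h2 i hi) hN)
    rw [pow_one] at this; linarith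
  nlinarith [h1]

theorem holes_hyperplane_poor (hV : finrank F V = 4) (hA : ∀ i ∈ s, ∀ j ∈ s, i ≠ j → A i ⊓ A j = ⊥)
    (h2 : ∀ i ∈ s, finrank F (A i) = 2) (N : Submodule F V) (hN : finrank F N = 3) {i₀ : ι} (hi : i₀ ∈ s) (hi₀ : A i₀ ≤ N) :
    (((holes s A).filter (· ∈ N)).card : ℤ) ≤
      ((Fintype.card F : ℤ) - 1) * ((Fintype.card F : ℤ) ^ 2 + 1 - s.card) := by
  rw [card_holes_inter s A hA N, hN, ← Finset.add_sum_erase s _ hi]
  have hq : (1 : ℤ) ≤ Fintype.card F := by exact_mod_cast Fintype.card_pos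
  have h0 : finrank F (A i₀ ⊓ N : Submodule F V) = 2 := by rw [inf_eq_left.2 hi₀]; exact h2 _ hi
  have hc : ((s.erase i₀).card : ℤ) = s.card - 1 := by
    rw [Finset.card_erase_of_mem hi]
    have : 1 ≤ s.card := Finset.card_pos.2 ⟨_, hi⟩
    push_cast [this]; ring
  have h1 : ((s.card : ℤ) - 1) * ((Fintype.card F : ℤ) - 1) ≤
      ∑ i ∈ s.erase i₀, ((Fintype.card F : ℤ) ^ finrank F (A i ⊓ N : Submodule F V) - 1) := by
    have : ((s.card : ℤ) - 1) * ((Fintype.card F : ℤ) - 1) = ∑ i ∈ s.erase i₀, ((Fintype.card F : ℤ) - 1) := by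
      rw [Finset.sum_const, nsmul_eq_mul, hc]
    rw [this]
    refine Finset.sum_le_sum fun i hi => ?_
    have := pow_le_pow_right₀ hq (one_le_inf hV (h2 i (Finset.mem_of_mem_erase hi)) hN)
    rw [pow_one] at this; linarith
  rw [h0]
  nlinarith [h1]

end fam

section dual

variable {V : Type*} [AddCommGroup V] [Module F V] [Fintype V] [FiniteDimensional F V]

instance : Finite (Dual F V) := Finite.of_injective (fun f : Dual F V => (f : V → F)) DFunLike.coe_injective

noncomputable instance : Fintype (Dual F V) := Fintype.ofFinite _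

theorem dual_finrank {W : Submodule F V} (hV : finrank F V = 4) {k : ℕ} (hW : finrank F W = k) :
    finrank F W.dualAnnihilator = 4 - k := by
  have := Subspace.finrank_add_finrank_dualAnnihilator_eq W
  omega

theorem dual_disjoint (hV : finrank F V = 4) {W W' : Submodule F V} (h : W ⊓ W' = ⊥) (hW : finrank F W = 2)
    (hW' : finrank F W' = 2) : W.dualAnnihilator ⊓ W'.dualAnnihilator = ⊥ := by
  rw [← Submodule.dualAnnihilator_sup_eq]
  have h1 := Submodule.finrank_sup_add_finrank_inf_eq W W'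
  rw [h, finrank_bot, hW, hW'] at h1
  have h2 : W ⊔ W' = ⊤ := Submodule.eq_top_of_finrank_eq (by omega)
  rw [h2, Submodule.dualAnnihilator_top]

/-- The number of holes on a plane `N` equals the number of functionals vanishing on `N` and on no member. -/
theorem duality {S : Finset (Submodule F V)} (hV : finrank F V = 4)
    (hd : ∀ W ∈ S, ∀ W' ∈ S, W ≠ W' → W ⊓ W' = ⊥) (h2 : ∀ W ∈ S, finrank F W = 2)
    {N : Submodule F V} (hN : finrank F N = 2) :
    ((holes S fun W => W).filter (· ∈ N)).card =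
      ((holes S fun W => W.dualAnnihilator).filter (· ∈ N.dualAnnihilator)).card := by
  have h1 := card_holes_inter S (fun W => W) hd N
  have h3 := card_holes_inter S (fun W => W.dualAnnihilator)
    (fun W hW W' hW' h => dual_disjoint hV (hd W hW W' hW' h) (h2 W hW) (h2 W' hW')) N.dualAnnihilator
  have h4 : ∀ W ∈ S, finrank F (W.dualAnnihilator ⊓ N.dualAnnihilator : Submodule F (Dual F V)) =
      finrank F (W ⊓ N : Submodule F V) := by
    intro W hW
    rw [← Submodule.dualAnnihilator_sup_eq]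
    have h5 := Subspace.finrank_add_finrank_dualAnnihilator_eq (W ⊔ N)
    have h6 := Submodule.finrank_sup_add_finrank_inf_eq W N
    rw [h2 W hW, hN] at h6
    omega
  rw [Finset.sum_congr rfl fun W hW => by rw [h4 W hW], dual_finrank hV hN] at h3
  rw [hN] at h1
  have : (((holes S fun W => W).filter (· ∈ N)).card : ℤ) =
      ((holes S fun W => W.dualAnnihilator).filter (· ∈ N.dualAnnihilator)).card := by
    rw [h1, h3]
  exact_mod_cast this

end dual

end H8.PS

end S_H8_PS_Count

section S_H8_PS_Main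

/-!
MP_325208 (helper8): a maximal partial spread of the projective space of dimension three over a field with `q` elements that
is not a spread has at most `q ^ 2 - q / 2` members.
-/

set_option autoImplicit false

open Module Finset
open scoped Classical

namespace H8.PS

variable {F : Type*} [Field F] [Fintype F]

section cone

variable {V : Type*} [AddCommGroup V] [Module F V] [Fintype V]

theorem cone_ge {T : Finset V} (hne : ∀ v ∈ T, v ≠ 0) (hc : ∀ v ∈ T, ∀ c : F, c ≠ 0 → c • v ∈ T) {v : V} (hv : v ∈ T) :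
    Fintype.card F - 1 ≤ T.card := by
  rw [← card_ray (F := F) (hne v hv)]
  exact Finset.card_le_card (ray_subset hc hv)

theorem ray_disjoint {u v : V} (huv : u ∉ Submodule.span F {v}) : Disjoint (ray F v) (ray F u) := by
  rw [Finset.disjoint_left]
  intro y hy hy2
  obtain ⟨c, hc, rfl⟩ := mem_ray.1 hy
  obtain ⟨d, hd, hd2⟩ := mem_ray.1 hy2
  apply huv
  rw [Submodule.mem_span_singleton]
  exact ⟨d⁻¹ * c, by rw [mul_smul, ← hd2, smul_smul, inv_mul_cancel₀ hd, one_smul]⟩

theorem cone_ge_two {T : Finset V} (hne : ∀ v ∈ T, v ≠ 0) (hc : ∀ v ∈ T, ∀ c : F, c ≠ 0 → c • v ∈ T) {u v : V} (hu : u ∈ T)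
    (hv : v ∈ T) (huv : u ∉ Submodule.span F {v}) : 2 * (Fintype.card F - 1) ≤ T.card := by
  have hc1 : (ray F v ∪ ray F u).card = 2 * (Fintype.card F - 1) := by
    rw [Finset.card_union_of_disjoint (ray_disjoint huv), card_ray (hne v hv), card_ray (hne u hu)]; ring
  rw [← hc1]
  exact Finset.card_le_card (Finset.union_subset (ray_subset hc hv) (ray_subset hc hu))

theorem card_le_of_span {T : Finset V} (hne : ∀ v ∈ T, v ≠ 0) {v : V} (hv : v ≠ 0) (h : ∀ x ∈ T, x ∈ Submodule.span F {v}) :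
    T.card ≤ Fintype.card F - 1 := by
  rw [← card_ray (F := F) hv]
  refine Finset.card_le_card fun x hx => ?_
  obtain ⟨c, rfl⟩ := Submodule.mem_span_singleton.1 (h x hx)
  refine mem_ray.2 ⟨c, ?_, rfl⟩
  rintro rfl
  exact hne _ hx (zero_smul _ _)

end cone

variable {V : Type*} [AddCommGroup V] [Module F V] [Fintype V] [FiniteDimensional F V]

theorem mem_ann_pair {a b : V} {θ : Dual F V} :
    θ ∈ (Submodule.span F {a, b}).dualAnnihilator ↔ θ a = 0 ∧ θ b = 0 := by
  rw [Submodule.mem_dualAnnihilator]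
  constructor
  · intro h
    exact ⟨h a (Submodule.subset_span (by simp)), h b (Submodule.subset_span (by simp))⟩
  · rintro ⟨h1, h2⟩ w hw
    obtain ⟨x, y, rfl⟩ := Submodule.mem_span_pair.1 hw
    simp [h1, h2]

/-- the functionals through `Z`, normalized at `E`, that vanish on no member -/
noncomputable def DD (S : Finset (Submodule F V)) (Z E : V) : Finset (Dual F V) :=
  Finset.univ.filter fun θ => θ ∈ holes S (fun W => W.dualAnnihilator) ∧ θ Z = 0 ∧ θ E = 1

theorem mem_DD {S : Finset (Submodule F V)} {Z E : V} {θ : Dual F V} :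
    θ ∈ DD S Z E ↔ θ ∈ holes S (fun W => W.dualAnnihilator) ∧ θ Z = 0 ∧ θ E = 1 := by
  simp [DD]

theorem card_DD {S : Finset (Submodule F V)} (hV : finrank F V = 4)
    (hd : ∀ W ∈ S, ∀ W' ∈ S, W ≠ W' → W ⊓ W' = ⊥) (h2 : ∀ W ∈ S, finrank F W = 2)
    {Z E : V} {W₀ : Submodule F V} (hW₀ : W₀ ∈ S) (hZ : Z ∈ W₀) (hZ0 : Z ≠ 0) :
    ((DD S Z E).card : ℤ) ≤ (Fintype.card F : ℤ) ^ 2 + 1 - S.card := by
  have hq : 1 < Fintype.card F := Fintype.one_lt_card
  have hN1 : finrank F (Submodule.span F {Z}) = 1 := finrank_span_singleton hZ0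
  have hN : finrank F (Submodule.span F {Z}).dualAnnihilator = 3 := dual_finrank hV hN1
  have hV' : finrank F (Dual F V) = 4 := by rw [Subspace.dual_finrank_eq, hV]
  have h1 := holes_hyperplane_poor hV'
    (fun W hW W' hW' h => dual_disjoint hV (hd W hW W' hW' h) (h2 W hW) (h2 W' hW'))
    (fun W hW => dual_finrank hV (h2 W hW)) (Submodule.span F {Z}).dualAnnihilator hN hW₀
    (Submodule.dualAnnihilator_anti (by rw [Submodule.span_le]; simpa using hZ))
  have h3 : (DD S Z E).card * (Fintype.card F - 1) ≤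
      ((holes S fun W => W.dualAnnihilator).filter (· ∈ (Submodule.span F {Z}).dualAnnihilator)).card := by
    rw [← card_ne_zero_filter, ← Finset.card_product]
    refine Finset.card_le_card_of_injOn (fun x => x.2 • x.1) ?_ ?_
    · rintro ⟨θ, c⟩ hx
      simp only [Finset.coe_product, Set.mem_prod, Finset.mem_coe, Finset.mem_filter, Finset.mem_univ, true_and, mem_DD] at hx
      obtain ⟨⟨h4, h5, h6⟩, h7⟩ := hx
      simp only [Finset.coe_filter, Set.mem_setOf_eq]
      refine ⟨smul_mem_holes h4 h7, ?_⟩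
      rw [Submodule.mem_dualAnnihilator]
      intro w hw
      obtain ⟨x, rfl⟩ := Submodule.mem_span_singleton.1 hw
      simp [h5]
    · rintro ⟨θ, c⟩ hx ⟨θ', c'⟩ hx' heq
      simp only [Finset.coe_product, Set.mem_prod, Finset.mem_coe, Finset.mem_filter, Finset.mem_univ, true_and, mem_DD] at hx hx'
      simp only at heq
      have h8 : c = c' := by
        have := congrArg (fun f : Dual F V => f E) heq
        simpa [hx.1.2.2, hx'.1.2.2] using this
      subst h8
      have h9 : θ = θ' := smul_right_injective (Dual F V) hx.2 heq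
      rw [h9]
  have h4 : ((DD S Z E).card : ℤ) * ((Fintype.card F : ℤ) - 1) ≤
      ((holes S fun W => W.dualAnnihilator).filter (· ∈ (Submodule.span F {Z}).dualAnnihilator)).card := by
    have := h3
    have h5 : ((Fintype.card F - 1 : ℕ) : ℤ) = (Fintype.card F : ℤ) - 1 := by push_cast [hq.le]; ring
    rw [← h5]
    exact_mod_cast this
  have h6 := h4.trans h1
  have hq' : (0 : ℤ) < (Fintype.card F : ℤ) - 1 := by
    have : (1 : ℤ) < Fintype.card F := by exact_mod_cast hq
    linarith
  rw [mul_comm] at h6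
  exact le_of_mul_le_mul_left h6 hq'

/-- Maximal partial spreads: a plane containing a hole contains a covered vector. -/
theorem exists_covered {S : Finset (Submodule F V)}
    (hmax : ∀ U : Submodule F V, finrank F U = 2 → U ∉ S → ∃ W ∈ S, U ⊓ W ≠ ⊥)
    {U : Submodule F V} (hU : finrank F U = 2) {v : V} (hv : v ∈ holes S fun W => W) (hvU : v ∈ U) :
    ∃ W ∈ S, ∃ Z ∈ U, Z ≠ 0 ∧ Z ∈ W := by
  have hUS : U ∉ S := fun h => (mem_holes.1 hv).2 U h hvU
  obtain ⟨W, hW, hne⟩ := hmax U hU hUS
  obtain ⟨Z, hZ, hZ0⟩ := Submodule.exists_mem_ne_zero_of_ne_bot hne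
  exact ⟨W, hW, Z, hZ.1, hZ0, hZ.2⟩

/-- Any plane with a hole has at most `(q - 1) d` holes. -/
theorem holes_plane {S : Finset (Submodule F V)} (hV : finrank F V = 4)
    (hd : ∀ W ∈ S, ∀ W' ∈ S, W ≠ W' → W ⊓ W' = ⊥) (h2 : ∀ W ∈ S, finrank F W = 2)
    (hmax : ∀ U : Submodule F V, finrank F U = 2 → U ∉ S → ∃ W ∈ S, U ⊓ W ≠ ⊥)
    {U : Submodule F V} (hU : finrank F U = 2) {v : V} (hv : v ∈ holes S fun W => W) (hvU : v ∈ U)
    {R : Finset V} (hR : R ⊆ holes S fun W => W) (hRU : ∀ x ∈ R, x ∈ U) :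
    (R.card : ℤ) ≤ ((Fintype.card F : ℤ) - 1) * ((Fintype.card F : ℤ) ^ 2 + 1 - S.card) := by
  have hUS : U ∉ S := fun h => (mem_holes.1 hv).2 U h hvU
  obtain ⟨W, hW, hne⟩ := hmax U hU hUS
  have h1 := Submodule.finrank_sup_add_finrank_inf_eq U W
  have h3 : finrank F (U ⊓ W : Submodule F V) ≠ 0 := by
    rw [ne_eq, Submodule.finrank_eq_zero]; exact hne
  rw [hU, h2 W hW] at h1
  have h4 : U ⊔ W < ⊤ := by
    rw [lt_top_iff_ne_top]
    intro h
    rw [h, finrank_top, hV] at h1
    omega
  obtain ⟨f, hf, hle⟩ := Submodule.exists_le_ker_of_lt_top _ h4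
  have h5 : finrank F (LinearMap.ker f) = 3 := by
    have := Module.Dual.finrank_ker_add_one_of_ne_zero (K := F) (f := f) hf
    omega
  have h6 := holes_hyperplane_poor hV hd h2 (LinearMap.ker f) h5 hW (le_sup_right.trans hle)
  refine le_trans ?_ h6
  have : R ⊆ (holes S fun W => W).filter (· ∈ LinearMap.ker f) := by
    intro x hx
    rw [Finset.mem_filter]
    exact ⟨hR hx, (le_sup_left.trans hle) (hRU x hx)⟩
  exact_mod_cast Finset.card_le_card this

/-- The configuration used in the proof: a covered vector `Z` and a second vector `E` of its member. -/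
structure Conf (S : Finset (Submodule F V)) (Z E : V) : Prop where
  hV : finrank F V = 4
  hd : ∀ W ∈ S, ∀ W' ∈ S, W ≠ W' → W ⊓ W' = ⊥
  h2 : ∀ W ∈ S, finrank F W = 2
  hZ0 : Z ≠ 0
  ex : ∃ W ∈ S, Z ∈ W ∧ E ∈ W
  hE : E ∉ Submodule.span F {Z}

namespace Conf

variable {S : Finset (Submodule F V)} {Z E : V} (C : Conf (F := F) S Z E)
include C

theorem E_ne {θ : Dual F V} (hθ : θ ∈ holes S fun W => W.dualAnnihilator) (hZ : θ Z = 0) : θ E ≠ 0 := by
  intro hE
  obtain ⟨W, hW, hZW, hEW⟩ := C.ex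
  apply (mem_holes.1 hθ).2 W hW
  have h1 : Submodule.span F {Z, E} ≤ W := by
    rw [Submodule.span_le]
    rintro x (rfl | hx)
    · exact hZW
    · rw [Set.mem_singleton_iff] at hx; subst hx; exact hEW
  have h3 : Submodule.span F {Z, E} = W := by
    refine Submodule.eq_of_le_of_finrank_le h1 ?_
    rw [finrank_span_pair C.hZ0 C.hE, C.h2 W hW]
  rw [← h3]
  exact mem_ann_pair.2 ⟨hZ, hE⟩

theorem norm {θ : Dual F V} (hθ : θ ∈ holes S fun W => W.dualAnnihilator) (hZ : θ Z = 0) : (θ E)⁻¹ • θ ∈ DD S Z E := by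
  have h := C.E_ne hθ hZ
  refine mem_DD.2 ⟨smul_mem_holes hθ (inv_ne_zero h), by simp [hZ], ?_⟩
  rw [LinearMap.smul_apply, smul_eq_mul, inv_mul_cancel₀ h]

theorem not_span {v : V} (hv : v ∈ holes S fun W => W) : v ∉ Submodule.span F {Z} := by
  intro h
  obtain ⟨W, hW, hZW, -⟩ := C.ex
  obtain ⟨c, rfl⟩ := Submodule.mem_span_singleton.1 h
  exact (mem_holes.1 hv).2 W hW (W.smul_mem c hZW)

theorem finrank_line {v : V} (hv : v ∈ holes S fun W => W) : finrank F (Submodule.span F {Z, v}) = 2 :=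
  finrank_span_pair C.hZ0 (C.not_span hv)

theorem exists_D {v : V} (hv : v ∈ holes S fun W => W) : ∃ θ ∈ DD S Z E, θ v = 0 := by
  have h1 := duality C.hV C.hd C.h2 (C.finrank_line hv)
  have h2 : 0 < ((holes S fun W => W).filter (· ∈ Submodule.span F {Z, v})).card := by
    refine Finset.card_pos.2 ⟨v, ?_⟩
    rw [Finset.mem_filter]
    exact ⟨hv, Submodule.subset_span (by simp)⟩
  rw [h1] at h2
  obtain ⟨θ, hθ⟩ := Finset.card_pos.1 h2
  rw [Finset.mem_filter, mem_ann_pair] at hθ
  exact ⟨_, C.norm hθ.1 hθ.2.1, by simp [hθ.2.2]⟩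

theorem cone1 (N : Submodule F V) : (∀ v ∈ (holes S fun W => W).filter (· ∈ N), v ≠ 0) ∧
    (∀ v ∈ (holes S fun W => W).filter (· ∈ N), ∀ c : F, c ≠ 0 → c • v ∈ (holes S fun W => W).filter (· ∈ N)) := by
  refine ⟨fun v hv => (mem_holes.1 (Finset.mem_filter.1 hv).1).1, fun v hv c hc => ?_⟩
  rw [Finset.mem_filter] at hv ⊢
  exact ⟨smul_mem_holes hv.1 hc, N.smul_mem c hv.2⟩

theorem cone2 (N : Submodule F (Dual F V)) : (∀ v ∈ (holes S fun W => W.dualAnnihilator).filter (· ∈ N), v ≠ 0) ∧
    (∀ v ∈ (holes S fun W => W.dualAnnihilator).filter (· ∈ N), ∀ c : F, c ≠ 0 →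
      c • v ∈ (holes S fun W => W.dualAnnihilator).filter (· ∈ N)) := by
  refine ⟨fun v hv => (mem_holes.1 (Finset.mem_filter.1 hv).1).1, fun v hv c hc => ?_⟩
  rw [Finset.mem_filter] at hv ⊢
  exact ⟨smul_mem_holes hv.1 hc, N.smul_mem c hv.2⟩

theorem eq_of_span {θ θ' : Dual F V} (h : θ ∈ DD S Z E) (h' : θ' ∈ DD S Z E) (hs : θ' ∈ Submodule.span F {θ}) : θ' = θ := by
  obtain ⟨c, rfl⟩ := Submodule.mem_span_singleton.1 hs
  have h1 := (mem_DD.1 h').2.2
  rw [LinearMap.smul_apply, (mem_DD.1 h).2.2, smul_eq_mul, mul_one] at h1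
  rw [h1, one_smul]

/-- If `v` is the only hole of its line through `Z`, only one rich plane contains the line. -/
theorem unique_of_tangent {v : V} (hv : v ∈ holes S fun W => W)
    (ht : ∀ x ∈ holes S fun W => W, x ∈ Submodule.span F {Z, v} → x ∈ Submodule.span F {v})
    {θ θ' : Dual F V} (h : θ ∈ DD S Z E) (h' : θ' ∈ DD S Z E) (hθ : θ v = 0) (hθ' : θ' v = 0) : θ' = θ := by
  by_contra hne
  have hq : 1 < Fintype.card F := Fintype.one_lt_card
  have h1 := duality C.hV C.hd C.h2 (C.finrank_line hv)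
  have h3 := card_le_of_span (C.cone1 (Submodule.span F {Z, v})).1 (mem_holes.1 hv).1 (by
    intro x hx
    rw [Finset.mem_filter] at hx
    exact ht x hx.1 hx.2)
  have h4 := cone_ge_two (F := F) (C.cone2 (Submodule.span F {Z, v}).dualAnnihilator).1
    (C.cone2 (Submodule.span F {Z, v}).dualAnnihilator).2 (u := θ') (v := θ)
    (by rw [Finset.mem_filter, mem_ann_pair]; exact ⟨(mem_DD.1 h').1, (mem_DD.1 h').2.1, hθ'⟩)
    (by rw [Finset.mem_filter, mem_ann_pair]; exact ⟨(mem_DD.1 h).1, (mem_DD.1 h).2.1, hθ⟩)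
    (fun hs => hne (C.eq_of_span h h' hs))
  omega

/-- If only one rich plane contains the line through `Z` and `v`, then `v` is its only hole. -/
theorem tangent_of_unique {v : V} (hv : v ∈ holes S fun W => W) {δ : Dual F V}
    (hR : ∀ θ ∈ DD S Z E, θ ≠ δ → θ v ≠ 0) :
    ∀ x ∈ holes S fun W => W, x ∈ Submodule.span F {Z, v} → x ∈ Submodule.span F {v} := by
  intro x hx hxs
  by_contra hxv
  have hq : 1 < Fintype.card F := Fintype.one_lt_card
  have h1 := duality C.hV C.hd C.h2 (C.finrank_line hv)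
  have h3 := cone_ge_two (F := F) (C.cone1 (Submodule.span F {Z, v})).1 (C.cone1 (Submodule.span F {Z, v})).2
    (u := x) (v := v) (by rw [Finset.mem_filter]; exact ⟨hx, hxs⟩)
    (by rw [Finset.mem_filter]; exact ⟨hv, Submodule.subset_span (by simp)⟩) hxv
  rw [h1] at h3
  obtain ⟨θ₀, hθ₀, h0v⟩ := C.exists_D hv
  have hδ : θ₀ = δ := by
    by_contra hne
    exact hR θ₀ hθ₀ hne h0v
  subst hδ
  have h4 : ∃ θ ∈ (holes S fun W => W.dualAnnihilator).filter (· ∈ (Submodule.span F {Z, v}).dualAnnihilator),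
      θ ∉ Submodule.span F {θ₀} := by
    by_contra hcon
    push Not at hcon
    have := card_le_of_span (C.cone2 (Submodule.span F {Z, v}).dualAnnihilator).1 (mem_holes.1 (mem_DD.1 hθ₀).1).1 hcon
    omega
  obtain ⟨θ, hθ, hθs⟩ := h4
  rw [Finset.mem_filter, mem_ann_pair] at hθ
  refine hR _ (C.norm hθ.1 hθ.2.1) ?_ (by simp [hθ.2.2])
  intro heq
  apply hθs
  rw [Submodule.mem_span_singleton]
  exact ⟨θ E, by rw [← heq, smul_smul, mul_inv_cancel₀ (C.E_ne hθ.1 hθ.2.1), one_smul]⟩

end Conf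

end H8.PS

end S_H8_PS_Main

section S_H8_PS_Final

/-!
MP_325208 (helper8): end of the proof of the bound `2 |S| + q ≤ 2 q ^ 2` for maximal partial spreads that are not spreads.
-/

set_option autoImplicit false

open Module Finset
open scoped Classical

namespace H8.PS

variable {F : Type*} [Field F] [Fintype F]
variable {V : Type*} [AddCommGroup V] [Module F V] [Fintype V] [FiniteDimensional F V]

/-- A functional cutting a hyperplane `P` out of `Q`. -/
theorem exists_cut {P Q : Submodule F V} (hPQ : P ≤ Q) (h : finrank F P + 1 = finrank F Q) :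
    ∃ f : Dual F V, ∃ x₀ ∈ Q, P ≤ LinearMap.ker f ∧ f x₀ = 1 ∧ ∀ x ∈ Q, f x = 0 → x ∈ P := by
  have hlt : P < Q := by
    refine lt_of_le_of_ne hPQ ?_
    rintro rfl
    omega
  obtain ⟨e, he, heP⟩ := SetLike.exists_of_lt hlt
  obtain ⟨g, hg, hgP⟩ := Submodule.exists_le_ker_of_notMem heP
  have h1 : P = Q ⊓ LinearMap.ker g := by
    refine Submodule.eq_of_le_of_finrank_le (le_inf hPQ hgP) ?_
    have h2 : Q ⊓ LinearMap.ker g < Q := by
      refine lt_of_le_of_ne inf_le_left ?_
      intro heq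
      rw [← heq] at he
      exact hg he.2
    have := Submodule.finrank_lt_finrank_of_lt h2
    omega
  refine ⟨(g e)⁻¹ • g, e, he, ?_, by rw [LinearMap.smul_apply, smul_eq_mul, inv_mul_cancel₀ hg], ?_⟩
  · intro x hx
    have := hgP hx
    rw [LinearMap.mem_ker] at this ⊢
    rw [LinearMap.smul_apply, this, smul_zero]
  · intro x hx hx0
    rw [h1]
    refine ⟨hx, ?_⟩
    rw [LinearMap.smul_apply, smul_eq_mul] at hx0
    exact (mul_eq_zero.1 hx0).resolve_left (inv_ne_zero hg)

/-- the holes on no rich plane through `Z` other than `δ` -/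
noncomputable def RR (S : Finset (Submodule F V)) (Z E : V) (δ : Dual F V) : Finset V :=
  (holes S fun W => W).filter fun v => ∀ θ ∈ (DD S Z E).erase δ, θ v ≠ 0

theorem mem_RR {S : Finset (Submodule F V)} {Z E : V} {δ : Dual F V} {v : V} :
    v ∈ RR S Z E δ ↔ v ∈ (holes S fun W => W) ∧ ∀ θ ∈ DD S Z E, θ ≠ δ → θ v ≠ 0 := by
  simp only [RR, Finset.mem_filter, Finset.mem_erase]
  constructor
  · rintro ⟨h1, h2⟩; exact ⟨h1, fun θ hθ hne => h2 θ ⟨hne, hθ⟩⟩
  · rintro ⟨h1, h2⟩; exact ⟨h1, fun θ hθ => h2 θ hθ.2 hθ.1⟩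

/-- The second part of the configuration: a rich plane through `Z` and a line with two holes through `Z` in it. -/
structure Conf2 (S : Finset (Submodule F V)) (Z E : V) (δ : Dual F V) (v₁ v₂ : V) : Prop extends Conf (F := F) S Z E where
  hδ : δ ∈ DD S Z E
  h₁ : v₁ ∈ holes S fun W => W
  h₂ : v₂ ∈ holes S fun W => W
  hne : v₂ ∉ Submodule.span F {v₁}
  hZ : Z ∈ Submodule.span F {v₁, v₂}
  d₁ : δ v₁ = 0
  d₂ : δ v₂ = 0

namespace Conf2

variable {S : Finset (Submodule F V)} {Z E : V} {δ : Dual F V} {v₁ v₂ : V} (C : Conf2 (F := F) S Z E δ v₁ v₂)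
include C

theorem rN : finrank F (Submodule.span F {v₁, v₂}) = 2 := finrank_span_pair (mem_holes.1 C.h₁).1 C.hne

theorem rK : finrank F (LinearMap.ker δ) = 3 := by
  have h0 : δ ≠ 0 := (mem_holes.1 (mem_DD.1 C.hδ).1).1
  have := Module.Dual.finrank_ker_add_one_of_ne_zero (K := F) (f := δ) h0
  have := C.hV
  omega

theorem NK : Submodule.span F {v₁, v₂} ≤ LinearMap.ker δ := by
  rw [Submodule.span_le]
  rintro x (rfl | hx)
  · exact C.d₁
  · rw [Set.mem_singleton_iff] at hx; subst hx; exact C.d₂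

theorem coords : ∃ α β : Dual F V, α Z = 0 ∧ β Z = 0 ∧ (∀ x, δ x = 0 → β x = 0 → x ∈ Submodule.span F {v₁, v₂}) ∧
    (∀ x ∈ Submodule.span F {v₁, v₂}, α x = 0 → x ∈ Submodule.span F {Z}) ∧
    (∀ y z : F, ∃ u, δ u = 0 ∧ α u = y ∧ β u = z) := by
  obtain ⟨β, e, he, hβN, hβe, hβ⟩ := exists_cut C.NK (by rw [C.rN, C.rK])
  obtain ⟨α, a, ha, hαZ, hαa, hα⟩ := exists_cut (P := Submodule.span F {Z}) (Q := Submodule.span F {v₁, v₂})
    (by rw [Submodule.span_le]; simpa using C.hZ) (by rw [C.rN, finrank_span_singleton C.hZ0])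
  refine ⟨α, β, ?_, ?_, fun x hx => hβ x hx, hα, ?_⟩
  · exact hαZ (Submodule.mem_span_singleton_self Z)
  · exact hβN C.hZ
  · intro y z
    have h1 : β a = 0 := hβN ha
    have h2 : δ a = 0 := C.NK ha
    have h3 : δ e = 0 := he
    refine ⟨z • e + (y - z * α e) • a, ?_, ?_, ?_⟩
    · simp [h2, h3]
    · simp [hαa]
    · simp [hβe, h1]

theorem RR_ker {v : V} (hv : v ∈ RR S Z E δ) : δ v = 0 := by
  rw [mem_RR] at hv
  obtain ⟨θ, hθ, h⟩ := C.exists_D hv.1
  by_contra hne
  refine hv.2 θ hθ ?_ h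
  rintro rfl
  exact hne h

theorem RR_tangent {v : V} (hv : v ∈ RR S Z E δ) :
    ∀ x ∈ holes S fun W => W, x ∈ Submodule.span F {Z, v} → x ∈ Submodule.span F {v} :=
  C.tangent_of_unique (mem_RR.1 hv).1 (mem_RR.1 hv).2

theorem card_RR_le : (RR S Z E δ).card ≤ Fintype.card F * (Fintype.card F - 1) := by
  obtain ⟨α, β, hαZ, hβZ, hβ, hα, -⟩ := C.coords
  have h1 : (Finset.univ ×ˢ (Finset.univ.filter fun c : F => c ≠ 0) : Finset (F × F)).card =
      Fintype.card F * (Fintype.card F - 1) := by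
    rw [Finset.card_product, card_ne_zero_filter, Finset.card_univ]
  rw [← h1]
  refine Finset.card_le_card_of_injOn (fun v => (α v, β v)) ?_ ?_
  · intro v hv
    rw [Finset.mem_coe] at hv
    simp only [Finset.coe_product, Set.mem_prod, Finset.mem_coe, Finset.mem_univ, true_and, Finset.mem_filter]
    intro hβv
    have hvN := hβ v (C.RR_ker hv) hβv
    have hvH := (mem_RR.1 hv).1
    have h3 : Submodule.span F {Z, v} = Submodule.span F {v₁, v₂} := by
      refine Submodule.eq_of_le_of_finrank_le ?_ (by rw [C.rN, C.finrank_line hvH])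
      rw [Submodule.span_le]
      rintro x (rfl | hx)
      · exact C.hZ
      · rw [Set.mem_singleton_iff] at hx; subst hx; exact hvN
    have h4 := C.RR_tangent hv v₁ C.h₁ (by rw [h3]; exact Submodule.subset_span (by simp))
    have h5 := C.RR_tangent hv v₂ C.h₂ (by rw [h3]; exact Submodule.subset_span (by simp))
    obtain ⟨c, hc⟩ := Submodule.mem_span_singleton.1 h4
    obtain ⟨d, hd⟩ := Submodule.mem_span_singleton.1 h5
    have hc0 : c ≠ 0 := by
      rintro rfl
      rw [zero_smul] at hc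
      exact (mem_holes.1 C.h₁).1 hc.symm
    apply C.hne
    rw [Submodule.mem_span_singleton]
    exact ⟨d * c⁻¹, by rw [← hc, smul_smul, mul_assoc, inv_mul_cancel₀ hc0, mul_one, hd]⟩
  · intro v hv v' hv' heq
    rw [Finset.mem_coe] at hv hv'
    simp only [Prod.mk.injEq] at heq
    have h3 : v - v' ∈ Submodule.span F {Z} := by
      apply hα
      · apply hβ
        · rw [map_sub, C.RR_ker hv, C.RR_ker hv', sub_zero]
        · rw [map_sub, heq.2, sub_self]
      · rw [map_sub, heq.1, sub_self]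
    obtain ⟨c, hc⟩ := Submodule.mem_span_singleton.1 h3
    have h4 : v' ∈ Submodule.span F {Z, v} := by
      rw [Submodule.mem_span_pair]
      exact ⟨-c, 1, by rw [neg_smul, hc, one_smul]; abel⟩
    obtain ⟨e, he⟩ := Submodule.mem_span_singleton.1 (C.RR_tangent hv v' (mem_RR.1 hv').1 h4)
    by_cases he1 : e = 1
    · rw [he1, one_smul] at he; exact he
    · exfalso
      apply C.not_span (mem_RR.1 hv).1
      rw [Submodule.mem_span_singleton]
      have h5 : (1 - e) • v = c • Z := by rw [sub_smul, one_smul, he, hc]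
      have h6 : (1 - e) ≠ 0 := sub_ne_zero.2 (Ne.symm he1)
      exact ⟨(1 - e)⁻¹ * c, by rw [mul_smul, ← h5, smul_smul, inv_mul_cancel₀ h6, one_smul]⟩

/-- a hole on a line through `Z` can be moved into a given class modulo `Z` -/
theorem rescale {u x : V} (hx : x ∈ holes S fun W => W) (hxu : x ∈ Submodule.span F {Z, u}) :
    ∃ c p : F, c ≠ 0 ∧ c⁻¹ • x = p • Z + u := by
  obtain ⟨p, c, rfl⟩ := Submodule.mem_span_pair.1 hxu
  have hc : c ≠ 0 := by
    rintro rfl
    apply C.not_span hx
    rw [zero_smul, add_zero]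
    exact Submodule.smul_mem _ _ (Submodule.mem_span_singleton_self _)
  exact ⟨c, c⁻¹ * p, hc, by rw [smul_add, smul_smul, smul_smul, inv_mul_cancel₀ hc, one_smul]⟩

theorem RR_nonempty (hd : (Fintype.card F : ℤ) ^ 2 + 1 - S.card < Fintype.card F + 2) : (RR S Z E δ).Nonempty := by
  by_contra hemp
  rw [Finset.not_nonempty_iff_eq_empty] at hemp
  obtain ⟨α, β, hαZ, hβZ, hβ, hα, hsurj⟩ := C.coords
  have hq : 1 < Fintype.card F := Fintype.one_lt_card
  have hδZ : δ Z = 0 := (mem_DD.1 C.hδ).2.1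
  have hup := holes_hyperplane C.hV C.hd C.h2 (LinearMap.ker δ) C.rK
  set B := (holes S fun W => W).filter (· ∈ LinearMap.ker δ) with hB
  have hmaps : ∀ v ∈ B, ((α v, β v) : F × F) ∈ (Finset.univ.erase (0, 0) : Finset (F × F)) := by
    intro v hv
    rw [Finset.mem_erase]
    refine ⟨fun h => ?_, Finset.mem_univ _⟩
    rw [hB, Finset.mem_filter] at hv
    simp only [Prod.mk.injEq] at h
    exact C.not_span hv.1 (hα v (hβ v hv.2 h.2) h.1)
  have hcard := Finset.card_eq_sum_card_fiberwise (f := fun v => ((α v, β v) : F × F)) hmaps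
  have hfib : ∀ b ∈ (Finset.univ.erase (0, 0) : Finset (F × F)), 2 ≤ (B.filter fun v => ((α v, β v) : F × F) = b).card := by
    rintro ⟨y, z⟩ hb
    obtain ⟨u, hu, hαu, hβu⟩ := hsurj y z
    have huZ : u ∉ Submodule.span F {Z} := by
      intro h
      obtain ⟨c, rfl⟩ := Submodule.mem_span_singleton.1 h
      rw [Finset.mem_erase] at hb
      apply hb.1
      rw [← hαu, ← hβu]
      simp [hαZ, hβZ]
    have hr := finrank_span_pair C.hZ0 huZ
    have hdu := duality C.hV C.hd C.h2 hr
    have hpos : 0 < ((holes S fun W => W).filter (· ∈ Submodule.span F {Z, u})).card := by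
      rw [hdu]
      refine Finset.card_pos.2 ⟨δ, ?_⟩
      rw [Finset.mem_filter, mem_ann_pair]
      exact ⟨(mem_DD.1 C.hδ).1, hδZ, hu⟩
    obtain ⟨x, hx⟩ := Finset.card_pos.1 hpos
    rw [Finset.mem_filter] at hx
    obtain ⟨c, p, hc, hcx⟩ := C.rescale hx.1 hx.2
    have hv0 : c⁻¹ • x ∈ holes S fun W => W := smul_mem_holes hx.1 (inv_ne_zero hc)
    have h0 : δ (c⁻¹ • x) = 0 ∧ α (c⁻¹ • x) = y ∧ β (c⁻¹ • x) = z := by
      rw [hcx]; simp [hδZ, hu, hαZ, hβZ, hαu, hβu]
    have hnot : c⁻¹ • x ∉ RR S Z E δ := by rw [hemp]; simp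
    have hex : ∃ θ ∈ DD S Z E, θ ≠ δ ∧ θ (c⁻¹ • x) = 0 := by
      by_contra hcon
      push Not at hcon
      exact hnot (mem_RR.2 ⟨hv0, hcon⟩)
    obtain ⟨θ, hθ, hθδ, hθ0⟩ := hex
    have hnt : ∃ x' ∈ holes S fun W => W, x' ∈ Submodule.span F {Z, c⁻¹ • x} ∧ x' ∉ Submodule.span F {c⁻¹ • x} := by
      by_contra hcon
      push Not at hcon
      exact hθδ (C.unique_of_tangent hv0 hcon C.hδ hθ h0.1 hθ0)
    obtain ⟨x', hx', hx's, hx'n⟩ := hnt
    obtain ⟨c', p', hc', hcx'⟩ := C.rescale hx' hx's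
    have h1 : δ (c'⁻¹ • x') = 0 ∧ α (c'⁻¹ • x') = y ∧ β (c'⁻¹ • x') = z := by
      rw [hcx', map_add, map_add, map_add, h0.1, h0.2.1, h0.2.2]; simp [hδZ, hαZ, hβZ]
    have hne : c⁻¹ • x ≠ c'⁻¹ • x' := by
      intro heq
      apply hx'n
      rw [Submodule.mem_span_singleton]
      exact ⟨c', by rw [heq, smul_smul, mul_inv_cancel₀ hc', one_smul]⟩
    have hsub : ({c⁻¹ • x, c'⁻¹ • x'} : Finset V) ⊆ B.filter fun v => ((α v, β v) : F × F) = (y, z) := by
      intro w hw
      rw [Finset.mem_insert, Finset.mem_singleton] at hw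
      rw [Finset.mem_filter, hB, Finset.mem_filter]
      rcases hw with rfl | rfl
      · exact ⟨⟨hv0, h0.1⟩, by rw [h0.2.1, h0.2.2]⟩
      · exact ⟨⟨smul_mem_holes hx' (inv_ne_zero hc'), h1.1⟩, by rw [h1.2.1, h1.2.2]⟩
    have := Finset.card_le_card hsub
    rwa [Finset.card_pair hne] at this
  have h2 : 2 * (Fintype.card F ^ 2 - 1) ≤ B.card := by
    rw [hcard]
    have := Finset.card_nsmul_le_sum _ _ 2 hfib
    rw [Finset.card_erase_of_mem (Finset.mem_univ _), Finset.card_univ, Fintype.card_prod, smul_eq_mul] at this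
    have h3 : Fintype.card F ^ 2 = Fintype.card F * Fintype.card F := sq _
    rw [h3]; omega
  have h3 : 2 * ((Fintype.card F : ℤ) ^ 2 - 1) ≤ B.card := by
    have h4 : 1 ≤ Fintype.card F ^ 2 := Nat.one_le_pow _ _ (by omega)
    have : ((2 * (Fintype.card F ^ 2 - 1) : ℕ) : ℤ) = 2 * ((Fintype.card F : ℤ) ^ 2 - 1) := by push_cast [h4]; ring
    rw [← this]; exact_mod_cast h2
  have h5 := h3.trans hup
  have hq' : (0 : ℤ) < (Fintype.card F : ℤ) - 1 := by
    have : (1 : ℤ) < Fintype.card F := by exact_mod_cast hq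
    linarith
  nlinarith [mul_pos hq' (sub_pos.2 hd)]

end Conf2

/-- **Main theorem.** -/
theorem main (hV : finrank F V = 4) {S : Finset (Submodule F V)} (h2 : ∀ W ∈ S, finrank F W = 2)
    (hd : ∀ W ∈ S, ∀ W' ∈ S, W ≠ W' → W ⊓ W' = ⊥)
    (hmax : ∀ U : Submodule F V, finrank F U = 2 → U ∉ S → ∃ W ∈ S, U ⊓ W ≠ ⊥)
    (hh : ∃ v : V, v ≠ 0 ∧ ∀ W ∈ S, v ∉ W) :
    2 * S.card + Fintype.card F ≤ 2 * Fintype.card F ^ 2 := by
  by_contra hcon
  have hq : 1 < Fintype.card F := Fintype.one_lt_card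
  have hqz : (1 : ℤ) < Fintype.card F := by exact_mod_cast hq
  have hlt : 2 * ((Fintype.card F : ℤ) ^ 2 + 1 - S.card) < Fintype.card F + 2 := by
    have : 2 * Fintype.card F ^ 2 < 2 * S.card + Fintype.card F := not_le.1 hcon
    have : (2 : ℤ) * (Fintype.card F : ℤ) ^ 2 < 2 * S.card + Fintype.card F := by exact_mod_cast this
    linarith
  obtain ⟨v₁, hv₁0, hv₁⟩ := hh
  have h₁ : v₁ ∈ holes S fun W => W := mem_holes.2 ⟨hv₁0, hv₁⟩
  -- a second hole
  have hv₂ : ∃ v₂ ∈ holes S fun W => W, v₂ ∉ Submodule.span F {v₁} := by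
    by_contra hcon2
    push Not at hcon2
    have h3 := card_le_of_span (fun v hv => (mem_holes.1 hv).1) hv₁0 hcon2
    have h4 := holes_total hV hd h2
    have h5 : 0 < (holes S fun W : Submodule F V => W).card := Finset.card_pos.2 ⟨_, h₁⟩
    have h6 : (0 : ℤ) < ((Fintype.card F : ℤ) ^ 2 - 1) * ((Fintype.card F : ℤ) ^ 2 + 1 - S.card) := by
      rw [← h4]; exact_mod_cast h5
    have h7 : (0 : ℤ) < (Fintype.card F : ℤ) ^ 2 - 1 := by nlinarith
    have h8 : (1 : ℤ) ≤ (Fintype.card F : ℤ) ^ 2 + 1 - S.card := by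
      have := (mul_pos_iff_of_pos_left h7).1 h6
      linarith
    have h9 : ((holes S fun W : Submodule F V => W).card : ℤ) ≤ (Fintype.card F : ℤ) - 1 := by
      have : ((Fintype.card F - 1 : ℕ) : ℤ) = (Fintype.card F : ℤ) - 1 := by push_cast [hq.le]; ring
      rw [← this]; exact_mod_cast h3
    rw [h4] at h9
    nlinarith
  obtain ⟨v₂, h₂, hne⟩ := hv₂
  have rN := finrank_span_pair hv₁0 hne
  obtain ⟨W₀, hW₀, Z, hZ, hZ0, hZW⟩ := exists_covered hmax rN h₁ (Submodule.subset_span (by simp))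
  -- a second vector of `W₀`
  obtain ⟨E, hEW, hE⟩ : ∃ E ∈ W₀, E ∉ Submodule.span F {Z} := by
    by_contra hcon3
    push Not at hcon3
    have h3 : W₀ ≤ Submodule.span F {Z} := hcon3
    have h4 := Submodule.finrank_mono h3
    rw [h2 W₀ hW₀, finrank_span_singleton hZ0] at h4
    omega
  have C : Conf (F := F) S Z E := ⟨hV, hd, h2, hZ0, ⟨W₀, hW₀, hZW, hEW⟩, hE⟩
  -- a rich plane
  obtain ⟨δ, hδ, d₁, d₂⟩ : ∃ δ ∈ DD S Z E, δ v₁ = 0 ∧ δ v₂ = 0 := by
    have h3 := duality hV hd h2 rN
    have h4 : 0 < ((holes S fun W => W).filter (· ∈ Submodule.span F {v₁, v₂})).card := by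
      refine Finset.card_pos.2 ⟨v₁, ?_⟩
      rw [Finset.mem_filter]
      exact ⟨h₁, Submodule.subset_span (by simp)⟩
    rw [h3] at h4
    obtain ⟨θ, hθ⟩ := Finset.card_pos.1 h4
    rw [Finset.mem_filter, mem_ann_pair] at hθ
    have hθZ : θ Z = 0 := by
      obtain ⟨x, y, rfl⟩ := Submodule.mem_span_pair.1 hZ
      simp [hθ.2.1, hθ.2.2]
    exact ⟨_, C.norm hθ.1 hθZ, by simp [hθ.2.1], by simp [hθ.2.2]⟩
  have C2 : Conf2 (F := F) S Z E δ v₁ v₂ := ⟨C, hδ, h₁, h₂, hne, hZ, d₁, d₂⟩
  -- the numbers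
  have hD := card_DD hV hd h2 (E := E) hW₀ hZW hZ0
  have hDpos : 1 ≤ (DD S Z E).card := Finset.card_pos.2 ⟨_, hδ⟩
  set k := ((DD S Z E).erase δ).card with hk
  have hk1 : k + 1 = (DD S Z E).card := by
    rw [hk, Finset.card_erase_of_mem hδ]; omega
  have hkz : (k : ℤ) + 1 ≤ (Fintype.card F : ℤ) ^ 2 + 1 - S.card := by
    have : ((k + 1 : ℕ) : ℤ) = (DD S Z E).card := by rw [hk1]
    push_cast at this
    rw [this]; exact hD
  have hkq : k ≤ Fintype.card F - 1 := by
    have h3 : 2 * ((k : ℤ) + 1) < Fintype.card F + 2 := by linarith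
    have h4 : 2 * (k + 1) < Fintype.card F + 2 := by exact_mod_cast h3
    omega
  obtain ⟨m, hm⟩ : ∃ m, k + m = Fintype.card F - 1 := ⟨Fintype.card F - 1 - k, by omega⟩
  set R := RR S Z E δ with hR
  have hRne : R.Nonempty := C2.RR_nonempty (by linarith)
  have hRle : R.card ≤ Fintype.card F * (Fintype.card F - 1) := C2.card_RR_le
  have hgood : Good R (fun v => ∏ θ ∈ (DD S Z E).erase δ, θ v) k m := by
    refine ⟨hm, fun v hv => (mem_holes.1 (mem_RR.1 hv).1).1, ?_, ?_, ?_, ?_⟩
    · intro v hv c hc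
      rw [hR, mem_RR] at hv ⊢
      refine ⟨smul_mem_holes hv.1 hc, fun θ hθ hθδ => ?_⟩
      rw [map_smul]
      exact smul_ne_zero hc (hv.2 θ hθ hθδ)
    · intro v hv
      rw [hR, mem_RR] at hv
      refine Finset.prod_ne_zero_iff.2 fun θ hθ => ?_
      rw [Finset.mem_erase] at hθ
      exact hv.2 θ hθ.2 hθ.1
    · intro v c _
      simp only [map_smul, smul_eq_mul]
      rw [Finset.prod_mul_distrib, Finset.prod_const]
    · intro L
      have h3 := sum_holes S (fun W => W) hd h2 (by omega)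
        (Finset.univ : Finset ({θ // θ ∈ (DD S Z E).erase δ} ⊕ Fin m))
        (Sum.elim (fun θ => θ.1) L) (by
          rw [Finset.card_univ, Fintype.card_sum, Fintype.card_coe, Fintype.card_fin]
          exact hm)
      rw [hR, RR, Finset.sum_filter]
      refine Eq.trans (Finset.sum_congr rfl fun v _ => ?_) h3
      rw [Fintype.prod_sum_type]
      simp only [Sum.elim_inl, Sum.elim_inr]
      rw [Finset.prod_coe_sort ((DD S Z E).erase δ) fun θ => θ v]
      by_cases hall : ∀ θ ∈ (DD S Z E).erase δ, θ v ≠ 0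
      · rw [if_pos hall]
      · rw [if_neg hall]
        push Not at hall
        obtain ⟨θ, hθ, hθ0⟩ := hall
        rw [Finset.prod_eq_zero hθ hθ0, zero_mul]
  obtain ⟨hA, hBB⟩ := Good.cb m hgood hRne
  have hmz : (Fintype.card F : ℤ) - 1 = k + m := by
    have : ((k + m : ℕ) : ℤ) = ((Fintype.card F - 1 : ℕ) : ℤ) := by rw [hm]
    push_cast [hq.le] at this
    linarith
  have hm2 : Fintype.card F ≤ 2 * m + 1 := by
    have : (Fintype.card F : ℤ) ≤ 2 * m + 1 := by linarith
    exact_mod_cast this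
  obtain ⟨a, b, hab⟩ := hBB (hRle.trans (Nat.mul_le_mul_right _ hm2))
  obtain ⟨v, hv⟩ := hRne
  obtain ⟨u, hu, huv⟩ := hgood.exists_not_mem hv
  have hv0 : v ≠ 0 := hgood.ne v hv
  have hU : finrank F (Submodule.span F {a, b}) = 2 := by
    refine le_antisymm (finrank_span_pair_le a b) ?_
    rw [← finrank_span_pair hv0 huv]
    apply Submodule.finrank_mono
    rw [Submodule.span_le]
    rintro x (rfl | hx)
    · exact hab _ hv
    · rw [Set.mem_singleton_iff] at hx; subst hx; exact hab _ hu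
  have h10 := holes_plane hV hd h2 hmax hU (mem_RR.1 hv).1 (hab v hv) (R := R)
    (fun x hx => (mem_RR.1 hx).1) hab
  have h11 : ((m : ℤ) + 2) * ((Fintype.card F : ℤ) - 1) ≤ R.card := by
    have : (((m + 2) * (Fintype.card F - 1) : ℕ) : ℤ) ≤ R.card := by exact_mod_cast hA
    push_cast [hq.le] at this
    exact this
  have h12 := h11.trans h10
  have hq' : (0 : ℤ) < (Fintype.card F : ℤ) - 1 := by linarith
  rw [mul_comm] at h12
  have h13 := le_of_mul_le_mul_left h12 hq'
  linarith

end H8.PS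

end S_H8_PS_Final
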