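import Mathlib

/-!
# MP_325208: maximal partial spreads, part B

This file joins several modules (of helpers 8, 16, 25, 27, 33, 84, 97) to save build time: the combinatorial data of a rich plane, centres with few tangents, no long lines.
-/

section S_H8_PS_PlaneData

/-!
MP_325208 (helper8): the planar data of a rich plane of a maximal partial spread, as an abstract structure.
`q` is the order, `d` the deficiency, `B` the holes in the plane, `T B Z` the holes on tangents through `Z`.
-/

set_option autoImplicit false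

open Finset
open scoped Classical

namespace H8.PS

variable (P L : Type*) [Fintype P] [Fintype L] [Membership P L] [Configuration.ProjectivePlane P L]

variable {P} in
/-- the points of `B` on the line `l` -/
noncomputable def on {L : Type*} [Membership P L] (B : Finset P) (l : L) : Finset P := B.filter fun X => X ∈ l

variable {P} in
/-- the points `X` of `B` such that a line through `Z` and `X` has no other point of `B` -/
noncomputable def T (L : Type*) [Membership P L] (B : Finset P) (Z : P) : Finset P :=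
  B.filter fun X => ∀ l : L, Z ∈ l → X ∈ l → ∀ Y ∈ B, Y ∈ l → Y = X

variable {P L} in
omit [Fintype P] [Fintype L] [Configuration.ProjectivePlane P L] in
theorem mem_on {B : Finset P} {l : L} {X : P} : X ∈ on B l ↔ X ∈ B ∧ X ∈ l := by
  simp [on]

variable {P L} in
omit [Fintype P] [Fintype L] [Configuration.ProjectivePlane P L] in
theorem mem_T {B : Finset P} {Z X : P} :
    X ∈ T L B Z ↔ X ∈ B ∧ ∀ l : L, Z ∈ l → X ∈ l → ∀ Y ∈ B, Y ∈ l → Y = X := by
  simp only [T, Finset.mem_filter]

/-- What is used of a line-free plane of a maximal partial spread of deficiency `d`. -/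
structure PlaneData (q d : ℕ) (B : Finset P) : Prop where
  order : Configuration.ProjectivePlane.order P L = q
  card : B.card = q + d
  /-- every line has a hole -/
  pos : ∀ l : L, 1 ≤ (on B l).card
  /-- every line has at most `d` holes -/
  le : ∀ l : L, (on B l).card ≤ d
  /-- few tangent holes are collinear -/
  cb0 : ∀ Z ∉ B, (T L B Z).card ≤ 2 * (q - d) + 1 → ∃ l : L, ∀ X ∈ T L B Z, X ∈ l
  /-- there are at least `q - d + 2` tangent holes -/
  cb0' : ∀ Z ∉ B, q - d + 2 ≤ (T L B Z).card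
  /-- the tangent holes off a line are none or many -/
  cb1 : ∀ Z ∉ B, ∀ l : L, ((T L B Z).filter fun X => X ∉ l).Nonempty →
    q - d + 1 ≤ ((T L B Z).filter fun X => X ∉ l).card
  /-- few tangent holes off a line are collinear -/
  cb3 : ∀ Z ∉ B, ∀ l : L, ((T L B Z).filter fun X => X ∉ l).card + 1 ≤ 2 * (q - d) →
    ∃ l' : L, ∀ X ∈ T L B Z, X ∉ l → X ∈ l'

end H8.PS

end S_H8_PS_PlaneData

section S_H27_PS_Center

/-!
# Step 1 for MP_325208 beyond `q / 2`: a non-hole with few tangents

In a projective plane of order `q` let `B` be a set of `q + d` points, `12 d ≤ 7 q`, such that every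
line contains a point of `B`.  Then some point outside `B` lies on at most `2 (q - d) + 1` lines
that contain exactly one point of `B`.
-/

open Finset
open scoped Classical

namespace Pool.Agent.H27.PS

variable {P L : Type*} [Fintype P] [Fintype L]

set_option linter.unusedSectionVars false

/-- the number of points of `B` on the line `l` -/
noncomputable def jj (inc : P → L → Prop) (B : Finset P) (l : L) : ℕ :=
  (B.filter fun p => inc p l).card

/-- sum of the `j (l)` over the lines through a point outside `B` -/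
theorem sum_jj_through (inc : P → L → Prop)
    (h2 : ∀ p p' : P, p ≠ p' → (univ.filter fun l => inc p l ∧ inc p' l).card = 1)
    (B : Finset P) {Z : P} (hZ : Z ∉ B) :
    ∑ l ∈ univ.filter (fun l => inc Z l), (jj inc B l : ℤ) = B.card := by
  have h1 : ∀ l : L, (jj inc B l : ℤ) = ∑ p ∈ B, if inc p l then 1 else 0 := by
    intro l
    rw [Finset.sum_boole]
    rfl
  simp_rw [h1]
  rw [Finset.sum_comm]
  have h3 : ∀ p ∈ B, (∑ l ∈ univ.filter (fun l => inc Z l), if inc p l then (1 : ℤ) else 0) = 1 := by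
    intro p hp
    rw [Finset.sum_boole, Finset.filter_filter, h2 Z p (fun h => hZ (h ▸ hp))]
    rfl
  rw [Finset.sum_congr rfl h3]
  simp

theorem sum_jj (inc : P → L → Prop) {q : ℕ} (hp : ∀ p : P, (univ.filter fun l => inc p l).card = q + 1)
    (B : Finset P) : ∑ l : L, (jj inc B l : ℤ) = B.card * (q + 1) := by
  have h1 : ∀ l : L, (jj inc B l : ℤ) = ∑ p ∈ B, if inc p l then 1 else 0 := by
    intro l
    rw [Finset.sum_boole]
    rfl
  simp_rw [h1]
  rw [Finset.sum_comm]
  have h3 : ∀ p ∈ B, (∑ l : L, if inc p l then (1 : ℤ) else 0) = q + 1 := by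
    intro p _
    rw [Finset.sum_boole, hp p]
    push_cast
    rfl
  rw [Finset.sum_congr rfl h3]
  simp

theorem sum_jj_sq (inc : P → L → Prop) {q : ℕ}
    (hp : ∀ p : P, (univ.filter fun l => inc p l).card = q + 1)
    (h2 : ∀ p p' : P, p ≠ p' → (univ.filter fun l => inc p l ∧ inc p' l).card = 1)
    (B : Finset P) : ∑ l : L, (jj inc B l : ℤ) ^ 2 = B.card * (q + B.card) := by
  have h1 : ∀ l : L, (jj inc B l : ℤ) = ∑ p ∈ B, if inc p l then 1 else 0 := by
    intro l
    rw [Finset.sum_boole]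
    rfl
  have h4 : ∀ l : L, (jj inc B l : ℤ) ^ 2 =
      ∑ p ∈ B, ∑ p' ∈ B, if inc p l ∧ inc p' l then 1 else 0 := by
    intro l
    rw [sq, h1, Finset.sum_mul_sum]
    refine Finset.sum_congr rfl fun p _ => Finset.sum_congr rfl fun p' _ => ?_
    by_cases a : inc p l <;> by_cases b : inc p' l <;> simp [a, b]
  simp_rw [h4]
  rw [Finset.sum_comm]
  have h3 : ∀ p ∈ B, (∑ l : L, ∑ p' ∈ B, if inc p l ∧ inc p' l then (1 : ℤ) else 0) =
      q + B.card := by
    intro p hpB
    rw [Finset.sum_comm]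
    rw [← Finset.add_sum_erase B _ hpB]
    have h5 : (∑ l : L, if inc p l ∧ inc p l then (1 : ℤ) else 0) = q + 1 := by
      simp only [and_self]
      rw [Finset.sum_boole, hp p]
      push_cast
      rfl
    have h6 : ∀ p' ∈ B.erase p, (∑ l : L, if inc p l ∧ inc p' l then (1 : ℤ) else 0) = 1 := by
      intro p' hp'
      rw [Finset.sum_boole, h2 p p' (Ne.symm (Finset.ne_of_mem_erase hp'))]
      rfl
    rw [h5, Finset.sum_congr rfl h6]
    simp only [Finset.sum_const, nsmul_eq_mul, mul_one]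
    rw [Finset.card_erase_of_mem hpB]
    have : 1 ≤ B.card := Finset.card_pos.2 ⟨p, hpB⟩
    push_cast [this]
    ring
  rw [Finset.sum_congr rfl h3]
  simp

theorem final_ineq {q d : ℤ} (hd : 1 ≤ d) (h12 : 12 * d ≤ 7 * q) :
    9 * ((q - 1) * ((q + d) * (q + d - 1))) < (q ^ 2 + 1 - d) * (100 * q - 131 * d + 31) := by
  obtain ⟨e, he⟩ : ∃ e, e = 7 * q - 12 * d := ⟨_, rfl⟩
  obtain ⟨f, hf⟩ : ∃ f, f = d - 1 := ⟨_, rfl⟩
  have he0 : 0 ≤ e := by linarith
  have hf0 : 0 ≤ f := by linarith
  have h1 : 343 * ((q ^ 2 + 1 - d) * (100 * q - 131 * d + 31) -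
      9 * ((q - 1) * ((q + d) * (q + d - 1)))) =
      1764 * f ^ 3 + 13839 * f ^ 2 * e + 59780 * f ^ 2 + 2233 * f * e ^ 2 + 32333 * f * e +
        109123 * f + 91 * e ^ 3 + 2576 * e ^ 2 + 22953 * e + 61740 := by
    rw [he, hf]; ring
  have h2 : 0 < 1764 * f ^ 3 + 13839 * f ^ 2 * e + 59780 * f ^ 2 + 2233 * f * e ^ 2 +
      32333 * f * e + 109123 * f + 91 * e ^ 3 + 2576 * e ^ 2 + 22953 * e + 61740 := by
    positivity
  linarith

/-- **Step 1.** Some point outside `B` lies on at most `2 (q - d) + 1` tangents of `B`. -/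
theorem exists_center (inc : P → L → Prop) {q d : ℕ} (hP : Fintype.card P = q ^ 2 + q + 1)
    (hl : ∀ l : L, (univ.filter fun p => inc p l).card = q + 1)
    (hp : ∀ p : P, (univ.filter fun l => inc p l).card = q + 1)
    (h2 : ∀ p p' : P, p ≠ p' → (univ.filter fun l => inc p l ∧ inc p' l).card = 1)
    (B : Finset P) (hB : B.card = q + d) (hd : 1 ≤ d) (h12 : 12 * d ≤ 7 * q) :
    ∃ Z, Z ∉ B ∧ (univ.filter fun l => inc Z l ∧ jj inc B l = 1).card ≤ 2 * (q - d) + 1 := by
  by_contra hcon
  push Not at hcon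
  have hdq : d ≤ q := by omega
  have hbz : (B.card : ℤ) = q + d := by rw [hB]; push_cast; rfl
  -- the estimate at one point
  have hone : ∀ Z, Z ∉ B → (100 * (q : ℤ) - 131 * d + 31) ≤
      9 * ∑ l ∈ univ.filter (fun l => inc Z l), ((jj inc B l : ℤ) ^ 2 - jj inc B l) := by
    intro Z hZ
    have h1 := hcon Z hZ
    have ht : ((univ.filter fun l => inc Z l ∧ jj inc B l = 1).card : ℤ) =
        ∑ l ∈ univ.filter (fun l => inc Z l), if jj inc B l = 1 then 1 else 0 := by
      rw [Finset.sum_boole, Finset.filter_filter]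
    have h3 : 100 * (∑ l ∈ univ.filter (fun l => inc Z l), if jj inc B l = 1 then (1 : ℤ) else 0) ≤
        ∑ l ∈ univ.filter (fun l => inc Z l), (13 - 3 * (jj inc B l : ℤ)) ^ 2 := by
      rw [Finset.mul_sum]
      refine Finset.sum_le_sum fun l _ => ?_
      split_ifs with h
      · rw [h]; norm_num
      · nlinarith [sq_nonneg (13 - 3 * (jj inc B l : ℤ))]
    have h4 : ∑ l ∈ univ.filter (fun l => inc Z l), (13 - 3 * (jj inc B l : ℤ)) ^ 2 =
        169 * (q + 1) - 69 * (q + d) +
          9 * ∑ l ∈ univ.filter (fun l => inc Z l), ((jj inc B l : ℤ) ^ 2 - jj inc B l) := by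
      have h5 : ∀ l : L, (13 - 3 * (jj inc B l : ℤ)) ^ 2 =
          169 - 69 * (jj inc B l : ℤ) + 9 * ((jj inc B l : ℤ) ^ 2 - jj inc B l) := fun l => by ring
      simp_rw [h5]
      rw [Finset.sum_add_distrib, Finset.sum_sub_distrib, ← Finset.mul_sum, ← Finset.mul_sum,
        sum_jj_through inc h2 B hZ, hbz, Finset.sum_const, hp Z, nsmul_eq_mul]
      push_cast
      ring
    rw [← ht, h4] at h3
    have h6 : (2 * ((q : ℤ) - d) + 2) ≤
        ((univ.filter fun l => inc Z l ∧ jj inc B l = 1).card : ℤ) := by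
      have : 2 * (q - d) + 2 ≤ (univ.filter fun l => inc Z l ∧ jj inc B l = 1).card := h1
      have h7 : ((2 * (q - d) + 2 : ℕ) : ℤ) ≤
        ((univ.filter fun l => inc Z l ∧ jj inc B l = 1).card : ℤ) := by exact_mod_cast this
      rw [Nat.cast_add, Nat.cast_mul, Nat.cast_sub hdq] at h7
      exact h7
    linarith
  -- summing over the points outside B
  have hN : ((univ.filter fun Z : P => Z ∉ B).card : ℤ) = (q : ℤ) ^ 2 + 1 - d := by
    have h1 : (univ.filter fun Z : P => Z ∉ B).card + B.card = Fintype.card P := by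
      have h3 := Finset.card_filter_add_card_filter_not (s := (univ : Finset P)) (fun Z => Z ∈ B)
      rw [Finset.filter_mem_eq_inter, Finset.univ_inter, Finset.card_univ] at h3
      rw [← h3]
      ring
    rw [hP, hB] at h1
    have h3 : (((univ.filter fun Z : P => Z ∉ B).card + (q + d) : ℕ) : ℤ) =
      ((q ^ 2 + q + 1 : ℕ) : ℤ) := by rw [h1]
    push_cast at h3
    linarith
  have hsum := Finset.sum_le_sum (s := univ.filter fun Z : P => Z ∉ B)
    (fun Z hZ => hone Z (Finset.mem_filter.1 hZ).2)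
  rw [Finset.sum_const, nsmul_eq_mul, hN, ← Finset.mul_sum] at hsum
  have hswap : ∑ Z ∈ univ.filter (fun Z : P => Z ∉ B), ∑ l ∈ univ.filter (fun l => inc Z l),
      ((jj inc B l : ℤ) ^ 2 - jj inc B l) ≤ ((q : ℤ) - 1) * ((q + d) * (q + d - 1)) := by
    have h1 : ∀ Z : P, ∑ l ∈ univ.filter (fun l => inc Z l), ((jj inc B l : ℤ) ^ 2 - jj inc B l) =
        ∑ l : L, if inc Z l then ((jj inc B l : ℤ) ^ 2 - jj inc B l) else 0 := fun Z => by
      rw [Finset.sum_filter]
    simp_rw [h1]
    rw [Finset.sum_comm]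
    have h3 : ∀ l : L, (∑ Z ∈ univ.filter (fun Z : P => Z ∉ B),
        if inc Z l then ((jj inc B l : ℤ) ^ 2 - jj inc B l) else 0) ≤
        ((q : ℤ) - 1) * ((jj inc B l : ℤ) ^ 2 - jj inc B l) := by
      intro l
      rw [← Finset.sum_filter, Finset.sum_const, nsmul_eq_mul, Finset.filter_filter]
      have h4 : (univ.filter fun Z : P => Z ∉ B ∧ inc Z l).card + jj inc B l = q + 1 := by
        rw [← hl l]
        have h5 := Finset.card_filter_add_card_filter_not (s := univ.filter fun p => inc p l)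
          (fun Z => Z ∉ B)
        rw [Finset.filter_filter, Finset.filter_filter] at h5
        rw [← h5]
        congr 1
        · congr 1
          ext Z
          simp [and_comm]
        · unfold jj
          congr 1
          ext Z
          simp [and_comm]
      have h6 : ((univ.filter fun Z : P => Z ∉ B ∧ inc Z l).card : ℤ) = q + 1 - jj inc B l := by
        have : (((univ.filter fun Z : P => Z ∉ B ∧ inc Z l).card + jj inc B l : ℕ) : ℤ) =
          ((q + 1 : ℕ) : ℤ) := by rw [h4]
        push_cast at this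
        linarith
      rw [h6]
      rcases Nat.lt_or_ge (jj inc B l) 2 with h | h
      · have h7 : ((jj inc B l : ℤ) ^ 2 - jj inc B l) = 0 := by
          have : jj inc B l = 0 ∨ jj inc B l = 1 := by omega
          rcases this with h | h <;> rw [h] <;> norm_num
        rw [h7, mul_zero, mul_zero]
      · have h8 : (2 : ℤ) ≤ jj inc B l := by exact_mod_cast h
        refine mul_le_mul_of_nonneg_right (by linarith) ?_
        nlinarith
    refine (Finset.sum_le_sum fun l _ => h3 l).trans ?_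
    rw [← Finset.mul_sum, Finset.sum_sub_distrib, sum_jj_sq inc hp h2, sum_jj inc hp, hbz]
    have h9 : ((q : ℤ) + d) * (q + (q + d)) - ((q : ℤ) + d) * (q + 1) =
      ((q : ℤ) + d) * (q + d - 1) := by ring
    rw [h9]
  have h10 := final_ineq (q := (q : ℤ)) (d := (d : ℤ)) (by exact_mod_cast hd)
    (by exact_mod_cast h12)
  linarith

end Pool.Agent.H27.PS

end S_H27_PS_Center

section S_H27_PS_CenterPD

/-!
# Step 1 for `PlaneData`: a non-hole with few tangent holes
-/

set_option autoImplicit false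

open Finset
open scoped Classical

namespace Pool.Agent.H27.PS

open H8.PS

variable {P L : Type*} [Fintype P] [Fintype L] [Membership P L] [Configuration.ProjectivePlane P L]

theorem mem_T {B : Finset P} {Z X : P} :
    X ∈ T L B Z ↔ X ∈ B ∧ ∀ l : L, Z ∈ l → X ∈ l → ∀ Y ∈ B, Y ∈ l → Y = X := by
  unfold T
  simp only [Finset.mem_filter]

/-- **Step 1.** If `12 d ≤ 7 q`, some non-hole has at most `2 (q - d) + 1` tangent holes. -/
theorem exists_center_pd {q d : ℕ} {B : Finset P} (h : PlaneData P L q d B) (hd : 1 ≤ d)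
    (h12 : 12 * d ≤ 7 * q) : ∃ Z, Z ∉ B ∧ (T L B Z).card ≤ 2 * (q - d) + 1 := by
  have hP : Fintype.card P = q ^ 2 + q + 1 := by
    have := Configuration.ProjectivePlane.card_points P L
    rw [h.order] at this
    exact this
  have hl : ∀ l : L, (univ.filter fun p : P => p ∈ l).card = q + 1 := by
    intro l
    have := Configuration.ProjectivePlane.pointCount_eq P l
    rw [h.order, Configuration.pointCount, Nat.card_eq_fintype_card, Fintype.card_subtype] at this
    exact this
  have hp : ∀ p : P, (univ.filter fun l : L => p ∈ l).card = q + 1 := by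
    intro p
    have := Configuration.ProjectivePlane.lineCount_eq (P := P) L p
    rw [h.order, Configuration.lineCount, Nat.card_eq_fintype_card, Fintype.card_subtype] at this
    exact this
  have h2 : ∀ p p' : P, p ≠ p' → (univ.filter fun l : L => p ∈ l ∧ p' ∈ l).card = 1 := by
    intro p p' hpp
    rw [Finset.card_eq_one]
    refine ⟨Configuration.HasLines.mkLine hpp, ?_⟩
    ext l
    simp only [Finset.mem_filter, Finset.mem_univ, true_and, Finset.mem_singleton]
    constructor
    · intro hpl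
      have h3 := Configuration.HasLines.mkLine_ax (L := L) hpp
      exact (Configuration.Nondegenerate.eq_or_eq hpl.1 hpl.2 h3.1 h3.2).resolve_left hpp
    · rintro rfl
      exact Configuration.HasLines.mkLine_ax hpp
  obtain ⟨Z, hZ, hc⟩ := exists_center (fun (p : P) (l : L) => p ∈ l) hP hl hp h2 B h.card hd h12
  refine ⟨Z, hZ, le_trans ?_ hc⟩
  -- a tangent hole goes to its tangent
  have hne : ∀ X ∈ T L B Z, Z ≠ X := by
    intro X hX hZX
    rw [mem_T] at hX
    exact hZ (hZX ▸ hX.1)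
  have hex : ∀ X : P, ∃ l : L, X ∈ T L B Z → (Z ∈ l ∧ X ∈ l) := by
    intro X
    by_cases hX : X ∈ T L B Z
    · exact ⟨Configuration.HasLines.mkLine (hne X hX), fun _ =>
        Configuration.HasLines.mkLine_ax (hne X hX)⟩
    · have h3 : 0 < (univ.filter fun l : L => Z ∈ l).card := by rw [hp Z]; omega
      obtain ⟨l, -⟩ := Finset.card_pos.1 h3
      exact ⟨l, fun h => absurd h hX⟩
  choose f hf using hex
  refine Finset.card_le_card_of_injOn f ?_ ?_
  · intro X hX
    rw [Finset.mem_coe] at hX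
    obtain ⟨h3, h4⟩ := hf X hX
    rw [mem_T] at hX
    simp only [Finset.coe_filter, Set.mem_ofPred_eq, Finset.mem_univ, true_and]
    refine ⟨h3, ?_⟩
    unfold jj
    rw [Finset.card_eq_one]
    refine ⟨X, ?_⟩
    ext Y
    simp only [Finset.mem_filter, Finset.mem_singleton]
    constructor
    · rintro ⟨hY, hYl⟩
      exact hX.2 (f X) h3 h4 Y hY hYl
    · rintro rfl
      exact ⟨hX.1, h4⟩
  · intro X hX X' hX' heq
    rw [Finset.mem_coe] at hX hX'
    obtain ⟨h3, h4⟩ := hf X hX
    obtain ⟨h5, h6⟩ := hf X' hX'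
    rw [mem_T] at hX hX'
    rw [← heq] at h6
    exact (hX.2 (f X) h3 h4 X' hX'.1 h6).symm

end Pool.Agent.H27.PS

end S_H27_PS_CenterPD

section S_H27_PS_Cnt27

/-!
# The counting lemmas of `H97/PS/Cnt.lean`
-/

set_option autoImplicit false
set_option linter.unusedSectionVars false

open Configuration Finset H8.PS
open scoped Classical

namespace Pool.Agent.H27.PS.Cnt

variable {P L : Type*} [Fintype P] [Fintype L] [Membership P L] [ProjectivePlane P L]

/-- there are `q + 1` lines through a point -/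
theorem card_through (Z : P) :
    (Finset.univ.filter fun l : L => Z ∈ l).card = ProjectivePlane.order P L + 1 := by
  have := Configuration.ProjectivePlane.lineCount_eq (P := P) L Z
  rw [Configuration.lineCount, Nat.card_eq_fintype_card, Fintype.card_subtype] at this
  exact this

/-- there are `q + 1` points on a line -/
theorem card_on (l : L) :
    (Finset.univ.filter fun p : P => p ∈ l).card = ProjectivePlane.order P L + 1 := by
  have := Configuration.ProjectivePlane.pointCount_eq P l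
  rw [Configuration.pointCount, Nat.card_eq_fintype_card, Fintype.card_subtype] at this
  exact this

theorem card_two (p p' : P) (hpp : p ≠ p') :
    (univ.filter fun l : L => p ∈ l ∧ p' ∈ l).card = 1 := by
  rw [Finset.card_eq_one]
  refine ⟨Configuration.HasLines.mkLine hpp, ?_⟩
  ext l
  simp only [Finset.mem_filter, Finset.mem_univ, true_and, Finset.mem_singleton]
  constructor
  · intro hpl
    have h3 := Configuration.HasLines.mkLine_ax (L := L) hpp
    exact (Configuration.Nondegenerate.eq_or_eq hpl.1 hpl.2 h3.1 h3.2).resolve_left hpp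
  · rintro rfl
    exact Configuration.HasLines.mkLine_ax hpp

theorem on_eq (B : Finset P) (l : L) : (on B l).card = jj (fun (p : P) (l : L) => p ∈ l) B l := rfl

/-- the lines through a point outside `B` partition `B` -/
theorem sum_through (B : Finset P) {Z : P} (hZ : Z ∉ B) :
    ∑ l ∈ Finset.univ.filter (fun l : L => Z ∈ l), (on B l).card = B.card := by
  have h := sum_jj_through (fun (p : P) (l : L) => p ∈ l) card_two B hZ
  simp_rw [on_eq]
  exact_mod_cast h

/-- first moment -/
theorem sum_on (B : Finset P) : ∑ l : L, (on B l).card = B.card * (ProjectivePlane.order P L + 1) := by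
  have h := sum_jj (fun (p : P) (l : L) => p ∈ l) (q := ProjectivePlane.order P L)
    (fun p => card_through p) B
  simp_rw [on_eq]
  exact_mod_cast h

/-- second moment -/
theorem sum_on_sq (B : Finset P) :
    ∑ l : L, (on B l).card * ((on B l).card - 1) = B.card * (B.card - 1) := by
  have h := sum_jj_sq (fun (p : P) (l : L) => p ∈ l) (q := ProjectivePlane.order P L)
    (fun p => card_through p) card_two B
  have h' := sum_jj (fun (p : P) (l : L) => p ∈ l) (q := ProjectivePlane.order P L)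
    (fun p => card_through p) B
  simp_rw [on_eq]
  have hc : ∀ n : ℕ, ((n * (n - 1) : ℕ) : ℤ) = (n : ℤ) ^ 2 - n := by
    intro n
    rcases Nat.eq_zero_or_pos n with h0 | h0
    · subst h0; norm_num
    · rw [Nat.cast_mul, Nat.cast_sub h0]; push_cast; ring
  have h1 : ((∑ l : L, jj (fun (p : P) (l : L) => p ∈ l) B l *
      (jj (fun (p : P) (l : L) => p ∈ l) B l - 1) : ℕ) : ℤ) = ((B.card * (B.card - 1) : ℕ) : ℤ) := by
    rw [Nat.cast_sum]
    simp_rw [hc]
    rw [Finset.sum_sub_distrib, h, h']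
    ring
  exact_mod_cast h1

/-- tangent points and tangent lines through a point outside `B` -/
theorem card_T (B : Finset P) {Z : P} (hZ : Z ∉ B) :
    (T L B Z).card = (Finset.univ.filter fun l : L => Z ∈ l ∧ (on B l).card = 1).card := by
  have hne : ∀ X ∈ T L B Z, Z ≠ X := by
    intro X hX hZX
    rw [mem_T] at hX
    exact hZ (hZX ▸ hX.1)
  refine Finset.card_bij (fun X hX => Configuration.HasLines.mkLine (L := L) (hne X hX)) ?_ ?_ ?_
  · intro X hX
    obtain ⟨h3, h4⟩ := Configuration.HasLines.mkLine_ax (L := L) (hne X hX)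
    rw [mem_T] at hX
    rw [Finset.mem_filter]
    refine ⟨Finset.mem_univ _, h3, ?_⟩
    rw [Finset.card_eq_one]
    refine ⟨X, ?_⟩
    ext Y
    unfold on
    simp only [Finset.mem_filter, Finset.mem_singleton]
    constructor
    · rintro ⟨hY, hYl⟩
      exact hX.2 _ h3 h4 Y hY hYl
    · rintro rfl
      exact ⟨hX.1, h4⟩
  · intro X hX X' hX' heq
    obtain ⟨h3, h4⟩ := Configuration.HasLines.mkLine_ax (L := L) (hne X hX)
    obtain ⟨h5, h6⟩ := Configuration.HasLines.mkLine_ax (L := L) (hne X' hX')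
    have hX2 := mem_T.1 hX
    have hX3 := mem_T.1 hX'
    rw [← heq] at h6
    exact (hX2.2 _ h3 h4 X' hX3.1 h6).symm
  · intro l hl
    rw [Finset.mem_filter] at hl
    obtain ⟨-, hZl, hc⟩ := hl
    obtain ⟨X, hX⟩ := Finset.card_eq_one.1 hc
    have hXon : X ∈ on B l := by rw [hX]; exact Finset.mem_singleton_self _
    unfold on at hXon
    rw [Finset.mem_filter] at hXon
    have hZX : Z ≠ X := fun h => hZ (h ▸ hXon.1)
    have hall : ∀ l' : L, Z ∈ l' → X ∈ l' → l' = l := fun l' h1 h2 =>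
      (Configuration.Nondegenerate.eq_or_eq h1 h2 hZl hXon.2).resolve_left hZX
    have hXT : X ∈ T L B Z := by
      rw [mem_T]
      refine ⟨hXon.1, fun l' h1 h2 Y hY hYl => ?_⟩
      rw [hall l' h1 h2] at hYl
      have : Y ∈ on B l := by unfold on; rw [Finset.mem_filter]; exact ⟨hY, hYl⟩
      rw [hX] at this
      exact Finset.mem_singleton.1 this
    refine ⟨X, hXT, ?_⟩
    obtain ⟨h3, h4⟩ := Configuration.HasLines.mkLine_ax (L := L) (hne X hXT)
    exact hall _ h3 h4

/-- secants through the points outside `B` -/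
theorem sum_sec (B : Finset P) :
    ∑ Z ∈ (Finset.univ \ B : Finset P), (Finset.univ.filter fun l : L => Z ∈ l ∧ 2 ≤ (on B l).card).card =
      ∑ l ∈ Finset.univ.filter (fun l : L => 2 ≤ (on B l).card),
        (ProjectivePlane.order P L + 1 - (on B l).card) := by
  have h1 := Finset.sum_card_bipartiteAbove_eq_sum_card_bipartiteBelow
    (s := (Finset.univ \ B : Finset P)) (t := Finset.univ.filter fun l : L => 2 ≤ (on B l).card)
    (fun Z l => Z ∈ l)
  have h2 : ∀ Z : P, (Finset.univ.filter fun l : L => Z ∈ l ∧ 2 ≤ (on B l).card) =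
      Finset.bipartiteAbove (fun (Z : P) (l : L) => Z ∈ l)
        (Finset.univ.filter fun l : L => 2 ≤ (on B l).card) Z := by
    intro Z
    unfold Finset.bipartiteAbove
    ext l
    simp [and_comm]
  rw [Finset.sum_congr rfl fun Z _ => by rw [h2 Z], h1]
  refine Finset.sum_congr rfl fun l _ => ?_
  have h3 : (Finset.bipartiteBelow (fun (Z : P) (l : L) => Z ∈ l) (Finset.univ \ B : Finset P) l).card +
      (on B l).card = ProjectivePlane.order P L + 1 := by
    rw [← card_on (P := P) l]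
    rw [← Finset.card_union_of_disjoint]
    · congr 1
      ext Z
      unfold Finset.bipartiteBelow on
      simp only [Finset.mem_union, Finset.mem_filter, Finset.mem_sdiff, Finset.mem_univ, true_and]
      tauto
    · rw [Finset.disjoint_left]
      intro Z hZ hZ2
      unfold Finset.bipartiteBelow at hZ
      unfold on at hZ2
      rw [Finset.mem_filter, Finset.mem_sdiff] at hZ
      rw [Finset.mem_filter] at hZ2
      exact hZ.1.2 hZ2.1
  omega

end Pool.Agent.H27.PS.Cnt

end S_H27_PS_Cnt27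

section S_H27_PS_CenterB

/-!
# (B0): a non-hole outside a set `E` of at most two points with `2 t ≤ 5 (q - d)` tangents, if `3 d < 2 q`
-/

set_option autoImplicit false
set_option linter.unusedSectionVars false

open Finset
open scoped Classical

namespace Pool.Agent.H27.PS

theorem final_ineq_B {q d : ℤ} (hq : 7 ≤ q) (hd : 1 ≤ d) (h3 : 3 * d + 1 ≤ 2 * q) :
    (q - 1) * ((q + d) * (q + d - 1)) < (q ^ 2 - 1 - d) * (18 * q - 22 * d - 14) := by
  obtain ⟨g, hg⟩ : ∃ g, g = 2 * q - 1 - 3 * d := ⟨_, rfl⟩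
  obtain ⟨a, ha⟩ : ∃ a, a = q - 7 := ⟨_, rfl⟩
  have hg0 : 0 ≤ g := by linarith
  have ha0 : 0 ≤ a := by linarith
  have hga : 0 ≤ 2 * a + 14 - g := by linarith
  have h1 : 9 * ((q ^ 2 - 1 - d) * (18 * q - 22 * d - 14) - (q - 1) * ((q + d) * (q + d - 1))) =
      5 * a ^ 3 + 74 * (a ^ 2 * g) + 75 * a ^ 2 + 1001 * (a * g) + 306 * a + 16 * g ^ 2 +
        3322 * g + 226 + a * g * (2 * a + 14 - g) := by
    rw [hg, ha]; ring
  have h2 : 0 ≤ a * g * (2 * a + 14 - g) := mul_nonneg (mul_nonneg ha0 hg0) hga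
  have h4 : 0 < 5 * a ^ 3 + 74 * (a ^ 2 * g) + 75 * a ^ 2 + 1001 * (a * g) + 306 * a +
      16 * g ^ 2 + 3322 * g + 226 := by positivity
  linarith

variable {P L : Type*} [Fintype P] [Fintype L]

theorem sum_pairs_le (inc : P → L → Prop) {q d : ℕ}
    (hl : ∀ l : L, (univ.filter fun p => inc p l).card = q + 1)
    (hp : ∀ p : P, (univ.filter fun l => inc p l).card = q + 1)
    (h2 : ∀ p p' : P, p ≠ p' → (univ.filter fun l => inc p l ∧ inc p' l).card = 1)
    (B : Finset P) (hB : B.card = q + d) :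
    ∑ Z ∈ univ.filter (fun Z : P => Z ∉ B), ∑ l ∈ univ.filter (fun l => inc Z l),
      ((jj inc B l : ℤ) ^ 2 - jj inc B l) ≤ ((q : ℤ) - 1) * ((q + d) * (q + d - 1)) := by
  have hbz : (B.card : ℤ) = q + d := by rw [hB]; push_cast; rfl
  have h1 : ∀ Z : P, ∑ l ∈ univ.filter (fun l => inc Z l), ((jj inc B l : ℤ) ^ 2 - jj inc B l) =
      ∑ l : L, if inc Z l then ((jj inc B l : ℤ) ^ 2 - jj inc B l) else 0 := fun Z => by
    rw [Finset.sum_filter]
  simp_rw [h1]
  rw [Finset.sum_comm]
  have h3 : ∀ l : L, (∑ Z ∈ univ.filter (fun Z : P => Z ∉ B),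
      if inc Z l then ((jj inc B l : ℤ) ^ 2 - jj inc B l) else 0) ≤
      ((q : ℤ) - 1) * ((jj inc B l : ℤ) ^ 2 - jj inc B l) := by
    intro l
    rw [← Finset.sum_filter, Finset.sum_const, nsmul_eq_mul, Finset.filter_filter]
    have h4 : (univ.filter fun Z : P => Z ∉ B ∧ inc Z l).card + jj inc B l = q + 1 := by
      rw [← hl l]
      have h5 := Finset.card_filter_add_card_filter_not (s := univ.filter fun p => inc p l)
        (fun Z => Z ∉ B)
      rw [Finset.filter_filter, Finset.filter_filter] at h5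
      rw [← h5]
      congr 1
      · congr 1
        ext Z
        simp [and_comm]
      · unfold jj
        congr 1
        ext Z
        simp [and_comm]
    have h6 : ((univ.filter fun Z : P => Z ∉ B ∧ inc Z l).card : ℤ) = q + 1 - jj inc B l := by
      have : (((univ.filter fun Z : P => Z ∉ B ∧ inc Z l).card + jj inc B l : ℕ) : ℤ) =
        ((q + 1 : ℕ) : ℤ) := by rw [h4]
      push_cast at this
      linarith
    rw [h6]
    rcases Nat.lt_or_ge (jj inc B l) 2 with h | h
    · have h7 : ((jj inc B l : ℤ) ^ 2 - jj inc B l) = 0 := by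
        have : jj inc B l = 0 ∨ jj inc B l = 1 := by omega
        rcases this with h | h <;> rw [h] <;> norm_num
      rw [h7, mul_zero, mul_zero]
    · have h8 : (2 : ℤ) ≤ jj inc B l := by exact_mod_cast h
      refine mul_le_mul_of_nonneg_right (by linarith) ?_
      nlinarith
  refine (Finset.sum_le_sum fun l _ => h3 l).trans ?_
  rw [← Finset.mul_sum, Finset.sum_sub_distrib, sum_jj_sq inc hp h2, sum_jj inc hp, hbz]
  have h9 : ((q : ℤ) + d) * (q + (q + d)) - ((q : ℤ) + d) * (q + 1) =
    ((q : ℤ) + d) * (q + d - 1) := by ring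
  rw [h9]

theorem pairs_nonneg (n : ℕ) : 0 ≤ (n : ℤ) ^ 2 - n := by
  rcases Nat.eq_zero_or_pos n with h | h
  · rw [h]; norm_num
  · have : (1 : ℤ) ≤ n := by exact_mod_cast h
    nlinarith

/-- (B0) -/
theorem exists_center_B (inc : P → L → Prop) {q d : ℕ} (hP : Fintype.card P = q ^ 2 + q + 1)
    (hl : ∀ l : L, (univ.filter fun p => inc p l).card = q + 1)
    (hp : ∀ p : P, (univ.filter fun l => inc p l).card = q + 1)
    (h2 : ∀ p p' : P, p ≠ p' → (univ.filter fun l => inc p l ∧ inc p' l).card = 1)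
    (B E : Finset P) (hB : B.card = q + d) (hE : E.card ≤ 2) (hq : 7 ≤ q) (hd : 1 ≤ d)
    (h3d : 3 * d + 1 ≤ 2 * q) :
    ∃ Z, Z ∉ B ∧ Z ∉ E ∧
      2 * (univ.filter fun l => inc Z l ∧ jj inc B l = 1).card ≤ 5 * (q - d) := by
  by_contra hcon
  push Not at hcon
  have hdq : d ≤ q := by omega
  have hbz : (B.card : ℤ) = q + d := by rw [hB]; push_cast; rfl
  -- the estimate at one point
  have hone : ∀ Z, Z ∉ B → Z ∉ E → (18 * (q : ℤ) - 22 * d - 14) ≤
      ∑ l ∈ univ.filter (fun l => inc Z l), ((jj inc B l : ℤ) ^ 2 - jj inc B l) := by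
    intro Z hZ hZE
    have h1 := hcon Z hZ hZE
    have ht : ((univ.filter fun l => inc Z l ∧ jj inc B l = 1).card : ℤ) =
        ∑ l ∈ univ.filter (fun l => inc Z l), if jj inc B l = 1 then 1 else 0 := by
      rw [Finset.sum_boole, Finset.filter_filter]
    have h3 : 12 * (∑ l ∈ univ.filter (fun l => inc Z l), if jj inc B l = 1 then (1 : ℤ) else 0) ≤
        ∑ l ∈ univ.filter (fun l => inc Z l), ((jj inc B l : ℤ) - 4) * ((jj inc B l : ℤ) - 5) := by
      rw [Finset.mul_sum]
      refine Finset.sum_le_sum fun l _ => ?_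
      split_ifs with h
      · rw [h]; norm_num
      · rcases Nat.lt_or_ge (jj inc B l) 5 with h5 | h5
        · have h6 : (jj inc B l : ℤ) ≤ 4 := by
            have : jj inc B l ≤ 4 := by omega
            exact_mod_cast this
          nlinarith
        · have h6 : (5 : ℤ) ≤ jj inc B l := by exact_mod_cast h5
          nlinarith
    have h4 : ∑ l ∈ univ.filter (fun l => inc Z l),
        ((jj inc B l : ℤ) - 4) * ((jj inc B l : ℤ) - 5) =
        20 * (q + 1) - 8 * (q + d) +
          ∑ l ∈ univ.filter (fun l => inc Z l), ((jj inc B l : ℤ) ^ 2 - jj inc B l) := by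
      have h5 : ∀ l : L, ((jj inc B l : ℤ) - 4) * ((jj inc B l : ℤ) - 5) =
          20 - 8 * (jj inc B l : ℤ) + ((jj inc B l : ℤ) ^ 2 - jj inc B l) := fun l => by ring
      simp_rw [h5]
      rw [Finset.sum_add_distrib, Finset.sum_sub_distrib, ← Finset.mul_sum,
        sum_jj_through inc h2 B hZ, hbz, Finset.sum_const, hp Z, nsmul_eq_mul]
      push_cast
      ring
    rw [← ht, h4] at h3
    have h6 : (5 * ((q : ℤ) - d) + 1) ≤
        2 * ((univ.filter fun l => inc Z l ∧ jj inc B l = 1).card : ℤ) := by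
      have h7 : ((5 * (q - d) + 1 : ℕ) : ℤ) ≤
        ((2 * (univ.filter fun l => inc Z l ∧ jj inc B l = 1).card : ℕ) : ℤ) := by
        exact_mod_cast h1
      rw [Nat.cast_add, Nat.cast_mul, Nat.cast_sub hdq] at h7
      push_cast at h7
      exact h7
    linarith
  -- the number of points used
  have hN : (q : ℤ) ^ 2 - 1 - d ≤ ((univ.filter fun Z : P => Z ∉ B ∧ Z ∉ E).card : ℤ) := by
    have h1 : Fintype.card P ≤ (univ.filter fun Z : P => Z ∉ B ∧ Z ∉ E).card + (B.card + E.card) := by
      rw [← Finset.card_univ]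
      refine (Finset.card_le_card (?_ : (univ : Finset P) ⊆
        (univ.filter fun Z : P => Z ∉ B ∧ Z ∉ E) ∪ (B ∪ E))).trans ?_
      · intro Z _
        simp only [Finset.mem_union, Finset.mem_filter, Finset.mem_univ, true_and]
        tauto
      · refine (Finset.card_union_le _ _).trans ?_
        exact Nat.add_le_add_left (Finset.card_union_le _ _) _
    rw [hP, hB] at h1
    have h3 : ((q ^ 2 + q + 1 : ℕ) : ℤ) ≤
      (((univ.filter fun Z : P => Z ∉ B ∧ Z ∉ E).card + (q + d + E.card) : ℕ) : ℤ) := by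
      exact_mod_cast h1
    have h4 : (E.card : ℤ) ≤ 2 := by exact_mod_cast hE
    push_cast at h3
    linarith
  have hc0 : 0 ≤ 18 * (q : ℤ) - 22 * d - 14 := by
    have h5 : (3 : ℤ) * d + 1 ≤ 2 * q := by exact_mod_cast h3d
    have h6 : (7 : ℤ) ≤ q := by exact_mod_cast hq
    linarith
  have hsum := Finset.sum_le_sum (s := univ.filter fun Z : P => Z ∉ B ∧ Z ∉ E)
    (fun Z hZ => hone Z (Finset.mem_filter.1 hZ).2.1 (Finset.mem_filter.1 hZ).2.2)
  rw [Finset.sum_const, nsmul_eq_mul] at hsum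
  have hsub : ∑ Z ∈ univ.filter (fun Z : P => Z ∉ B ∧ Z ∉ E),
      ∑ l ∈ univ.filter (fun l => inc Z l), ((jj inc B l : ℤ) ^ 2 - jj inc B l) ≤
      ∑ Z ∈ univ.filter (fun Z : P => Z ∉ B),
      ∑ l ∈ univ.filter (fun l => inc Z l), ((jj inc B l : ℤ) ^ 2 - jj inc B l) := by
    refine Finset.sum_le_sum_of_subset_of_nonneg ?_ ?_
    · intro Z hZ
      rw [Finset.mem_filter] at hZ ⊢
      exact ⟨hZ.1, hZ.2.1⟩
    · intro Z _ _
      exact Finset.sum_nonneg fun l _ => pairs_nonneg _
  have hswap := sum_pairs_le inc (d := d) hl hp h2 B hB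
  have h10 := final_ineq_B (q := (q : ℤ)) (d := (d : ℤ)) (by exact_mod_cast hq)
    (by exact_mod_cast hd) (by exact_mod_cast h3d)
  have h11 := mul_le_mul_of_nonneg_right hN hc0
  linarith

section pd

open H8.PS

variable [Membership P L] [Configuration.ProjectivePlane P L]

/-- (B0) for `PlaneData` -/
theorem exists_center_B_pd {q d : ℕ} {B : Finset P} (h : PlaneData P L q d B) (E : Finset P)
    (hE : E.card ≤ 2) (hq : 7 ≤ q) (hd : 1 ≤ d) (h3d : 3 * d + 1 ≤ 2 * q) :
    ∃ Z, Z ∉ B ∧ Z ∉ E ∧ 2 * (T L B Z).card ≤ 5 * (q - d) := by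
  have hP : Fintype.card P = q ^ 2 + q + 1 := by
    have := Configuration.ProjectivePlane.card_points P L
    rw [h.order] at this
    exact this
  obtain ⟨Z, hZ, hZE, hc⟩ := exists_center_B (fun (p : P) (l : L) => p ∈ l) hP
    (fun l => by rw [← h.order]; exact Cnt.card_on l)
    (fun p => by rw [← h.order]; exact Cnt.card_through p)
    Cnt.card_two B E h.card hE hq hd h3d
  refine ⟨Z, hZ, hZE, ?_⟩
  rw [Cnt.card_T B hZ]
  exact hc

end pd

end Pool.Agent.H27.PS

end S_H27_PS_CenterB

section S_H27_PS_CenterE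

/-!
# (B0) with up to `2 q + 6` excluded points
-/

set_option autoImplicit false
set_option linter.unusedSectionVars false

open Finset
open scoped Classical

namespace Pool.Agent.H27.PS

variable {P L : Type*} [Fintype P] [Fintype L]

/-- (B0), general form -/
theorem exists_center_gen (inc : P → L → Prop) {q d : ℕ} (hP : Fintype.card P = q ^ 2 + q + 1)
    (hl : ∀ l : L, (univ.filter fun p => inc p l).card = q + 1)
    (hp : ∀ p : P, (univ.filter fun l => inc p l).card = q + 1)
    (h2 : ∀ p p' : P, p ≠ p' → (univ.filter fun l => inc p l ∧ inc p' l).card = 1)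
    (B E : Finset P) (hB : B.card = q + d) {e : ℕ} (hE : E.card ≤ e) (hdq : d ≤ q)
    (hc0 : 0 ≤ 18 * (q : ℤ) - 22 * d - 14)
    (h10 : ((q : ℤ) - 1) * ((q + d) * (q + d - 1)) <
      ((q : ℤ) ^ 2 + 1 - d - e) * (18 * q - 22 * d - 14)) :
    ∃ Z, Z ∉ B ∧ Z ∉ E ∧
      2 * (univ.filter fun l => inc Z l ∧ jj inc B l = 1).card ≤ 5 * (q - d) := by
  by_contra hcon
  push Not at hcon
  have hbz : (B.card : ℤ) = q + d := by rw [hB]; push_cast; rfl
  -- the estimate at one point
  have hone : ∀ Z, Z ∉ B → Z ∉ E → (18 * (q : ℤ) - 22 * d - 14) ≤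
      ∑ l ∈ univ.filter (fun l => inc Z l), ((jj inc B l : ℤ) ^ 2 - jj inc B l) := by
    intro Z hZ hZE
    have h1 := hcon Z hZ hZE
    have ht : ((univ.filter fun l => inc Z l ∧ jj inc B l = 1).card : ℤ) =
        ∑ l ∈ univ.filter (fun l => inc Z l), if jj inc B l = 1 then 1 else 0 := by
      rw [Finset.sum_boole, Finset.filter_filter]
    have h3 : 12 * (∑ l ∈ univ.filter (fun l => inc Z l), if jj inc B l = 1 then (1 : ℤ) else 0) ≤
        ∑ l ∈ univ.filter (fun l => inc Z l), ((jj inc B l : ℤ) - 4) * ((jj inc B l : ℤ) - 5) := by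
      rw [Finset.mul_sum]
      refine Finset.sum_le_sum fun l _ => ?_
      split_ifs with h
      · rw [h]; norm_num
      · rcases Nat.lt_or_ge (jj inc B l) 5 with h5 | h5
        · have h6 : (jj inc B l : ℤ) ≤ 4 := by
            have : jj inc B l ≤ 4 := by omega
            exact_mod_cast this
          nlinarith
        · have h6 : (5 : ℤ) ≤ jj inc B l := by exact_mod_cast h5
          nlinarith
    have h4 : ∑ l ∈ univ.filter (fun l => inc Z l),
        ((jj inc B l : ℤ) - 4) * ((jj inc B l : ℤ) - 5) =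
        20 * (q + 1) - 8 * (q + d) +
          ∑ l ∈ univ.filter (fun l => inc Z l), ((jj inc B l : ℤ) ^ 2 - jj inc B l) := by
      have h5 : ∀ l : L, ((jj inc B l : ℤ) - 4) * ((jj inc B l : ℤ) - 5) =
          20 - 8 * (jj inc B l : ℤ) + ((jj inc B l : ℤ) ^ 2 - jj inc B l) := fun l => by ring
      simp_rw [h5]
      rw [Finset.sum_add_distrib, Finset.sum_sub_distrib, ← Finset.mul_sum,
        sum_jj_through inc h2 B hZ, hbz, Finset.sum_const, hp Z, nsmul_eq_mul]
      push_cast
      ring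
    rw [← ht, h4] at h3
    have h6 : (5 * ((q : ℤ) - d) + 1) ≤
        2 * ((univ.filter fun l => inc Z l ∧ jj inc B l = 1).card : ℤ) := by
      have h7 : ((5 * (q - d) + 1 : ℕ) : ℤ) ≤
        ((2 * (univ.filter fun l => inc Z l ∧ jj inc B l = 1).card : ℕ) : ℤ) := by
        exact_mod_cast h1
      rw [Nat.cast_add, Nat.cast_mul, Nat.cast_sub hdq] at h7
      push_cast at h7
      exact h7
    linarith
  -- the number of points used
  have hN : (q : ℤ) ^ 2 + 1 - d - e ≤ ((univ.filter fun Z : P => Z ∉ B ∧ Z ∉ E).card : ℤ) := by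
    have h1 : Fintype.card P ≤ (univ.filter fun Z : P => Z ∉ B ∧ Z ∉ E).card + (B.card + E.card) := by
      rw [← Finset.card_univ]
      refine (Finset.card_le_card (?_ : (univ : Finset P) ⊆
        (univ.filter fun Z : P => Z ∉ B ∧ Z ∉ E) ∪ (B ∪ E))).trans ?_
      · intro Z _
        simp only [Finset.mem_union, Finset.mem_filter, Finset.mem_univ, true_and]
        tauto
      · refine (Finset.card_union_le _ _).trans ?_
        exact Nat.add_le_add_left (Finset.card_union_le _ _) _
    rw [hP, hB] at h1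
    have h3 : ((q ^ 2 + q + 1 : ℕ) : ℤ) ≤
      (((univ.filter fun Z : P => Z ∉ B ∧ Z ∉ E).card + (q + d + E.card) : ℕ) : ℤ) := by
      exact_mod_cast h1
    have h4 : (E.card : ℤ) ≤ e := by exact_mod_cast hE
    push_cast at h3
    linarith
  have hsum := Finset.sum_le_sum (s := univ.filter fun Z : P => Z ∉ B ∧ Z ∉ E)
    (fun Z hZ => hone Z (Finset.mem_filter.1 hZ).2.1 (Finset.mem_filter.1 hZ).2.2)
  rw [Finset.sum_const, nsmul_eq_mul] at hsum
  have hsub : ∑ Z ∈ univ.filter (fun Z : P => Z ∉ B ∧ Z ∉ E),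
      ∑ l ∈ univ.filter (fun l => inc Z l), ((jj inc B l : ℤ) ^ 2 - jj inc B l) ≤
      ∑ Z ∈ univ.filter (fun Z : P => Z ∉ B),
      ∑ l ∈ univ.filter (fun l => inc Z l), ((jj inc B l : ℤ) ^ 2 - jj inc B l) := by
    refine Finset.sum_le_sum_of_subset_of_nonneg ?_ ?_
    · intro Z hZ
      rw [Finset.mem_filter] at hZ ⊢
      exact ⟨hZ.1, hZ.2.1⟩
    · intro Z _ _
      exact Finset.sum_nonneg fun l _ => pairs_nonneg _
  have hswap := sum_pairs_le inc (d := d) hl hp h2 B hB
  have h11 := mul_le_mul_of_nonneg_right hN hc0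
  linarith

theorem final_ineq_E {q d : ℤ} (hq : 19 ≤ q) (hd : 1 ≤ d) (h3 : 3 * d + 1 ≤ 2 * q) :
    (q - 1) * ((q + d) * (q + d - 1)) <
      (q ^ 2 + 1 - d - (2 * q + 6)) * (18 * q - 22 * d - 14) := by
  obtain ⟨g, hg⟩ : ∃ g, g = 2 * q - 1 - 3 * d := ⟨_, rfl⟩
  obtain ⟨a, ha⟩ : ∃ a, a = q - 19 := ⟨_, rfl⟩
  have hg0 : 0 ≤ g := by linarith
  have ha0 : 0 ≤ a := by linarith
  have hga : 0 ≤ 2 * a + 34 - g := by linarith
  have h1 : 9 * ((q ^ 2 + 1 - d - (2 * q + 6)) * (18 * q - 22 * d - 14) -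
      (q - 1) * ((q + d) * (q + d - 1))) =
      5 * a ^ 3 + 74 * (a ^ 2 * g) + 195 * a ^ 2 + 2673 * (a * g) + 1986 * a + 4 * g ^ 2 +
        23674 * g + 1918 + a * g * (2 * a + 34 - g) := by
    rw [hg, ha]; ring
  have h2 : 0 ≤ a * g * (2 * a + 34 - g) := mul_nonneg (mul_nonneg ha0 hg0) hga
  have h4 : 0 < 5 * a ^ 3 + 74 * (a ^ 2 * g) + 195 * a ^ 2 + 2673 * (a * g) + 1986 * a +
      4 * g ^ 2 + 23674 * g + 1918 := by positivity
  linarith

section pd

open H8.PS

variable [Membership P L] [Configuration.ProjectivePlane P L]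

/-- (B0) for `PlaneData` with up to `2 q + 6` excluded points -/
theorem exists_center_E_pd {q d : ℕ} {B : Finset P} (h : PlaneData P L q d B) (E : Finset P)
    (hE : E.card ≤ 2 * q + 6) (hq : 19 ≤ q) (hd : 1 ≤ d) (h3d : 3 * d + 1 ≤ 2 * q) :
    ∃ Z, Z ∉ B ∧ Z ∉ E ∧ 2 * (T L B Z).card ≤ 5 * (q - d) := by
  have hP : Fintype.card P = q ^ 2 + q + 1 := by
    have := Configuration.ProjectivePlane.card_points P L
    rw [h.order] at this
    exact this
  have h5 : (3 : ℤ) * d + 1 ≤ 2 * q := by exact_mod_cast h3d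
  have h6 : (19 : ℤ) ≤ q := by exact_mod_cast hq
  have h7 : (1 : ℤ) ≤ d := by exact_mod_cast hd
  obtain ⟨Z, hZ, hZE, hc⟩ := exists_center_gen (fun (p : P) (l : L) => p ∈ l) hP
    (fun l => by rw [← h.order]; exact Cnt.card_on l)
    (fun p => by rw [← h.order]; exact Cnt.card_through p)
    Cnt.card_two B E h.card hE (by omega) (by linarith) (by
      push_cast
      exact final_ineq_E h6 h7 h5)
  refine ⟨Z, hZ, hZE, ?_⟩
  rw [Cnt.card_T B hZ]
  exact hc

end pd

end Pool.Agent.H27.PS

end S_H27_PS_CenterE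

section S_H25_PS_Four

/-!
MP_325208 (helper25): four lines (rows card_four, exists_four of Pool/Agent/H97/PS/Long.lean).
-/

set_option autoImplicit false

open Configuration Finset H8.PS
open scoped Classical

namespace Pool.Agent.H25.PS

variable {P L : Type*} [Fintype P] [Fintype L] [Membership P L] [ProjectivePlane P L]

theorem card_inter_le {A : Finset P} {l l' : L} (h : l ≠ l') :
    (A.filter (· ∈ l) ∩ A.filter (· ∈ l')).card ≤ 1 := by
  rw [Finset.card_le_one]
  intro a ha b hb
  simp only [Finset.mem_inter, Finset.mem_filter] at ha hb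
  by_contra hab
  rcases Nondegenerate.eq_or_eq ha.1.2 hb.1.2 ha.2.2 hb.2.2 with h1 | h1
  · exact hab h1
  · exact h h1

/-- four lines with at least `k` points each have at least `4 k - 6` points together -/
theorem card_four {A : Finset P} {k : ℕ} {l₁ l₂ l₃ l₄ : L} (h12 : l₁ ≠ l₂) (h13 : l₁ ≠ l₃) (h14 : l₁ ≠ l₄)
    (h23 : l₂ ≠ l₃) (h24 : l₂ ≠ l₄) (h34 : l₃ ≠ l₄) (h1 : k ≤ (A.filter (· ∈ l₁)).card)
    (h2 : k ≤ (A.filter (· ∈ l₂)).card) (h3 : k ≤ (A.filter (· ∈ l₃)).card) (h4 : k ≤ (A.filter (· ∈ l₄)).card) :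
    4 * k ≤ A.card + 6 := by
  have i12 := card_inter_le (A := A) h12
  have i13 := card_inter_le (A := A) h13
  have i14 := card_inter_le (A := A) h14
  have i23 := card_inter_le (A := A) h23
  have i24 := card_inter_le (A := A) h24
  have i34 := card_inter_le (A := A) h34
  set s₁ := A.filter (· ∈ l₁) with hs1
  set s₂ := A.filter (· ∈ l₂) with hs2
  set s₃ := A.filter (· ∈ l₃) with hs3
  set s₄ := A.filter (· ∈ l₄) with hs4
  have u1 := Finset.card_union_add_card_inter s₁ s₂
  have u2 := Finset.card_union_add_card_inter (s₁ ∪ s₂) s₃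
  have u3 := Finset.card_union_add_card_inter (s₁ ∪ s₂ ∪ s₃) s₄
  have v2 : ((s₁ ∪ s₂) ∩ s₃).card ≤ (s₁ ∩ s₃).card + (s₂ ∩ s₃).card := by
    rw [Finset.union_inter_distrib_right]
    exact Finset.card_union_le _ _
  have v3 : ((s₁ ∪ s₂ ∪ s₃) ∩ s₄).card ≤ (s₁ ∩ s₄).card + (s₂ ∩ s₄).card + (s₃ ∩ s₄).card := by
    rw [Finset.union_inter_distrib_right, Finset.union_inter_distrib_right]
    exact (Finset.card_union_le _ _).trans (Nat.add_le_add_right (Finset.card_union_le _ _) _)
  have w : (s₁ ∪ s₂ ∪ s₃ ∪ s₄).card ≤ A.card := by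
    refine Finset.card_le_card ?_
    intro x hx
    simp only [Finset.mem_union, hs1, hs2, hs3, hs4, Finset.mem_filter] at hx
    tauto
  omega

/-- if at least four points of `S` are each on two different lines of `G`, then `G` has at least four lines -/
theorem exists_four {S : Finset P} (hS : 4 ≤ S.card) {G : L → Prop}
    (h : ∀ a ∈ S, ∃ l l' : L, G l ∧ G l' ∧ l ≠ l' ∧ a ∈ l ∧ a ∈ l') :
    ∃ l₁ l₂ l₃ l₄ : L, G l₁ ∧ G l₂ ∧ G l₃ ∧ G l₄ ∧ l₁ ≠ l₂ ∧ l₁ ≠ l₃ ∧ l₁ ≠ l₄ ∧ l₂ ≠ l₃ ∧ l₂ ≠ l₄ ∧ l₃ ≠ l₄ := by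
  have hcard : 4 ≤ (Finset.univ.filter fun l : L => G l).card := by
    by_contra hlt
    push Not at hlt
    obtain ⟨a₀, -⟩ := Finset.card_pos.1 (by omega : 0 < S.card)
    obtain ⟨e, he⟩ := Finset.card_pos.1 (by omega : 0 < S.card)
    have hLne : Nonempty L := by
      obtain ⟨l, -⟩ := h e he
      exact ⟨l⟩
    choose! f g hf hg hfg haf hag using h
    have h1 : S.card ≤ ((Finset.univ.filter fun l : L => G l).powersetCard 2).card := by
      refine Finset.card_le_card_of_injOn (fun a => {f a, g a}) ?_ ?_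
      · intro a ha
        rw [Finset.mem_coe, Finset.mem_powersetCard]
        refine ⟨?_, Finset.card_pair (hfg a ha)⟩
        intro x hx
        rw [Finset.mem_insert, Finset.mem_singleton] at hx
        rcases hx with rfl | rfl
        · exact Finset.mem_filter.2 ⟨Finset.mem_univ _, hf a ha⟩
        · exact Finset.mem_filter.2 ⟨Finset.mem_univ _, hg a ha⟩
      · intro a ha b hb hab
        have hab' : ({f a, g a} : Finset L) = {f b, g b} := hab
        have m1 : a ∈ f b ∧ a ∈ g b := by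
          have e1 : f b ∈ ({f a, g a} : Finset L) := by rw [hab']; simp
          have e2 : g b ∈ ({f a, g a} : Finset L) := by rw [hab']; simp
          rw [Finset.mem_insert, Finset.mem_singleton] at e1 e2
          constructor
          · rcases e1 with e1 | e1
            · rw [e1]; exact haf a ha
            · rw [e1]; exact hag a ha
          · rcases e2 with e2 | e2
            · rw [e2]; exact haf a ha
            · rw [e2]; exact hag a ha
        by_contra hne
        rcases Nondegenerate.eq_or_eq m1.1 (haf b hb) m1.2 (hag b hb) with h5 | h5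
        · exact hne h5
        · exact hfg b hb h5
    rw [Finset.card_powersetCard] at h1
    have h2 : ((Finset.univ.filter fun l : L => G l).card).choose 2 ≤ Nat.choose 3 2 :=
      Nat.choose_le_choose 2 (by omega)
    have h3 : Nat.choose 3 2 = 3 := by decide
    omega
  obtain ⟨t, ht, htc⟩ := Finset.exists_subset_card_eq hcard
  have hemb := t.equivFinOfCardEq htc
  have hG : ∀ i : Fin 4, G (hemb.symm i : L) := fun i =>
    (Finset.mem_filter.1 (ht (hemb.symm i).2)).2
  have hinj : ∀ i j : Fin 4, i ≠ j → (hemb.symm i : L) ≠ (hemb.symm j : L) := fun i j hij h5 =>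
    hij (hemb.symm.injective (Subtype.ext h5))
  exact ⟨hemb.symm 0, hemb.symm 1, hemb.symm 2, hemb.symm 3, hG 0, hG 1, hG 2, hG 3,
    hinj 0 1 (by decide), hinj 0 2 (by decide), hinj 0 3 (by decide), hinj 1 2 (by decide),
    hinj 1 3 (by decide), hinj 2 3 (by decide)⟩

end Pool.Agent.H25.PS

end S_H25_PS_Four

section S_H97_PS_Tge

/-!
MP_325208 (helper97): step (b) of Lemma A.
-/

set_option autoImplicit false

open Configuration Finset H8.PS
open scoped Classical

namespace Pool.Agent.H97.PS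

variable {P L : Type*} [Fintype P] [Fintype L] [Membership P L] [ProjectivePlane P L]

/-- step (b): many tangents through the points outside `B` of a line with many points -/
theorem T_ge' {B : Finset P} {q d m : ℕ} (h : PlaneData P L q d B) (hdm : d + m = q) {t : L}
    (ht : 2 ≤ (on B t).card) {Z : P} (hZt : Z ∈ t) (hZ : Z ∉ B) : m + (on B t).card ≤ (T L B Z).card := by
  rw [Pool.Agent.H27.PS.Cnt.card_T B hZ]
  have h1 := Pool.Agent.H27.PS.Cnt.sum_through (L := L) B hZ
  have h2 := Pool.Agent.H27.PS.Cnt.card_through (L := L) Z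
  rw [h.card] at h1
  rw [h.order] at h2
  have htm : t ∈ Finset.univ.filter (fun l : L => Z ∈ l) := by simpa using hZt
  rw [← Finset.add_sum_erase _ _ htm] at h1
  have h3 : ((Finset.univ.filter (fun l : L => Z ∈ l)).erase t).card = q := by
    rw [Finset.card_erase_of_mem htm, h2]; rfl
  have h4 : ∑ l ∈ (Finset.univ.filter (fun l : L => Z ∈ l)).erase t, 2 ≤
      ∑ l ∈ (Finset.univ.filter (fun l : L => Z ∈ l)).erase t,
        ((on B l).card + if (on B l).card = 1 then 1 else 0) := by
    refine Finset.sum_le_sum fun l _ => ?_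
    have := h.pos l
    split_ifs <;> omega
  rw [Finset.sum_add_distrib, Finset.sum_const, h3, smul_eq_mul] at h4
  have h5 : ∑ l ∈ (Finset.univ.filter (fun l : L => Z ∈ l)).erase t, (if (on B l).card = 1 then 1 else 0) ≤
      (Finset.univ.filter fun l : L => Z ∈ l ∧ (on B l).card = 1).card := by
    rw [← Finset.card_filter]
    refine Finset.card_le_card fun l hl => ?_
    rw [Finset.mem_filter, Finset.mem_erase, Finset.mem_filter] at hl
    rw [Finset.mem_filter]
    exact ⟨Finset.mem_univ _, hl.1.2.2, hl.2⟩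
  omega

end Pool.Agent.H97.PS

end S_H97_PS_Tge

section S_H97_PS_Pair

/-!
MP_325208 (helper97): steps (a) and (c) of Lemma A.
-/

set_option autoImplicit false

open Configuration Finset H8.PS
open scoped Classical

namespace Pool.Agent.H97.PS

variable {P L : Type*} [Fintype P] [Fintype L] [Membership P L] [ProjectivePlane P L]

omit [Fintype P] [Fintype L] [ProjectivePlane P L] in
theorem mem_T {B : Finset P} {Z X : P} : X ∈ T L B Z ↔ X ∈ B ∧ ∀ l : L, Z ∈ l → X ∈ l → ∀ Y ∈ B, Y ∈ l → Y = X := by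
  unfold T
  exact Finset.mem_filter

omit [Fintype P] [Fintype L] [ProjectivePlane P L] in
theorem T_subset (B : Finset P) (Z : P) : T L B Z ⊆ B := fun _ hx => (mem_T.1 hx).1

/-- step (a) -/
theorem T_off_le' {B : Finset P} {q d : ℕ} (h : PlaneData P L q d B) {t : L} {Z : P} (hZt : Z ∉ t)
    (hZ : Z ∉ B) : ((T L B Z).filter (· ∉ t)).card + (on B t).card ≤ q + 1 := by
  have hex : ∀ X : P, ∃ l : L, Z ∈ l ∧ (X ≠ Z → X ∈ l) := by
    intro X
    by_cases hXZ : X = Z
    · obtain ⟨l, hl⟩ : (Finset.univ.filter fun l : L => Z ∈ l).Nonempty := by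
        rw [← Finset.card_pos, Pool.Agent.H27.PS.Cnt.card_through]; omega
      exact ⟨l, by simpa using hl, fun h => absurd hXZ h⟩
    · obtain ⟨h1, h2⟩ := HasLines.mkLine_ax (L := L) (fun h => hXZ h : X ≠ Z)
      exact ⟨_, h2, fun _ => h1⟩
  choose ln hln1 hln2 using hex
  have hne : ∀ X : P, ln X ≠ t := fun X he => hZt (he ▸ hln1 X)
  let f : P → P := fun X => HasPoints.mkPoint (hne X)
  have hf1 : ∀ X, f X ∈ ln X := fun X => (HasPoints.mkPoint_ax (hne X)).1
  have hf2 : ∀ X, f X ∈ t := fun X => (HasPoints.mkPoint_ax (hne X)).2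
  have hXZ : ∀ X ∈ T L B Z, X ≠ Z := fun X hX he => hZ (he ▸ (mem_T.1 hX).1)
  have hcard : ((T L B Z).filter (· ∉ t)).card ≤ ((Finset.univ.filter fun p : P => p ∈ t) \ on B t).card := by
    refine Finset.card_le_card_of_injOn f ?_ ?_
    · intro X hX
      rw [Finset.mem_coe, Finset.mem_filter] at hX
      rw [Finset.mem_coe, Finset.mem_sdiff, Finset.mem_filter]
      refine ⟨⟨Finset.mem_univ _, hf2 X⟩, fun hB => ?_⟩
      rw [on, Finset.mem_filter] at hB
      have := (mem_T.1 hX.1).2 (ln X) (hln1 X) (hln2 X (hXZ X hX.1)) (f X) hB.1 (hf1 X)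
      exact hX.2 (this ▸ hf2 X)
    · intro X hX Y hY hXY
      rw [Finset.mem_coe, Finset.mem_filter] at hX hY
      have hfZ : f X ≠ Z := fun he => hZt (he ▸ hf2 X)
      have hl : ln X = ln Y := by
        rcases Nondegenerate.eq_or_eq (hf1 X) (hln1 X) (by rw [hXY]; exact hf1 Y) (hln1 Y) with h1 | h1
        · exact absurd h1 hfZ
        · exact h1
      have h2 : Y ∈ ln X := by rw [hl]; exact hln2 Y (hXZ Y hY.1)
      exact ((mem_T.1 hX.1).2 (ln X) (hln1 X) (hln2 X (hXZ X hX.1)) Y (mem_T.1 hY.1).1 h2).symm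
  have hsub : on B t ⊆ Finset.univ.filter fun p : P => p ∈ t := by
    intro p hp
    rw [on, Finset.mem_filter] at hp
    simpa using hp.2
  rw [Finset.card_sdiff_of_subset hsub, Pool.Agent.H27.PS.Cnt.card_on, h.order] at hcard
  have h3 := Finset.card_le_card hsub
  rw [Pool.Agent.H27.PS.Cnt.card_on, h.order] at h3
  omega

/-- step (c), first part: the line through two contact points is long -/
theorem long_of_pair' {B : Finset P} {q d m : ℕ} (h : PlaneData P L q d B) (hdm : d + m = q) {t : L}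
    (ht : q + 2 ≤ (on B t).card + 2 * m) (ht2 : 2 ≤ (on B t).card) {P₁ P₂ a₁ a₂ : P} (h1 : P₁ ∈ t) (h2 : P₂ ∈ t)
    (h1B : P₁ ∉ B) (h2B : P₂ ∉ B) (h12 : P₁ ≠ P₂) (ha1 : a₁ ∈ T L B P₁) (ha2 : a₂ ∈ T L B P₂) (ha : a₁ ≠ a₂) :
    ∃ l : L, a₁ ∈ l ∧ a₂ ∈ l ∧ m + 1 ≤ ((B.filter (· ∉ t)).filter (· ∈ l)).card := by
  -- contact points are not on `t`
  have hoff : ∀ {Q a : P}, Q ∈ t → a ∈ T L B Q → a ∉ t := by
    intro Q a hQ ha hat
    obtain ⟨x, hx, y, hy, hxy⟩ := Finset.one_lt_card.1 (show 1 < (on B t).card by omega)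
    rw [on, Finset.mem_filter] at hx hy
    have e1 := (mem_T.1 ha).2 t hQ hat x hx.1 hx.2
    have e2 := (mem_T.1 ha).2 t hQ hat y hy.1 hy.2
    exact hxy (e1.trans e2.symm)
  have ha1t := hoff h1 ha1
  have ha2t := hoff h2 ha2
  have ha1B := (mem_T.1 ha1).1
  have ha2B := (mem_T.1 ha2).1
  have n1 : P₁ ≠ a₁ := fun he => h1B (he ▸ ha1B)
  have n2 : P₂ ≠ a₂ := fun he => h2B (he ▸ ha2B)
  obtain ⟨l₁, hl1P, hl1a⟩ : ∃ l : L, P₁ ∈ l ∧ a₁ ∈ l := ⟨_, HasLines.mkLine_ax n1⟩
  obtain ⟨l₂, hl2P, hl2a⟩ : ∃ l : L, P₂ ∈ l ∧ a₂ ∈ l := ⟨_, HasLines.mkLine_ax n2⟩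
  have hl1t : l₁ ≠ t := fun he => ha1t (he ▸ hl1a)
  have hl2t : l₂ ≠ t := fun he => ha2t (he ▸ hl2a)
  have hl12 : l₁ ≠ l₂ := by
    rintro rfl
    rcases Nondegenerate.eq_or_eq hl1P hl2P h1 h2 with e | e
    · exact h12 e
    · exact hl1t e
  obtain ⟨Z, hZ1, hZ2⟩ : ∃ Z : P, Z ∈ l₁ ∧ Z ∈ l₂ := ⟨_, HasPoints.mkPoint_ax hl12⟩
  have hZt : Z ∉ t := by
    intro hZ
    have e1 : Z = P₁ := by
      rcases Nondegenerate.eq_or_eq hZ1 hl1P hZ h1 with e | e
      · exact e
      · exact absurd e hl1t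
    have e2 : Z = P₂ := by
      rcases Nondegenerate.eq_or_eq hZ2 hl2P hZ h2 with e | e
      · exact e
      · exact absurd e hl2t
    exact h12 (e1.symm.trans e2)
  have hZB : Z ∉ B := by
    intro hZ
    have e1 := (mem_T.1 ha1).2 l₁ hl1P hl1a Z hZ hZ1
    have e2 := (mem_T.1 ha2).2 l₂ hl2P hl2a Z hZ hZ2
    exact ha (e1.symm.trans e2)
  have key : ∀ {Q a : P} {l' : L}, a ∈ T L B Q → Q ∈ l' → a ∈ l' → Z ∈ l' → a ∈ T L B Z := by
    intro Q a l' ha' hQ hal hZl
    have haB := (mem_T.1 ha').1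
    refine mem_T.2 ⟨haB, fun k hk hak Y hY hYk => ?_⟩
    have hkl : k = l' := by
      rcases Nondegenerate.eq_or_eq hk hak hZl hal with e | e
      · exact absurd (e ▸ haB) hZB
      · exact e
    exact (mem_T.1 ha').2 l' hQ hal Y hY (hkl ▸ hYk)
  have c1 : a₁ ∈ (T L B Z).filter fun X => X ∉ t := Finset.mem_filter.2 ⟨key ha1 hl1P hl1a hZ1, ha1t⟩
  have c2 : a₂ ∈ (T L B Z).filter fun X => X ∉ t := Finset.mem_filter.2 ⟨key ha2 hl2P hl2a hZ2, ha2t⟩
  have hle := T_off_le' h hZt hZB
  have hqd : q - d = m := by omega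
  have hge := h.cb1 Z hZB t ⟨a₁, c1⟩
  obtain ⟨l, hl⟩ := h.cb3 Z hZB t (by rw [hqd]; omega)
  refine ⟨l, hl a₁ (Finset.mem_filter.1 c1).1 ha1t, hl a₂ (Finset.mem_filter.1 c2).1 ha2t, ?_⟩
  rw [hqd] at hge
  refine hge.trans (Finset.card_le_card fun X hX => ?_)
  rw [Finset.mem_filter] at hX
  rw [Finset.mem_filter, Finset.mem_filter]
  exact ⟨⟨T_subset B Z hX.1, hX.2⟩, hl X hX.1 hX.2⟩

end Pool.Agent.H97.PS

end S_H97_PS_Pair

section S_H97_PS_NoLong

/-!
MP_325208 (helper97): Lemma A and Lemma B.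
-/

set_option autoImplicit false

open Configuration Finset H8.PS
open scoped Classical

namespace Pool.Agent.H97.PS

variable {P L : Type*} [Fintype P] [Fintype L] [Membership P L] [ProjectivePlane P L]

/-- **Lemma A.** -/
theorem no_long' {B : Finset P} {q d m : ℕ} (h : PlaneData P L q d B) (hdm : d + m = q) (hd : 2 ≤ d)
    (hm : 2 * m ≤ q) (hq : q < 3 * m) (t : L) : (on B t).card + 2 * m ≤ q + 1 := by
  by_contra hcon
  have ht : q + 2 ≤ (on B t).card + 2 * m := by omega
  have ht2 : 2 ≤ (on B t).card := by omega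
  have hd' := h.le t
  -- two points of `t` outside `B`
  have hsplit : (Finset.univ.filter fun p : P => p ∈ t).card =
      (on B t).card + ((Finset.univ.filter fun p : P => p ∈ t) \ on B t).card := by
    have hsub : on B t ⊆ Finset.univ.filter fun p : P => p ∈ t := by
      intro p hp
      rw [on, Finset.mem_filter] at hp
      simpa using hp.2
    rw [Finset.card_sdiff_of_subset hsub]
    have := Finset.card_le_card hsub
    omega
  rw [Pool.Agent.H27.PS.Cnt.card_on, h.order] at hsplit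
  have h1lt : 1 < ((Finset.univ.filter fun p : P => p ∈ t) \ on B t).card := by omega
  obtain ⟨P₁, hP₁, P₂, hP₂, h12⟩ := Finset.one_lt_card.1 h1lt
  have hmem : ∀ p : P, p ∈ (Finset.univ.filter fun p : P => p ∈ t) \ on B t → p ∈ t ∧ p ∉ B := by
    intro p hp
    rw [Finset.mem_sdiff, Finset.mem_filter, on, Finset.mem_filter] at hp
    exact ⟨hp.1.2, fun hB => hp.2 ⟨hB, hp.1.2⟩⟩
  obtain ⟨h1, h1B⟩ := hmem P₁ hP₁
  obtain ⟨h2, h2B⟩ := hmem P₂ hP₂
  have hT1 := T_ge' h hdm ht2 h1 h1B
  have hT2 := T_ge' h hdm ht2 h2 h2B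
  set A := B.filter (· ∉ t) with hA
  have hAcard : (on B t).card + A.card = B.card := by
    rw [on, hA]
    exact Finset.card_filter_add_card_filter_not _
  have hfour := Pool.Agent.H25.PS.exists_four (S := T L B P₁) (G := fun l : L => m + 1 ≤ (A.filter (· ∈ l)).card) (by omega) (by
    intro a₁ ha1
    have hS2 : d + 1 ≤ ((T L B P₂).erase a₁).card := by
      have := Finset.pred_card_le_card_erase (s := T L B P₂) (a := a₁)
      omega
    obtain ⟨a₂, ha2⟩ := Finset.card_pos.1 (lt_of_lt_of_le (Nat.succ_pos d) hS2)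
    rw [Finset.mem_erase] at ha2
    obtain ⟨l, hl1, hl2, hl3⟩ := long_of_pair' h hdm ht ht2 h1 h2 h1B h2B h12 ha1 ha2.2 (Ne.symm ha2.1)
    have hex : ∃ a₃ ∈ (T L B P₂).erase a₁, a₃ ∉ l := by
      by_contra hall
      push Not at hall
      have hsub : insert a₁ ((T L B P₂).erase a₁) ⊆ on B l := by
        intro x hx
        rw [Finset.mem_insert] at hx
        rw [on, Finset.mem_filter]
        rcases hx with rfl | hx
        · exact ⟨T_subset B P₁ ha1, hl1⟩
        · exact ⟨T_subset B P₂ (Finset.mem_of_mem_erase hx), hall x hx⟩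
      have h3 := Finset.card_le_card hsub
      rw [Finset.card_insert_of_notMem (Finset.notMem_erase _ _)] at h3
      have h4 := h.le l
      omega
    obtain ⟨a₃, ha3, ha3l⟩ := hex
    rw [Finset.mem_erase] at ha3
    obtain ⟨l', hl1', hl2', hl3'⟩ := long_of_pair' h hdm ht ht2 h1 h2 h1B h2B h12 ha1 ha3.2 (Ne.symm ha3.1)
    exact ⟨l, l', hl3, hl3', fun he => ha3l (he ▸ hl2'), hl1, hl1'⟩)
  obtain ⟨l₁, l₂, l₃, l₄, g1, g2, g3, g4, n12, n13, n14, n23, n24, n34⟩ := hfour
  have h4 := Pool.Agent.H25.PS.card_four n12 n13 n14 n23 n24 n34 g1 g2 g3 g4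
  have h5 := h.card
  omega

/-- **Lemma B.** -/
theorem T_ge_two' {B : Finset P} {q d m : ℕ} (h : PlaneData P L q d B) (hdm : d + m = q) (hd : 2 ≤ d)
    (hm : 2 * m ≤ q) (hq : q < 3 * m) {Z : P} (hZ : Z ∉ B) : 2 * m + 2 ≤ (T L B Z).card := by
  by_contra hcon
  obtain ⟨l, hl⟩ := h.cb0 Z hZ (by omega)
  have h1 : T L B Z ⊆ on B l := by
    intro x hx
    rw [on, Finset.mem_filter]
    exact ⟨T_subset B Z hx, hl x hx⟩
  have h2 := Finset.card_le_card h1
  have h3 := h.cb0' Z hZ
  have h4 := no_long' h hdm hd hm hq l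
  omega

end Pool.Agent.H97.PS

end S_H97_PS_NoLong
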