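import Mathlib
import Pool.Agent.H16.PM.A

/-!
# MP_325208: maximal partial spreads, part C

This file joins several modules (of helpers 8, 16, 25, 27, 33, 84, 97) to save build time: quadratic forms vanishing on few points: the conic lemma, uniqueness, tangents.
-/

section S_H33_PS_Uni

/-!
MP_325208 (helper33): uniqueness of the conic through five points and of the nucleus.
-/

set_option autoImplicit false

open Module

namespace Pool.Agent.H33.PS

variable {F : Type*} [Field F] {V : Type*} [AddCommGroup V] [Module F V]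

/-- no three collinear points of `K` are zeros of `Q` -/
def Arc (Q : QuadraticForm F V) (K : Submodule F V) : Prop :=
  ∀ a b c : V, a ∈ K → b ∈ K → c ∈ K → a ≠ 0 → b ≠ 0 → c ≠ 0 → Q a = 0 → Q b = 0 → Q c = 0 →
    c ∈ Submodule.span F {a, b} → c ∈ Submodule.span F {a} ∨ c ∈ Submodule.span F {b} ∨ b ∈ Submodule.span F {a}

theorem q_add (Q : QuadraticForm F V) (u v : V) : Q (u + v) = Q u + Q v + QuadraticMap.polar Q u v := by
  unfold QuadraticMap.polar; ring

theorem expand (Q : QuadraticForm F V) (a b : F) (u v : V) :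
    Q (a • u + b • v) = a ^ 2 * Q u + a * b * QuadraticMap.polar Q u v + b ^ 2 * Q v := by
  rw [q_add, QuadraticMap.map_smul, QuadraticMap.map_smul, QuadraticMap.polar_smul_left, QuadraticMap.polar_smul_right]
  simp only [smul_eq_mul]
  ring

/-- **Factorisation.** A form which vanishes on a line of the plane `K` is a product of two linear forms on `K`, the first one
being any equation of the line. -/
theorem factor (Q : QuadraticForm F V) {K : Submodule F V} {u v : V} (hu : Q u = 0) (hv : Q v = 0)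
    (huv : QuadraticMap.polar Q u v = 0)
    {ℓ : Dual F V} (hℓ : ∀ w ∈ K, ℓ w = 0 → w ∈ Submodule.span F {u, v}) :
    ∃ ℓ' : Dual F V, ∀ w ∈ K, Q w = ℓ w * ℓ' w := by
  have h0 : ∀ w ∈ Submodule.span F {u, v}, Q w = 0 := by
    intro w hw
    obtain ⟨a, b, rfl⟩ := Submodule.mem_span_pair.1 hw
    rw [expand, hu, hv, huv]
    ring
  by_cases hz : ∀ w ∈ K, ℓ w = 0
  · refine ⟨0, fun w hw => ?_⟩
    rw [h0 w (hℓ w hw (hz w hw))]
    simp
  · push Not at hz
    obtain ⟨e, heK, he⟩ := hz
    set e' := (ℓ e)⁻¹ • e with he'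
    have he1 : ℓ e' = 1 := by
      rw [he', map_smul, smul_eq_mul, inv_mul_cancel₀ he]
    have heK' : e' ∈ K := K.smul_mem _ heK
    refine ⟨QuadraticMap.polarBilin Q e' - Q e' • ℓ, fun w hw => ?_⟩
    have h1 : ℓ (w - ℓ w • e') = 0 := by
      rw [map_sub, map_smul, he1, smul_eq_mul, mul_one, sub_self]
    have h2 := h0 _ (hℓ _ (K.sub_mem hw (K.smul_mem _ heK')) h1)
    have h3 : w - ℓ w • e' = (1 : F) • w + (-ℓ w) • e' := by
      rw [one_smul, neg_smul, sub_eq_add_neg]
    rw [h3, expand] at h2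
    rw [LinearMap.sub_apply, QuadraticMap.polarBilin_apply_apply, LinearMap.smul_apply, smul_eq_mul,
      QuadraticMap.polar_comm]
    linear_combination h2

theorem finrank_pair {a b : V} (ha : a ≠ 0) (hb : b ∉ Submodule.span F {a}) :
    finrank F (Submodule.span F {a, b}) = 2 := by
  have h1 : LinearIndependent F ![a, b] := by
    rw [LinearIndependent.pair_iff' ha]
    intro c hc
    exact hb (Submodule.mem_span_singleton.2 ⟨c, hc⟩)
  have h2 := finrank_span_eq_card h1
  have h3 : Set.range ![a, b] = {a, b} := by simp [Matrix.range_cons, Set.pair_comm]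
  rw [h3] at h2
  simpa using h2

theorem cut {P Q : Submodule F V} (hPQ : P ≤ Q) (h : finrank F P + 1 = finrank F Q) :
    ∃ f : Dual F V, ∀ x ∈ Q, f x = 0 → x ∈ P := by
  have : FiniteDimensional F Q := FiniteDimensional.of_finrank_pos (by omega)
  have hlt : P < Q := by
    refine lt_of_le_of_ne hPQ ?_
    rintro rfl
    omega
  obtain ⟨e, he, heP⟩ := SetLike.exists_of_lt hlt
  obtain ⟨g, hg, hgP⟩ := Submodule.exists_le_ker_of_notMem heP
  have h1 : P = Q ⊓ LinearMap.ker g := by
    have : FiniteDimensional F (Q ⊓ LinearMap.ker g : Submodule F V) :=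
      Submodule.finiteDimensional_of_le (inf_le_left : Q ⊓ LinearMap.ker g ≤ Q)
    refine Submodule.eq_of_le_of_finrank_le (le_inf hPQ hgP) ?_
    have h2 : Q ⊓ LinearMap.ker g < Q := by
      refine lt_of_le_of_ne inf_le_left ?_
      intro heq
      rw [← heq] at he
      exact hg he.2
    have := Submodule.finrank_lt_finrank_of_lt h2
    omega
  refine ⟨g, fun x hx hx0 => ?_⟩
  rw [h1]
  exact ⟨hx, hx0⟩

/-- three points of an arc span the plane -/
theorem span_three {K : Submodule F V} (hK : finrank F K = 3) {a b c : V} (ha : a ∈ K) (hb : b ∈ K) (hc : c ∈ K)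
    (ha0 : a ≠ 0) (hba : b ∉ Submodule.span F {a}) (hcab : c ∉ Submodule.span F {a, b}) {ℓ : Dual F V}
    (h1 : ℓ a = 0) (h2 : ℓ b = 0) (h3 : ℓ c = 0) : ∀ w ∈ K, ℓ w = 0 := by
  have : FiniteDimensional F K := FiniteDimensional.of_finrank_pos (by omega)
  have hN : finrank F (Submodule.span F {a, b}) = 2 := finrank_pair ha0 hba
  have hle : Submodule.span F {a, b} ≤ K ⊓ LinearMap.ker ℓ := by
    rw [Submodule.span_le]
    intro x hx
    simp only [Set.mem_insert_iff, Set.mem_singleton_iff] at hx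
    rcases hx with rfl | rfl
    · exact ⟨ha, h1⟩
    · exact ⟨hb, h2⟩
  have : FiniteDimensional F (K ⊓ LinearMap.ker ℓ : Submodule F V) :=
    Submodule.finiteDimensional_of_le (inf_le_left : K ⊓ LinearMap.ker ℓ ≤ K)
  have hlt : Submodule.span F {a, b} < K ⊓ LinearMap.ker ℓ := by
    refine lt_of_le_of_ne hle ?_
    intro heq
    apply hcab
    rw [heq]
    exact ⟨hc, h3⟩
  have h4 := Submodule.finrank_lt_finrank_of_lt hlt
  have h5 : K ⊓ LinearMap.ker ℓ = K := by
    refine Submodule.eq_of_le_of_finrank_le inf_le_left ?_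
    omega
  intro w hw
  rw [← h5] at hw
  exact hw.2

/-- **The conic through five points of an arc is unique.** -/
theorem unique {K : Submodule F V} (hK : finrank F K = 3) (Q₁ Q₂ : QuadraticForm F V) (h1 : Arc Q₁ K)
    (h2 : Arc Q₂ K) (p : Fin 5 → V) (hpK : ∀ i, p i ∈ K) (hp0 : ∀ i, p i ≠ 0)
    (hp : ∀ i j, i ≠ j → p j ∉ Submodule.span F {p i}) (hz1 : ∀ i, Q₁ (p i) = 0) (hz2 : ∀ i, Q₂ (p i) = 0) :
    ∃ c₁ c₂ : F, c₁ ≠ 0 ∧ c₂ ≠ 0 ∧ ∀ v ∈ K, c₁ * Q₁ v = c₂ * Q₂ v := by
  set x := p 0 + p 1 with hx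
  have hxK : x ∈ K := K.add_mem (hpK 0) (hpK 1)
  have h01 : p 1 ∉ Submodule.span F {p 0} := hp 0 1 (by decide)
  have h10 : p 0 ∉ Submodule.span F {p 1} := hp 1 0 (by decide)
  have hxm : x ∈ Submodule.span F {p 0, p 1} :=
    Submodule.add_mem _ (Submodule.subset_span (by simp)) (Submodule.subset_span (by simp))
  have hx0 : x ≠ 0 := by
    intro h
    apply h01
    have : p 1 = (-1 : F) • p 0 := by
      rw [neg_one_smul]
      exact (neg_eq_of_add_eq_zero_right h).symm
    rw [this]
    exact Submodule.smul_mem _ _ (Submodule.mem_span_singleton_self _)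
  have hne : ∀ Q : QuadraticForm F V, Arc Q K → (∀ i, Q (p i) = 0) → Q x ≠ 0 := by
    intro Q hQ hz h
    rcases hQ (p 0) (p 1) x (hpK 0) (hpK 1) hxK (hp0 0) (hp0 1) hx0 (hz 0) (hz 1) h hxm with h3 | h3 | h3
    · apply h01
      have : p 1 = x - p 0 := by rw [hx]; abel
      rw [this]
      exact Submodule.sub_mem _ h3 (Submodule.mem_span_singleton_self _)
    · apply h10
      have : p 0 = x - p 1 := by rw [hx]; abel
      rw [this]
      exact Submodule.sub_mem _ h3 (Submodule.mem_span_singleton_self _)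
    · exact h01 h3
  have hn1 := hne Q₁ h1 hz1
  have hn2 := hne Q₂ h2 hz2
  refine ⟨Q₂ x, Q₁ x, hn2, hn1, ?_⟩
  set Q : QuadraticForm F V := Q₂ x • Q₁ - Q₁ x • Q₂ with hQdef
  have hQ : ∀ v, Q v = Q₂ x * Q₁ v - Q₁ x * Q₂ v := by
    intro v
    rw [hQdef]
    simp
  have hQp : ∀ i, Q (p i) = 0 := by
    intro i
    rw [hQ, hz1, hz2]
    ring
  have hQx : Q x = 0 := by
    rw [hQ]
    ring
  have hpol : QuadraticMap.polar Q (p 0) (p 1) = 0 := by
    have := q_add Q (p 0) (p 1)
    rw [← hx, hQx, hQp, hQp] at this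
    simpa using this.symm
  have hle : Submodule.span F {p 0, p 1} ≤ K := by
    rw [Submodule.span_le]
    intro y hy
    simp only [Set.mem_insert_iff, Set.mem_singleton_iff] at hy
    rcases hy with rfl | rfl
    · exact hpK 0
    · exact hpK 1
  obtain ⟨ℓ, hℓ⟩ := cut hle (by rw [finrank_pair (hp0 0) h01, hK])
  obtain ⟨ℓ', hℓ'⟩ := factor Q (hQp 0) (hQp 1) hpol hℓ
  -- no point is on a line through two others
  have hcol : ∀ i j k : Fin 5, i ≠ j → i ≠ k → j ≠ k → p k ∉ Submodule.span F {p i, p j} := by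
    intro i j k hij hik hjk h
    rcases h1 (p i) (p j) (p k) (hpK i) (hpK j) (hpK k) (hp0 i) (hp0 j) (hp0 k) (hz1 i) (hz1 j) (hz1 k) h with h3 | h3 | h3
    · exact hp i k hik h3
    · exact hp j k hjk h3
    · exact hp i j hij h3
  have hz : ∀ k : Fin 5, k ≠ 0 → k ≠ 1 → ℓ' (p k) = 0 := by
    intro k hk0 hk1
    have h3 := hℓ' (p k) (hpK k)
    rw [hQp] at h3
    rcases mul_eq_zero.1 h3.symm with h4 | h4
    · exact absurd (hℓ _ (hpK k) h4) (hcol 0 1 k (by decide) (Ne.symm hk0) (Ne.symm hk1))
    · exact h4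
  have hzero := span_three hK (hpK 2) (hpK 3) (hpK 4) (hp0 2) (hp 2 3 (by decide))
    (hcol 2 3 4 (by decide) (by decide) (by decide)) (hz 2 (by decide) (by decide)) (hz 3 (by decide) (by decide))
    (hz 4 (by decide) (by decide))
  intro v hv
  have h3 := hℓ' v hv
  rw [hzero v hv, mul_zero, hQ] at h3
  linear_combination h3

/-- **The nucleus is unique.** -/
theorem nucleus [Fintype F] {K : Submodule F V} (hK : finrank F K = 3) (Q : QuadraticForm F V) (hQ : Arc Q K) {Z Z' : V}
    (hZ : Z ∈ K) (hZ' : Z' ∈ K) (h0 : Q Z ≠ 0) (h0' : Q Z' ≠ 0) (hp : ∀ x ∈ K, QuadraticMap.polar Q Z x = 0)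
    (hp' : ∀ x ∈ K, QuadraticMap.polar Q Z' x = 0) : Z' ∈ Submodule.span F {Z} := by
  by_contra hcon
  -- the characteristic is two
  have h2 : (2 : F) = 0 := by
    have h3 := hp Z hZ
    rw [QuadraticMap.polar_self] at h3
    have h4 : (2 : F) * Q Z = 0 := by
      rw [← h3]
      simp [two_mul, two_nsmul]
    exact (mul_eq_zero.1 h4).resolve_right h0
  have hsq : ∀ a : F, ∃ b : F, b ^ 2 = a := by
    have hr : ringChar F = 2 := by
      have h3 : ringChar F ∣ 2 := ringChar.dvd (by exact_mod_cast h2)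
      rcases (Nat.dvd_prime Nat.prime_two).1 h3 with h4 | h4
      · exact absurd h4 CharP.ringChar_ne_one
      · exact h4
    intro a
    obtain ⟨b, hb⟩ := FiniteField.isSquare_of_char_two hr a
    exact ⟨b, by rw [hb, sq]⟩
  have hZ0 : Z ≠ 0 := by
    rintro rfl
    exact h0 (by simp)
  have hN : finrank F (Submodule.span F {Z, Z'}) = 2 := finrank_pair hZ0 hcon
  have hle : Submodule.span F {Z, Z'} ≤ K := by
    rw [Submodule.span_le]
    intro x hx
    simp only [Set.mem_insert_iff, Set.mem_singleton_iff] at hx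
    rcases hx with rfl | rfl
    · exact hZ
    · exact hZ'
  have hlt : Submodule.span F {Z, Z'} < K := by
    refine lt_of_le_of_ne hle ?_
    intro heq
    rw [heq] at hN
    omega
  obtain ⟨e, heK, heN⟩ := SetLike.exists_of_lt hlt
  obtain ⟨α, hα⟩ := hsq (Q Z)
  obtain ⟨β, hβ⟩ := hsq (Q Z')
  obtain ⟨γ, hγ⟩ := hsq (Q e)
  have hα0 : α ≠ 0 := by
    rintro rfl
    apply h0
    rw [← hα]
    ring
  have hβ0 : β ≠ 0 := by
    rintro rfl
    apply h0'
    rw [← hβ]
    ring
  set u := β • Z + α • Z' with hu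
  set v := γ • Z + α • e with hv
  have huN : u ∈ Submodule.span F {Z, Z'} :=
    Submodule.add_mem _ (Submodule.smul_mem _ _ (Submodule.subset_span (by simp)))
      (Submodule.smul_mem _ _ (Submodule.subset_span (by simp)))
  have huK : u ∈ K := hle huN
  have hvK : v ∈ K := K.add_mem (K.smul_mem _ hZ) (K.smul_mem _ heK)
  have hQu : Q u = 0 := by
    rw [hu, expand, hp Z' hZ', ← hα, ← hβ]
    linear_combination (β ^ 2 * α ^ 2) * h2
  have hQv : Q v = 0 := by
    rw [hv, expand, hp e heK, ← hα, ← hγ]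
    linear_combination (γ ^ 2 * α ^ 2) * h2
  have hu0 : u ≠ 0 := by
    intro h
    apply hcon
    have h3 : Z' = (-(α⁻¹ * β)) • Z := by
      have h4 : α⁻¹ • (β • Z + α • Z') = 0 := by
        rw [← hu, h, smul_zero]
      rw [smul_add, smul_smul, smul_smul, inv_mul_cancel₀ hα0, one_smul] at h4
      rw [neg_smul]
      exact (neg_eq_of_add_eq_zero_right h4).symm
    rw [h3]
    exact Submodule.smul_mem _ _ (Submodule.mem_span_singleton_self _)
  have hvN : v ∉ Submodule.span F {Z, Z'} := by
    intro h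
    apply heN
    have h3 : e = α⁻¹ • (v - γ • Z) := by
      rw [hv, add_sub_cancel_left, smul_smul, inv_mul_cancel₀ hα0, one_smul]
    rw [h3]
    exact Submodule.smul_mem _ _ (Submodule.sub_mem _ h (Submodule.smul_mem _ _ (Submodule.subset_span (by simp))))
  have hv0 : v ≠ 0 := by
    intro h
    apply hvN
    rw [h]
    exact Submodule.zero_mem _
  have hpe : QuadraticMap.polar Q e e = 0 := by
    rw [QuadraticMap.polar_self]
    have : (2 : F) * Q e = 0 := by rw [h2, zero_mul]
    rw [← this]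
    simp [two_mul, two_nsmul]
  have hpuv : QuadraticMap.polar Q u v = 0 := by
    rw [hu, QuadraticMap.polar_add_left, QuadraticMap.polar_smul_left, QuadraticMap.polar_smul_left, hp v hvK,
      hp' v hvK]
    simp
  have hQw : Q (u + v) = 0 := by
    rw [q_add, hQu, hQv, hpuv]
    ring
  have hvu : v ∉ Submodule.span F {u} := by
    intro h
    apply hvN
    exact (Submodule.span_singleton_le_iff_mem u _).2 huN h
  have huv0 : u + v ≠ 0 := by
    intro h
    apply hvu
    have : v = (-1 : F) • u := by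
      rw [neg_one_smul]
      exact (neg_eq_of_add_eq_zero_right h).symm
    rw [this]
    exact Submodule.smul_mem _ _ (Submodule.mem_span_singleton_self _)
  have huvm : u + v ∈ Submodule.span F {u, v} :=
    Submodule.add_mem _ (Submodule.subset_span (by simp)) (Submodule.subset_span (by simp))
  rcases hQ u v (u + v) huK hvK (K.add_mem huK hvK) hu0 hv0 huv0 hQu hQv hQw huvm with h3 | h3 | h3
  · apply hvu
    have : v = (u + v) - u := by abel
    rw [this]
    exact Submodule.sub_mem _ h3 (Submodule.mem_span_singleton_self _)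
  · have h4 : u ∈ Submodule.span F {v} := by
      have : u = (u + v) - v := by abel
      rw [this]
      exact Submodule.sub_mem _ h3 (Submodule.mem_span_singleton_self _)
    obtain ⟨c, hc⟩ := Submodule.mem_span_singleton.1 h4
    have hc0 : c ≠ 0 := by
      rintro rfl
      apply hu0
      rw [← hc, zero_smul]
    apply hvu
    rw [Submodule.mem_span_singleton]
    exact ⟨c⁻¹, by rw [← hc, smul_smul, inv_mul_cancel₀ hc0, one_smul]⟩
  · exact hvu h3

end Pool.Agent.H33.PS

end S_H33_PS_Uni

section S_H84_PS_Pts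

/-!
MP_325208 (helper84): counting rays in cones, the Cayley-Bacharach lemma in terms of rays, and filtering by quadratic functions.
-/

set_option autoImplicit false
set_option linter.unusedSectionVars false

open Module Finset
open scoped Classical

namespace H84.PS

open H8.PS

variable {F : Type*} [Field F] [Fintype F] {V : Type*} [AddCommGroup V] [Module F V] [Fintype V]

variable (F) in
/-- cones without zero -/
def IsCone (T : Finset V) : Prop := (∀ v ∈ T, v ≠ 0) ∧ ∀ v ∈ T, ∀ c : F, c ≠ 0 → c • v ∈ T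

variable (F) in
/-- the number of rays of a cone -/
noncomputable def pts (T : Finset V) : ℕ := T.card / (Fintype.card F - 1)

omit [Fintype V] in
theorem q1 : 1 ≤ Fintype.card F - 1 := by have : 1 < Fintype.card F := Fintype.one_lt_card; omega

theorem card_eq {T : Finset V} (hT : IsCone F T) : T.card = pts F T * (Fintype.card F - 1) := by
  have key : ∀ n : ℕ, ∀ T : Finset V, IsCone F T → T.card = n → (Fintype.card F - 1) ∣ T.card := by
    intro n
    induction n using Nat.strong_induction_on with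
    | _ n ih =>
      intro T hT hn
      by_cases he : T = ∅
      · subst he; simp
      · obtain ⟨v, hv⟩ := Finset.nonempty_iff_ne_empty.2 he
        have hs : ray F v ⊆ T := ray_subset hT.2 hv
        have hc := card_ray (F := F) (hT.1 v hv)
        have hcs : (T \ ray F v).card + (ray F v).card = T.card := Finset.card_sdiff_add_card_eq_card hs
        have h1 := q1 (F := F)
        have hcone : IsCone F (T \ ray F v) := by
          refine ⟨fun x hx => hT.1 x (Finset.mem_sdiff.1 hx).1, fun x hx c hc0 => ?_⟩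
          rw [Finset.mem_sdiff] at hx ⊢
          refine ⟨hT.2 x hx.1 c hc0, fun h => hx.2 ?_⟩
          obtain ⟨e, he0, hev⟩ := mem_ray.1 h
          exact mem_ray.2 ⟨c⁻¹ * e, mul_ne_zero (inv_ne_zero hc0) he0, by
            rw [mul_smul, hev, smul_smul, inv_mul_cancel₀ hc0, one_smul]⟩
        have h2 := ih (T \ ray F v).card (by omega) _ hcone rfl
        rw [← hcs]
        exact Nat.dvd_add h2 (by rw [hc])
  have h := key _ T hT rfl
  rw [pts, Nat.div_mul_cancel h]

theorem pts_mono {T T' : Finset V} (h : T ⊆ T') : pts F T ≤ pts F T' :=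
  Nat.div_le_div_right (Finset.card_le_card h)

theorem pts_le_of_card {T : Finset V} (hT : IsCone F T) {n : ℕ} (h : T.card ≤ n * (Fintype.card F - 1)) : pts F T ≤ n := by
  rw [card_eq hT] at h
  exact Nat.le_of_mul_le_mul_right h (lt_of_lt_of_le one_pos q1)

theorem le_pts_of_card {T : Finset V} (hT : IsCone F T) {n : ℕ} (h : n * (Fintype.card F - 1) ≤ T.card) : n ≤ pts F T := by
  rw [card_eq hT] at h
  exact Nat.le_of_mul_le_mul_right h (lt_of_lt_of_le one_pos q1)

theorem pts_union {T T' U : Finset V} (hT : IsCone F T) (hT' : IsCone F T') (hU : IsCone F U) (hd : Disjoint T T')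
    (h1 : T ⊆ U) (h2 : T' ⊆ U) : pts F T + pts F T' ≤ pts F U := by
  apply le_pts_of_card hU
  rw [add_mul, ← card_eq hT, ← card_eq hT', ← Finset.card_union_of_disjoint hd]
  exact Finset.card_le_card (Finset.union_subset h1 h2)

theorem pts_le_union {T T' U : Finset V} (hT : IsCone F T) (hT' : IsCone F T') (hU : IsCone F U)
    (h : U ⊆ T ∪ T') : pts F U ≤ pts F T + pts F T' := by
  apply pts_le_of_card hU
  rw [add_mul, ← card_eq hT, ← card_eq hT']
  exact (Finset.card_le_card h).trans (Finset.card_union_le _ _)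

theorem cone_filter {T : Finset V} (hT : IsCone F T) (p : V → Prop) (hp : ∀ v, ∀ c : F, c ≠ 0 → p v → p (c • v)) :
    IsCone F (T.filter p) := by
  refine ⟨fun v hv => hT.1 v (Finset.mem_filter.1 hv).1, fun v hv c hc => ?_⟩
  rw [Finset.mem_filter] at hv ⊢
  exact ⟨hT.2 v hv.1 c hc, hp v c hc hv.2⟩

theorem pts_pos {T : Finset V} (hT : IsCone F T) (h : T.Nonempty) : 1 ≤ pts F T := by
  apply le_pts_of_card hT
  obtain ⟨v, hv⟩ := h
  rw [one_mul, ← card_ray (F := F) (hT.1 v hv)]
  exact Finset.card_le_card (ray_subset hT.2 hv)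

/-- a further ray -/
theorem exists_new {T : Finset V} (hT : IsCone F T) (s : Finset V) (h : s.card < pts F T) :
    ∃ v ∈ T, ∀ u ∈ s, v ∉ Submodule.span F {u} := by
  by_contra hcon
  push Not at hcon
  have hsub : T ⊆ s.biUnion fun u => ray F u := by
    intro v hv
    obtain ⟨u, hu, hvu⟩ := hcon v hv
    rw [Finset.mem_biUnion]
    refine ⟨u, hu, ?_⟩
    obtain ⟨c, rfl⟩ := Submodule.mem_span_singleton.1 hvu
    refine mem_ray.2 ⟨c, ?_, rfl⟩
    rintro rfl
    exact hT.1 _ hv (zero_smul _ _)
  have h1 : (s.biUnion fun u => ray F u).card ≤ s.card * (Fintype.card F - 1) := by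
    refine Finset.card_biUnion_le_card_mul _ _ _ fun u _ => ?_
    rw [← card_ne_zero_filter (F := F)]
    exact Finset.card_image_le
  have h2 := pts_le_of_card hT ((Finset.card_le_card hsub).trans h1)
  omega

/-- pairwise independent vectors in a cone -/
theorem card_le_pts {T : Finset V} (hT : IsCone F T) {n : ℕ} (x : Fin n → V) (hx : ∀ i, x i ∈ T)
    (hi : ∀ i j, i ≠ j → x i ∉ Submodule.span F {x j}) : n ≤ pts F T := by
  apply le_pts_of_card hT
  have hsub : (Finset.univ : Finset (Fin n)).biUnion (fun i => ray F (x i)) ⊆ T := by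
    intro v hv
    rw [Finset.mem_biUnion] at hv
    obtain ⟨i, -, hi⟩ := hv
    exact ray_subset hT.2 (hx i) hi
  refine le_trans (le_of_eq ?_) (Finset.card_le_card hsub)
  rw [Finset.card_biUnion]
  · rw [Finset.sum_congr rfl fun i _ => card_ray (F := F) (hT.1 _ (hx i))]
    simp
  · intro i _ j _ hij
    change Disjoint (ray F (x i)) (ray F (x j))
    rw [Finset.disjoint_left]
    intro y hy hy2
    obtain ⟨c, hc, rfl⟩ := mem_ray.1 hy
    obtain ⟨d, hd, hd2⟩ := mem_ray.1 hy2
    apply hi i j hij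
    rw [Submodule.mem_span_singleton]
    exact ⟨c⁻¹ * d, by rw [mul_smul, hd2, smul_smul, inv_mul_cancel₀ hc, one_smul]⟩

theorem good_cone {R : Finset V} {w : V → F} {k m : ℕ} (h : Good R w k m) : IsCone F R := ⟨h.ne, h.cone⟩

theorem cb_pts {m : ℕ} {R : Finset V} {w : V → F} {k : ℕ} (h : Good R w k m) (hR : R.Nonempty) :
    m + 2 ≤ pts F R ∧ (pts F R ≤ 2 * m + 1 → ∃ a b : V, ∀ v ∈ R, v ∈ Submodule.span F {a, b}) := by
  obtain ⟨h1, h2⟩ := Good.cb m h hR
  refine ⟨le_pts_of_card (good_cone h) h1, fun h3 => h2 ?_⟩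
  rw [card_eq (good_cone h)]
  exact Nat.mul_le_mul_right _ h3

/-- sums of two products of linear functionals -/
def IsQ (g : V → F) : Prop :=
  ∃ (a b : F) (L₁ L₂ L₃ L₄ : Dual F V), ∀ v, g v = a * (L₁ v * L₂ v) + b * (L₃ v * L₄ v)

omit [Fintype F] [Fintype V] in
theorem IsQ.smul {g : V → F} (hg : IsQ g) (c : F) (v : V) : g (c • v) = c ^ 2 * g v := by
  obtain ⟨a, b, L₁, L₂, L₃, L₄, h⟩ := hg
  rw [h, h]
  simp only [map_smul, smul_eq_mul]
  ring

omit [Fintype F] [Fintype V] in
theorem IsQ.polar {g : V → F} (hg : IsQ g) :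
    ∃ B : V →ₗ[F] V →ₗ[F] F, ∀ x y, g (x + y) = g x + g y + B x y := by
  obtain ⟨a, b, L₁, L₂, L₃, L₄, h⟩ := hg
  refine ⟨LinearMap.mk₂ F (fun x y => a * (L₁ x * L₂ y + L₁ y * L₂ x) + b * (L₃ x * L₄ y + L₃ y * L₄ x)) ?_ ?_ ?_ ?_, ?_⟩
  · intro x x' y; simp only [map_add]; ring
  · intro c x y; simp only [map_smul, smul_eq_mul]; ring
  · intro x y y'; simp only [map_add]; ring
  · intro c x y; simp only [map_smul, smul_eq_mul]; ring
  · intro x y
    rw [h, h, h, LinearMap.mk₂_apply]
    simp only [map_add]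
    ring

/-- the zeros of `g` in `R` -/
noncomputable def zer (R : Finset V) (g : V → F) : Finset V := R.filter fun v => g v = 0

/-- the nonzeros of `g` in `R` -/
noncomputable def off (R : Finset V) (g : V → F) : Finset V := R.filter fun v => g v ≠ 0

theorem mem_zer {R : Finset V} {g : V → F} {v : V} : v ∈ zer R g ↔ v ∈ R ∧ g v = 0 := by simp [zer]

theorem mem_off {R : Finset V} {g : V → F} {v : V} : v ∈ off R g ↔ v ∈ R ∧ g v ≠ 0 := by simp [off]

theorem cone_zer {T : Finset V} (hT : IsCone F T) {g : V → F} (hg : ∀ v, ∀ c : F, g v = 0 → g (c • v) = 0) :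
    IsCone F (zer T g) := by
  refine ⟨fun v hv => hT.1 v (mem_zer.1 hv).1, fun v hv c hc => ?_⟩
  rw [mem_zer] at hv ⊢
  exact ⟨hT.2 v hv.1 c hc, hg v c hv.2⟩

theorem cone_off {T : Finset V} (hT : IsCone F T) {g : V → F} (hg : ∀ v, ∀ c : F, c ≠ 0 → g v ≠ 0 → g (c • v) ≠ 0) :
    IsCone F (off T g) := by
  refine ⟨fun v hv => hT.1 v (mem_off.1 hv).1, fun v hv c hc => ?_⟩
  rw [mem_off] at hv ⊢
  exact ⟨hT.2 v hv.1 c hc, hg v c hc hv.2⟩

theorem zer_off {T : Finset V} (hT : IsCone F T) {g : V → F} (h0 : IsCone F (zer T g)) (h1 : IsCone F (off T g)) :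
    pts F (zer T g) + pts F (off T g) ≤ pts F T := by
  refine pts_union h0 h1 hT ?_ (Finset.filter_subset _ _) (Finset.filter_subset _ _)
  rw [Finset.disjoint_left]
  intro x hx hx2
  exact (mem_off.1 hx2).2 (mem_zer.1 hx).2

theorem off_empty {T : Finset V} {g : V → F} (h : ¬ (off T g).Nonempty) : ∀ v ∈ T, g v = 0 := by
  intro v hv
  by_contra hcon
  exact h ⟨v, mem_off.2 ⟨hv, hcon⟩⟩

theorem good_off {R : Finset V} {w : V → F} {k m : ℕ} (h : Good R w k (m + 1)) (L : Dual F V) :
    Good (off R L) (fun v => w v * L v) (k + 1) m := by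
  have := h.filter L
  unfold off
  convert this

theorem good_filterQ {R : Finset V} {w : V → F} {k m : ℕ} (h : Good R w k (m + 2)) {g : V → F} (hg : IsQ g) :
    Good (off R g) (fun v => w v * g v) (k + 2) m := by
  unfold off
  refine ⟨by have := h.deg; omega, fun v hv => h.ne v (Finset.mem_filter.1 hv).1, ?_, ?_, ?_, ?_⟩
  · intro v hv c hc
    rw [Finset.mem_filter] at hv ⊢
    refine ⟨h.cone v hv.1 c hc, ?_⟩
    rw [hg.smul]; exact mul_ne_zero (pow_ne_zero _ hc) hv.2
  · intro v hv
    rw [Finset.mem_filter] at hv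
    exact mul_ne_zero (h.wne v hv.1) hv.2
  · intro v c hc
    simp only [h.whom v c hc, hg.smul]
    ring
  · intro L'
    obtain ⟨a, b, L₁, L₂, L₃, L₄, hgv⟩ := hg
    have h1 := h.id (Fin.cons L₁ (Fin.cons L₂ L'))
    have h2 := h.id (Fin.cons L₃ (Fin.cons L₄ L'))
    rw [Finset.sum_filter]
    have h3 : ∑ v ∈ R, (if g v ≠ 0 then w v * g v * ∏ i, L' i v else 0) =
        a * (∑ v ∈ R, w v * ∏ i, (Fin.cons L₁ (Fin.cons L₂ L') : Fin (m + 2) → Dual F V) i v) +
        b * (∑ v ∈ R, w v * ∏ i, (Fin.cons L₃ (Fin.cons L₄ L') : Fin (m + 2) → Dual F V) i v) := by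
      rw [Finset.mul_sum, Finset.mul_sum, ← Finset.sum_add_distrib]
      refine Finset.sum_congr rfl fun v _ => ?_
      rw [Fin.prod_univ_succ, Fin.prod_univ_succ, Fin.prod_univ_succ, Fin.prod_univ_succ]
      simp only [Fin.cons_zero, Fin.cons_succ]
      by_cases hv : g v = 0
      · rw [if_neg (by simpa using hv)]
        rw [hgv] at hv
        have : a * (w v * (L₁ v * (L₂ v * ∏ i, L' i v))) + b * (w v * (L₃ v * (L₄ v * ∏ i, L' i v))) =
          (a * (L₁ v * L₂ v) + b * (L₃ v * L₄ v)) * (w v * ∏ i, L' i v) := by ring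
        rw [this, hv, zero_mul]
      · rw [if_pos hv, hgv]; ring
    rw [h3, h1, h2]; simp

end H84.PS

end S_H84_PS_Pts

section S_H84_PS_Conic

/-!
MP_325208 (helper84): the conic lemma. A cone in a space of dimension three with the Cayley-Bacharach property of degree `m`
and at most `5 m / 2 + 1` rays lies in two planes or in the zero set of a quadratic form without three collinear zeros.
-/

set_option autoImplicit false
set_option linter.unusedSectionVars false

open Module Finset
open scoped Classical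

namespace H84.PS

open H8.PS

variable {F : Type*} [Field F] [Fintype F] {V : Type*} [AddCommGroup V] [Module F V] [Fintype V] [FiniteDimensional F V]

theorem pair_rank_le (a b : V) : finrank F (Submodule.span F {a, b}) ≤ 2 := by
  have h2 := finrank_range_le_card (R := F) ![a, b]
  have h3 : Set.range ![a, b] = {a, b} := by simp [Matrix.range_cons, Set.pair_comm]
  rw [Set.finrank, h3] at h2
  simpa using h2

theorem pair_rank {a b : V} (ha : a ≠ 0) (hb : b ∉ Submodule.span F {a}) :
    finrank F (Submodule.span F {a, b}) = 2 := by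
  have h1 : LinearIndependent F ![a, b] := by
    rw [LinearIndependent.pair_iff' ha]
    intro c hc
    exact hb (Submodule.mem_span_singleton.2 ⟨c, hc⟩)
  have h2 := finrank_span_eq_card h1
  have h3 : Set.range ![a, b] = {a, b} := by simp [Matrix.range_cons, Set.pair_comm]
  rw [h3] at h2
  simpa using h2

/-- a nonzero functional vanishing on two vectors -/
theorem exists_line (hV : finrank F V = 3) (a b : V) :
    ∃ L : Dual F V, L ≠ 0 ∧ L a = 0 ∧ L b = 0 := by
  have h1 : Submodule.span F {a, b} < ⊤ := by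
    rw [lt_top_iff_ne_top]
    intro h
    have := pair_rank_le (F := F) a b
    rw [h, finrank_top, hV] at this
    omega
  obtain ⟨f, hf, hle⟩ := Submodule.exists_le_ker_of_lt_top _ h1
  refine ⟨f, hf, ?_, ?_⟩
  · exact hle (Submodule.subset_span (by simp))
  · exact hle (Submodule.subset_span (by simp))

theorem ker_eq_span (hV : finrank F V = 3) {L : Dual F V} (hL : L ≠ 0) {a b : V} (ha : a ≠ 0)
    (hb : b ∉ Submodule.span F {a}) (h1 : L a = 0) (h2 : L b = 0) :
    LinearMap.ker L = Submodule.span F {a, b} := by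
  symm
  refine Submodule.eq_of_le_of_finrank_le ?_ ?_
  · rw [Submodule.span_le]
    rintro x (rfl | hx)
    · exact h1
    · rw [Set.mem_singleton_iff] at hx; subst hx; exact h2
  · have := Module.Dual.finrank_ker_add_one_of_ne_zero (K := F) (f := L) hL
    rw [pair_rank ha hb]
    omega

/-- zero sets without three collinear points -/
def Arc (F : Type*) [Field F] {V : Type*} [AddCommGroup V] [Module F V] (g : V → F) : Prop :=
  ∀ u v : V, u ≠ 0 → v ∉ Submodule.span F {u} → g u = 0 → g v = 0 → g (u + v) ≠ 0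

/-- a quadratic form with three collinear zeros is a product -/
theorem split (hV : finrank F V = 3) {g : V → F} (hg : IsQ g) {u v : V} (hu : u ≠ 0) (hv : v ∉ Submodule.span F {u})
    (h1 : g u = 0) (h2 : g v = 0) (h3 : g (u + v) = 0) :
    ∃ M M' : Dual F V, M ≠ 0 ∧ ∀ x, g x = M x * M' x := by
  obtain ⟨B, hB⟩ := hg.polar
  obtain ⟨M, hM, hMu, hMv⟩ := exists_line (F := F) hV u v
  have hk := ker_eq_span hV hM hu hv hMu hMv
  obtain ⟨e, he⟩ : ∃ e, M e = 1 := by
    obtain ⟨x, hx⟩ : ∃ x, M x ≠ 0 := by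
      by_contra hcon
      push Not at hcon
      exact hM (LinearMap.ext hcon)
    exact ⟨(M x)⁻¹ • x, by rw [map_smul, smul_eq_mul, inv_mul_cancel₀ hx]⟩
  have hBuv : B u v = 0 := by
    have := hB u v
    rw [h1, h2, h3] at this
    simpa using this.symm
  have hker : ∀ w, M w = 0 → g w = 0 := by
    intro w hw
    have : w ∈ LinearMap.ker M := hw
    rw [hk] at this
    obtain ⟨s, t, rfl⟩ := Submodule.mem_span_pair.1 this
    rw [hB, hg.smul, hg.smul, h1, h2, map_smul, map_smul, LinearMap.smul_apply, hBuv]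
    simp
  refine ⟨M, B.flip e + (g e - B e e) • M, hM, fun x => ?_⟩
  have hx : x = (x - M x • e) + M x • e := by abel
  have hw : M (x - M x • e) = 0 := by rw [map_sub, map_smul, he]; simp
  have h4 : g x = g (x - M x • e) + g (M x • e) + B (x - M x • e) (M x • e) := by
    rw [← hB, ← hx]
  rw [h4, hker _ hw, hg.smul]
  simp only [map_sub, map_smul, LinearMap.sub_apply, LinearMap.smul_apply, smul_eq_mul, LinearMap.add_apply,
    LinearMap.flip_apply]
  ring

/-- two planes or an arc -/
def Thin (F : Type*) [Field F] {V : Type*} [AddCommGroup V] [Module F V] (g : V → F) : Prop :=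
  (∃ L L' : Dual F V, L ≠ 0 ∧ L' ≠ 0 ∧ ∀ x, g x = L x * L' x) ∨ Arc F g

theorem isQ_mul (L L' : Dual F V) : IsQ (F := F) (V := V) fun x => L x * L' x :=
  ⟨1, 0, L, L', L, L', fun v => by simp⟩

theorem cz (L : Dual F V) {T : Finset V} (hT : IsCone F T) : IsCone F (zer T L) :=
  cone_zer hT fun v c h => by rw [map_smul, h, smul_zero]

theorem co (L : Dual F V) {T : Finset V} (hT : IsCone F T) : IsCone F (off T L) :=
  cone_off hT fun v c hc h => by rw [map_smul]; exact mul_ne_zero hc h

theorem czq {g : V → F} (hg : IsQ g) {T : Finset V} (hT : IsCone F T) : IsCone F (zer T g) :=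
  cone_zer hT fun v c h => by rw [hg.smul, h, mul_zero]

theorem coq {g : V → F} (hg : IsQ g) {T : Finset V} (hT : IsCone F T) : IsCone F (off T g) :=
  cone_off hT fun v c hc h => by rw [hg.smul]; exact mul_ne_zero (pow_ne_zero _ hc) h

theorem indep_symm {u v : V} (hu : u ≠ 0) (h : u ∉ Submodule.span F {v}) : v ∉ Submodule.span F {u} ∨ v = 0 := by
  by_cases hv : v = 0
  · exact Or.inr hv
  · left
    intro hcon
    obtain ⟨c, hc⟩ := Submodule.mem_span_singleton.1 hcon
    apply h
    have hc0 : c ≠ 0 := by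
      rintro rfl
      rw [zero_smul] at hc
      exact hv hc.symm
    exact Submodule.mem_span_singleton.2 ⟨c⁻¹, by rw [← hc, smul_smul, inv_mul_cancel₀ hc0, one_smul]⟩

theorem exists_indep {T : Finset V} (hT : IsCone F T) : ∀ n : ℕ, n ≤ pts F T →
    ∃ x : Fin n → V, (∀ i, x i ∈ T) ∧ ∀ i j, i ≠ j → x i ∉ Submodule.span F {x j} := by
  intro n
  induction n with
  | zero => intro _; exact ⟨fun i => i.elim0, fun i => i.elim0, fun i => i.elim0⟩
  | succ n ih =>
    intro hn
    obtain ⟨x, hx, hxi⟩ := ih (by omega)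
    obtain ⟨v, hv, hvx⟩ := exists_new hT (Finset.univ.image x) (by
      have := Finset.card_image_le (s := (Finset.univ : Finset (Fin n))) (f := x)
      rw [Finset.card_univ, Fintype.card_fin] at this
      omega)
    have hv1 : ∀ i, v ∉ Submodule.span F {x i} := fun i => hvx _ (Finset.mem_image_of_mem _ (Finset.mem_univ _))
    refine ⟨Fin.cons v x, ?_, ?_⟩
    · intro i
      refine Fin.cases ?_ (fun i => ?_) i
      · exact hv
      · exact hx i
    · intro i j
      refine Fin.cases ?_ (fun i => ?_) i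
      · refine Fin.cases ?_ (fun j => ?_) j
        · intro h; exact absurd rfl h
        · intro _
          exact hv1 j
      · refine Fin.cases ?_ (fun j => ?_) j
        · intro _
          rcases indep_symm (hT.1 v hv) (hv1 i) with h | h
          · exact h
          · exact absurd h (hT.1 _ (hx i))
        · intro hij
          exact hxi i j fun h => hij (by rw [h])

/-- five points of an arc lie on a thin quadratic -/
theorem five (hV : finrank F V = 3) {R : Finset V} (hR : IsCone F R) (h6 : 5 ≤ pts F R)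
    (harc : ∀ L : Dual F V, L ≠ 0 → pts F (zer R L) ≤ 2) :
    ∃ g : V → F, IsQ g ∧ Thin F g ∧ 5 ≤ pts F (zer R g) := by
  obtain ⟨x, hx, hxi⟩ := exists_indep hR 5 h6
  have hno : ∀ L : Dual F V, L ≠ 0 → ∀ i j k : Fin 5, i ≠ j → i ≠ k → j ≠ k → L (x i) = 0 → L (x j) = 0 → L (x k) ≠ 0 := by
    intro L hL i j k hij hik hjk hi hj hk
    have h1 : 3 ≤ pts F (zer R L) := by
      refine card_le_pts (F := F) (cz L hR) ![x i, x j, x k] ?_ ?_
      · intro t
        fin_cases t
        · exact mem_zer.2 ⟨hx i, hi⟩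
        · exact mem_zer.2 ⟨hx j, hj⟩
        · exact mem_zer.2 ⟨hx k, hk⟩
      · intro s t hst
        fin_cases s <;> fin_cases t
        · exact absurd rfl hst
        · exact hxi i j hij
        · exact hxi i k hik
        · exact hxi j i hij.symm
        · exact absurd rfl hst
        · exact hxi j k hjk
        · exact hxi k i hik.symm
        · exact hxi k j hjk.symm
        · exact absurd rfl hst
    have := harc L hL
    omega
  obtain ⟨L₁, hL₁, h10, h11⟩ := exists_line (F := F) hV (x 0) (x 1)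
  obtain ⟨L₂, hL₂, h22, h23⟩ := exists_line (F := F) hV (x 2) (x 3)
  obtain ⟨L₃, hL₃, h30, h32⟩ := exists_line (F := F) hV (x 0) (x 2)
  obtain ⟨L₄, hL₄, h41, h43⟩ := exists_line (F := F) hV (x 1) (x 3)
  set g : V → F := fun v => (L₃ (x 4) * L₄ (x 4)) * (L₁ v * L₂ v) + (-(L₁ (x 4) * L₂ (x 4))) * (L₃ v * L₄ v) with hg
  have hgQ : IsQ g := ⟨_, _, L₁, L₂, L₃, L₄, fun v => rfl⟩
  have hg0 : ∀ i, g (x i) = 0 := by
    intro i
    fin_cases i
    · change g (x 0) = 0
      simp only [hg, h10, h30]; ring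
    · change g (x 1) = 0
      simp only [hg, h11, h41]; ring
    · change g (x 2) = 0
      simp only [hg, h22, h32]; ring
    · change g (x 3) = 0
      simp only [hg, h23, h43]; ring
    · change g (x 4) = 0
      simp only [hg]; ring
  have hne : g (x 0 + x 1) ≠ 0 := by
    have h1 := hno L₁ hL₁ 0 1 4 (by decide) (by decide) (by decide) h10 h11
    have h2 := hno L₂ hL₂ 2 3 4 (by decide) (by decide) (by decide) h22 h23
    have h3 := hno L₃ hL₃ 0 2 1 (by decide) (by decide) (by decide) h30 h32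
    have h4 := hno L₄ hL₄ 1 3 0 (by decide) (by decide) (by decide) h41 h43
    simp only [hg, map_add, h10, h11, h30, h41, zero_add, add_zero, zero_mul, mul_zero]
    exact mul_ne_zero (neg_ne_zero.2 (mul_ne_zero h1 h2)) (mul_ne_zero h3 h4)
  refine ⟨g, hgQ, ?_, ?_⟩
  · by_cases hA : Arc F g
    · exact Or.inr hA
    · left
      unfold Arc at hA
      push Not at hA
      obtain ⟨u, v, hu, hv, h1, h2, h3⟩ := hA
      obtain ⟨M, M', hM, hMM⟩ := split hV hgQ hu hv h1 h2 h3
      refine ⟨M, M', hM, ?_, hMM⟩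
      rintro rfl
      apply hne
      rw [hMM]; simp
  · exact card_le_pts (F := F) (czq hgQ hR) x (fun i => mem_zer.2 ⟨hx i, hg0 i⟩) hxi

theorem conic (hV : finrank F V = 3) : ∀ (m : ℕ) {R : Finset V} {w : V → F} {k : ℕ}, Good R w k m →
    2 * pts F R ≤ 5 * m + 2 → ∃ g : V → F, IsQ g ∧ Thin F g ∧ ∀ v ∈ R, g v = 0 := by
  intro m
  induction m using Nat.strong_induction_on with
  | _ m ih =>
    intro R w k h hN
    have hcone := good_cone h
    obtain ⟨L₀, hL₀, -, -⟩ := exists_line (F := F) hV 0 0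
    -- a collinear set
    have hcol : ∀ (T : Finset V), (∃ a b : V, ∀ v ∈ T, v ∈ Submodule.span F {a, b}) →
        ∃ L : Dual F V, L ≠ 0 ∧ ∀ v ∈ T, L v = 0 := by
      rintro T ⟨a, b, hab⟩
      obtain ⟨L, hL, h1, h2⟩ := exists_line (F := F) hV a b
      refine ⟨L, hL, fun v hv => ?_⟩
      obtain ⟨x, y, rfl⟩ := Submodule.mem_span_pair.1 (hab v hv)
      simp [h1, h2]
    have hprod : ∀ L L' : Dual F V, L ≠ 0 → L' ≠ 0 → (∀ v ∈ R, L v = 0 ∨ L' v = 0) →
        ∃ g : V → F, IsQ g ∧ Thin F g ∧ ∀ v ∈ R, g v = 0 := by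
      intro L L' hL hL' hh
      refine ⟨fun x => L x * L' x, isQ_mul L L', Or.inl ⟨L, L', hL, hL', fun _ => rfl⟩, fun v hv => ?_⟩
      rcases hh v hv with h1 | h1 <;> simp [h1]
    by_cases hne : R.Nonempty
    swap
    · rw [Finset.not_nonempty_iff_eq_empty] at hne
      exact hprod L₀ L₀ hL₀ hL₀ (by simp [hne])
    by_cases hm : m ≤ 1
    · obtain ⟨L, hL, hLR⟩ := hcol R ((cb_pts h hne).2 (by omega))
      exact hprod L L hL hL fun v hv => Or.inl (hLR v hv)
    obtain ⟨n, rfl⟩ : ∃ n, m = n + 2 := ⟨m - 2, by omega⟩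
    have hNn := (cb_pts h hne).1
    -- case 1
    by_cases hc1 : ∃ L : Dual F V, L ≠ 0 ∧ pts F (off R L) ≤ 2 * (n + 1) + 1
    · obtain ⟨L, hL, hLR⟩ := hc1
      by_cases he : (off R L).Nonempty
      · obtain ⟨L', hL', hLR'⟩ := hcol _ ((cb_pts (good_off h L) he).2 hLR)
        refine hprod L L' hL hL' fun v hv => ?_
        by_cases hv0 : L v = 0
        · exact Or.inl hv0
        · exact Or.inr (hLR' v (mem_off.2 ⟨hv, hv0⟩))
      · exact hprod L L hL hL fun v hv => Or.inl (off_empty he v hv)
    push Not at hc1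
    have hline : ∀ L : Dual F V, L ≠ 0 → 2 * pts F (zer R L) ≤ n + 4 := by
      intro L hL
      have h1 := hc1 L hL
      have h2 := zer_off hcone (cz L hcone) (co L hcone)
      omega
    -- a thin quadratic through five points
    obtain ⟨g, hgQ, hgT, hg5⟩ : ∃ g : V → F, IsQ g ∧ Thin F g ∧ 5 ≤ pts F (zer R g) := by
      by_cases h3 : ∃ L : Dual F V, L ≠ 0 ∧ 3 ≤ pts F (zer R L)
      · obtain ⟨L, hL, hL3⟩ := h3
        have hcf := co L hcone
        have h1 := hc1 L hL
        obtain ⟨u, hu, -⟩ := exists_new hcf ∅ (by rw [Finset.card_empty]; omega)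
        obtain ⟨v, hv, hvu⟩ := exists_new hcf {u} (by rw [Finset.card_singleton]; omega)
        have hvu' := hvu u (by simp)
        obtain ⟨L', hL', hu', hv'⟩ := exists_line (F := F) hV u v
        refine ⟨fun x => L x * L' x, isQ_mul L L', Or.inl ⟨L, L', hL, hL', fun _ => rfl⟩, ?_⟩
        have h4 := pts_union (F := F) (cz L hcone) (cz L' hcf) (czq (isQ_mul L L') hcone) (by
          rw [Finset.disjoint_left]
          intro x hx hx2
          exact (mem_off.1 (mem_zer.1 hx2).1).2 (mem_zer.1 hx).2)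
          (fun x hx => by
            rw [mem_zer] at hx ⊢
            exact ⟨hx.1, by simp only [hx.2, zero_mul]⟩)
          (fun x hx => by
            rw [mem_zer, mem_off] at hx
            rw [mem_zer]
            exact ⟨hx.1.1, by simp only [hx.2, mul_zero]⟩)
        have h5 : 2 ≤ pts F (zer (off R L) L') := by
          refine card_le_pts (F := F) (cz L' hcf) ![u, v] ?_ ?_
          · intro i
            fin_cases i
            · exact mem_zer.2 ⟨hu, hu'⟩
            · exact mem_zer.2 ⟨hv, hv'⟩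
          · intro i j hij
            fin_cases i <;> fin_cases j
            · exact absurd rfl hij
            · change u ∉ Submodule.span F {v}
              intro hcon
              obtain ⟨c, hc⟩ := Submodule.mem_span_singleton.1 hcon
              apply hvu'
              rw [Submodule.mem_span_singleton]
              have hc0 : c ≠ 0 := by
                rintro rfl
                rw [zero_smul] at hc
                exact hcf.1 u hu hc.symm
              exact ⟨c⁻¹, by rw [← hc, smul_smul, inv_mul_cancel₀ hc0, one_smul]⟩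
            · exact hvu'
            · exact absurd rfl hij
        omega
      · push Not at h3
        obtain ⟨u, hu, -⟩ := exists_new hcone ∅ (by rw [Finset.card_empty]; omega)
        obtain ⟨v, hv, hvu⟩ := exists_new hcone {u} (by rw [Finset.card_singleton]; omega)
        obtain ⟨L, hL, huL, hvL⟩ := exists_line (F := F) hV u v
        have h1 := hc1 L hL
        have h2 := zer_off hcone (cz L hcone) (co L hcone)
        have h4 := pts_pos (F := F) (cz L hcone) ⟨u, mem_zer.2 ⟨hu, huL⟩⟩
        exact five hV hcone (by omega) fun L hL => by have := h3 L hL; omega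
    -- big leftovers
    have hbig : ∀ g : V → F, IsQ g → (off R g).Nonempty → 2 * n + 2 ≤ pts F (off R g) := by
      intro g hg hne'
      by_contra hcon
      have hgood := good_filterQ h hg
      obtain ⟨h1, h2⟩ := cb_pts hgood hne'
      obtain ⟨L, hL, hLR⟩ := hcol _ (h2 (by omega))
      have h3 := hline L hL
      have h4 : pts F (off R g) ≤ pts F (zer R L) := by
        refine pts_mono fun v hv => ?_
        exact mem_zer.2 ⟨(mem_off.1 hv).1, hLR v hv⟩
      omega
    have hle := zer_off hcone (czq hgQ hcone) (coq hgQ hcone)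
    by_cases he : (off R g).Nonempty
    swap
    · exact ⟨g, hgQ, hgT, off_empty he⟩
    obtain ⟨g', hgQ', hgT', hg'⟩ := ih n (by omega) (good_filterQ h hgQ) (by omega)
    by_cases he' : (off R g').Nonempty
    swap
    · exact ⟨g', hgQ', hgT', off_empty he'⟩
    exfalso
    have h1 := hbig g hgQ he
    have h2 := hbig g' hgQ' he'
    have h3 := pts_union (F := F) (coq hgQ hcone) (coq hgQ' hcone) hcone (by
      rw [Finset.disjoint_left]
      intro x hx hx2
      exact (mem_off.1 hx2).2 (hg' x hx)) (Finset.filter_subset _ _) (Finset.filter_subset _ _)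
    omega

end H84.PS

end S_H84_PS_Conic

section S_H25_PS_Conic

/-!
MP_325208 (helper25): few lines through a point off an arc conic meet it in a point that is not the contact point of a tangent.
`g` is homogeneous of degree two with polar form `β`; the arc condition is that of `H84.PS.Arc`.
-/

set_option autoImplicit false
set_option linter.unusedSectionVars false

open Module Finset
open scoped Classical

namespace Pool.Agent.H25.PS

variable {F : Type*} [Field F] [Fintype F] {V : Type*} [AddCommGroup V] [Module F V] [Fintype V] [FiniteDimensional F V]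

/-- the condition of `H84.PS.Arc` for a form that is homogeneous of degree two: no three zeros are collinear -/
theorem arc3 {g : V → F} (hs : ∀ (c : F) (v : V), g (c • v) = c ^ 2 * g v)
    (hA : ∀ u v : V, u ≠ 0 → v ∉ Submodule.span F {u} → g u = 0 → g v = 0 → g (u + v) ≠ 0) {a b c : V} (ha : a ≠ 0)
    (ha0 : g a = 0) (hb0 : g b = 0) (hc0 : g c = 0) (hc : c ∈ Submodule.span F {a, b}) :
    b ∈ Submodule.span F {a} ∨ c ∈ Submodule.span F {a} ∨ c ∈ Submodule.span F {b} := by
  obtain ⟨x, y, rfl⟩ := Submodule.mem_span_pair.1 hc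
  by_cases hb : b ∈ Submodule.span F {a}
  · exact Or.inl hb
  by_cases hx : x = 0
  · refine Or.inr (Or.inr ?_)
    rw [hx, zero_smul, zero_add]
    exact Submodule.smul_mem _ _ (Submodule.mem_span_singleton_self b)
  by_cases hy : y = 0
  · refine Or.inr (Or.inl ?_)
    rw [hy, zero_smul, add_zero]
    exact Submodule.smul_mem _ _ (Submodule.mem_span_singleton_self a)
  exfalso
  refine hA (x • a) (y • b) (smul_ne_zero hx ha) ?_ (by rw [hs, ha0, mul_zero]) (by rw [hs, hb0, mul_zero]) hc0
  intro h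
  apply hb
  obtain ⟨z, hz⟩ := Submodule.mem_span_singleton.1 h
  rw [Submodule.mem_span_singleton]
  exact ⟨y⁻¹ * (z * x), by rw [mul_smul, mul_smul, hz, smul_smul, inv_mul_cancel₀ hy, one_smul]⟩

/-- an arc has at most `q + 2` points -/
theorem card_le_of_arc {g : V → F} (hV : finrank F V = 3) (hs : ∀ (c : F) (v : V), g (c • v) = c ^ 2 * g v)
    (hA : ∀ u v : V, u ≠ 0 → v ∉ Submodule.span F {u} → g u = 0 → g v = 0 → g (u + v) ≠ 0) {T : Finset V}
    (hT : ∀ v ∈ T, v ≠ 0 ∧ g v = 0) : T.card ≤ (Fintype.card F - 1) * (Fintype.card F + 2) := by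
  have hq : 1 < Fintype.card F := Fintype.one_lt_card
  rcases T.eq_empty_or_nonempty with rfl | ⟨v₀, hv₀⟩
  · simp
  have hv0 := hT v₀ hv₀
  set T₀ := T.filter (· ∈ Submodule.span F {v₀}) with hT₀
  set T₁ := T.filter (· ∉ Submodule.span F {v₀}) with hT₁
  have h0 : T₀.card ≤ Fintype.card F - 1 :=
    H8.PS.card_le_of_span (fun v hv => (hT v (Finset.mem_filter.1 hv).1).1) hv0.1 fun x hx => (Finset.mem_filter.1 hx).2
  have hsum : T₀.card + T₁.card = T.card := Finset.card_filter_add_card_filter_not _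
  let U : Submodule F V := Submodule.span F {v₀}
  have hU : finrank F U = 1 := finrank_span_singleton hv0.1
  have hquot : finrank F (V ⧸ U) = 2 := by
    have := Submodule.finrank_quotient_add_finrank U
    omega
  have : Fintype (V ⧸ U) := Fintype.ofFinite _
  have hcq : Fintype.card (V ⧸ U) = Fintype.card F ^ 2 := by
    rw [Module.card_eq_pow_finrank (K := F) (V := V ⧸ U), hquot]
  have h1 : T₁.card ≤ (Finset.univ.erase (0 : V ⧸ U)).card := by
    refine Finset.card_le_card_of_injOn (fun v => Submodule.Quotient.mk v) ?_ ?_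
    · intro v hv
      have hv' := Finset.mem_filter.1 hv
      rw [Finset.mem_coe, Finset.mem_erase]
      refine ⟨?_, Finset.mem_univ _⟩
      intro h
      rw [Submodule.Quotient.mk_eq_zero] at h
      exact hv'.2 h
    · intro v hv w hw hvw
      have hv' := Finset.mem_filter.1 hv
      have hw' := Finset.mem_filter.1 hw
      have hvT := hT v hv'.1
      have hwT := hT w hw'.1
      have hvw' : (Submodule.Quotient.mk v : V ⧸ U) = Submodule.Quotient.mk w := hvw
      rw [Submodule.Quotient.eq] at hvw'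
      obtain ⟨c, hc⟩ := Submodule.mem_span_singleton.1 hvw'
      have h5 : w ∈ Submodule.span F {v₀, v} := by
        rw [Submodule.mem_span_pair]
        exact ⟨-c, 1, by rw [neg_smul, hc, one_smul]; abel⟩
      rcases arc3 hs hA hv0.1 hv0.2 hvT.2 hwT.2 h5 with h6 | h6 | h6
      · exact absurd h6 hv'.2
      · exact absurd h6 hw'.2
      · obtain ⟨a, ha⟩ := Submodule.mem_span_singleton.1 h6
        rw [← ha] at hc
        have h7 : (1 - a) • v = c • v₀ := by rw [hc, sub_smul, one_smul]
        by_cases h8 : 1 - a = 0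
        · have h9 : a = 1 := by linear_combination -h8
          rw [← ha, h9, one_smul]
        · exfalso
          apply hv'.2
          rw [Submodule.mem_span_singleton]
          exact ⟨(1 - a)⁻¹ * c, by rw [mul_smul, ← h7, smul_smul, inv_mul_cancel₀ h8, one_smul]⟩
  rw [Finset.card_erase_of_mem (Finset.mem_univ _), Finset.card_univ, hcq] at h1
  obtain ⟨n, hn⟩ : ∃ n, Fintype.card F = n + 1 := ⟨Fintype.card F - 1, by omega⟩
  rw [hn] at h0 h1 ⊢
  have e1 : (n + 1) ^ 2 - 1 = n * (n + 2) := by
    have : (n + 1) ^ 2 = n * (n + 2) + 1 := by ring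
    omega
  rw [e1] at h1
  have e2 : n + 1 - 1 = n := by omega
  rw [e2] at h0 ⊢
  calc T.card = T₀.card + T₁.card := hsum.symm
    _ ≤ n + n * (n + 2) := add_le_add h0 h1
    _ = n * (n + 1 + 2) := by ring

/-- an arc has at most two points on a line -/
theorem card_le_of_arc_line {g : V → F} {N : Submodule F V} (hN : finrank F N = 2)
    (hs : ∀ (c : F) (v : V), g (c • v) = c ^ 2 * g v)
    (hA : ∀ u v : V, u ≠ 0 → v ∉ Submodule.span F {u} → g u = 0 → g v = 0 → g (u + v) ≠ 0) {T : Finset V}
    (hT : ∀ v ∈ T, v ∈ N ∧ v ≠ 0 ∧ g v = 0) : T.card ≤ 2 * (Fintype.card F - 1) := by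
  have hq : 1 < Fintype.card F := Fintype.one_lt_card
  rcases T.eq_empty_or_nonempty with rfl | ⟨v, hv⟩
  · simp
  by_cases h1 : ∀ x ∈ T, x ∈ Submodule.span F {v}
  · have := H8.PS.card_le_of_span (fun v hv => (hT v hv).2.1) (hT v hv).2.1 h1
    omega
  push Not at h1
  obtain ⟨u, hu, huv⟩ := h1
  have h2 : Submodule.span F {v, u} = N := by
    refine Submodule.eq_of_le_of_finrank_eq ?_ ?_
    · rw [Submodule.span_le]
      intro x hx
      rcases hx with rfl | hx
      · exact (hT _ hv).1
      · rw [Set.mem_singleton_iff.1 hx]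
        exact (hT _ hu).1
    · rw [H8.PS.finrank_span_pair (hT v hv).2.1 huv, hN]
  have h3 : T ⊆ H8.PS.ray F v ∪ H8.PS.ray F u := by
    intro w hw
    have hwT := hT w hw
    have h4 : w ∈ Submodule.span F {v, u} := by rw [h2]; exact hwT.1
    rw [Finset.mem_union, H8.PS.mem_ray, H8.PS.mem_ray]
    rcases arc3 hs hA (hT v hv).2.1 (hT v hv).2.2 (hT u hu).2.2 hwT.2.2 h4 with h5 | h5 | h5
    · exact absurd h5 huv
    · obtain ⟨c, hc⟩ := Submodule.mem_span_singleton.1 h5
      refine Or.inl ⟨c, ?_, hc⟩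
      rintro rfl
      exact hwT.2.1 (by rw [← hc, zero_smul])
    · obtain ⟨c, hc⟩ := Submodule.mem_span_singleton.1 h5
      refine Or.inr ⟨c, ?_, hc⟩
      rintro rfl
      exact hwT.2.1 (by rw [← hc, zero_smul])
  have h4 := (Finset.card_le_card h3).trans (Finset.card_union_le _ _)
  rw [H8.PS.card_ray (hT v hv).2.1, H8.PS.card_ray (hT u hu).2.1] at h4
  omega

/-- **(5)** `R` = contact points of the tangents of `B` through `Z`, on an arc conic not through `Z`, `Z` not the nucleus -/
theorem card_tangent_le {g : V → F} {β : V →ₗ[F] V →ₗ[F] F} (hV : finrank F V = 3)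
    (hs : ∀ (c : F) (v : V), g (c • v) = c ^ 2 * g v) (hB : ∀ x y : V, g (x + y) = g x + g y + β x y)
    (hA : ∀ u v : V, u ≠ 0 → v ∉ Submodule.span F {u} → g u = 0 → g v = 0 → g (u + v) ≠ 0)
    {B R : Finset V} (hRB : R ⊆ B) (hR0 : ∀ v ∈ R, v ≠ 0) {Z : V}
    (htan : ∀ v ∈ R, ∀ v' ∈ B, v' ∈ Submodule.span F {Z, v} → v' ∈ Submodule.span F {v})
    (hZR : ∀ v ∈ R, Z ∉ Submodule.span F {v})
    (hQR : ∀ v ∈ R, g v = 0) (hQZ : g Z ≠ 0) (hnuc : β Z ≠ 0) :
    2 * R.card ≤ (Fintype.card F - 1) * (Fintype.card F + 4) := by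
  have hq : 1 < Fintype.card F := Fintype.one_lt_card
  have hsymm : ∀ x y, β x y = β y x := by
    intro x y
    have h1 := hB x y
    have h2 := hB y x
    rw [add_comm y x] at h2
    linear_combination h2 - h1
  have hself : β Z Z = 2 * g Z := by
    have h1 := hB Z Z
    have h2 : Z + Z = (2 : F) • Z := by rw [two_smul]
    rw [h2, hs] at h1
    linear_combination -h1
  set R₀ := R.filter (fun v => β Z v = 0) with hR₀
  set R₁ := R.filter (fun v => ¬ β Z v = 0) with hR₁
  have hsum : R₀.card + R₁.card = R.card := Finset.card_filter_add_card_filter_not _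
  -- few contact points on the polar line
  have hN : finrank F (LinearMap.ker (β Z)) = 2 := by
    have h3 := Module.Dual.finrank_ker_add_one_of_ne_zero (K := F) (f := β Z) hnuc
    omega
  have h0 : R₀.card ≤ 2 * (Fintype.card F - 1) := by
    refine card_le_of_arc_line hN hs hA fun v hv => ?_
    have hv' := Finset.mem_filter.1 hv
    exact ⟨LinearMap.mem_ker.2 hv'.2, hR0 v hv'.1, hQR v hv'.1⟩
  -- the reflection
  let σ : V → V := fun v => v + (-(β Z v * (g Z)⁻¹)) • Z
  have hσdef : ∀ v, σ v = v + (-(β Z v * (g Z)⁻¹)) • Z := fun v => rfl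
  have hσp : ∀ v, β Z (σ v) = - β Z v := by
    intro v
    rw [hσdef, map_add, map_smul, smul_eq_mul, hself]
    field_simp
    ring
  have hσσ : ∀ v, σ (σ v) = v := by
    intro v
    rw [hσdef (σ v), hσp, hσdef v, add_assoc, ← add_smul]
    have : -(β Z v * (g Z)⁻¹) + -(-β Z v * (g Z)⁻¹) = 0 := by ring
    rw [this, zero_smul, add_zero]
  have hσQ : ∀ v, g (σ v) = g v := by
    intro v
    rw [hσdef, hB, hs, map_smul, hsymm v Z, smul_eq_mul]
    field_simp
    ring
  have hinj : Set.InjOn σ (R₁ : Set V) := fun v _ w _ h => by rw [← hσσ v, ← hσσ w, h]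
  have hcard : (R₁.image σ).card = R₁.card := Finset.card_image_of_injOn hinj
  have hdis : Disjoint R (R₁.image σ) := by
    rw [Finset.disjoint_left]
    intro y hy hy2
    obtain ⟨v, hv, rfl⟩ := Finset.mem_image.1 hy2
    have hv' := Finset.mem_filter.1 hv
    have h1 : σ v ∈ Submodule.span F {Z, v} := by
      rw [Submodule.mem_span_pair]
      exact ⟨-(β Z v * (g Z)⁻¹), 1, by rw [hσdef, one_smul, add_comm]⟩
    have h2 := htan v hv'.1 (σ v) (hRB hy) h1
    obtain ⟨c, hc⟩ := Submodule.mem_span_singleton.1 h2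
    apply hZR v hv'.1
    rw [Submodule.mem_span_singleton]
    have h3 : (-(β Z v * (g Z)⁻¹)) • Z = (c - 1) • v := by
      rw [sub_smul, one_smul, hc, hσdef, add_sub_cancel_left]
    have h4 : -(β Z v * (g Z)⁻¹) ≠ 0 := neg_ne_zero.2 (mul_ne_zero hv'.2 (inv_ne_zero hQZ))
    exact ⟨(-(β Z v * (g Z)⁻¹))⁻¹ * (c - 1), by
      rw [mul_smul, ← h3, smul_smul, inv_mul_cancel₀ h4, one_smul]⟩
  have h1 : (R ∪ R₁.image σ).card ≤ (Fintype.card F - 1) * (Fintype.card F + 2) := by
    refine card_le_of_arc hV hs hA fun v hv => ?_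
    rcases Finset.mem_union.1 hv with h2 | h2
    · exact ⟨hR0 v h2, hQR v h2⟩
    · obtain ⟨w, hw, rfl⟩ := Finset.mem_image.1 h2
      have hw' := Finset.mem_filter.1 hw
      refine ⟨?_, by rw [hσQ]; exact hQR w hw'.1⟩
      intro h3
      have h4 := hσp w
      rw [h3, map_zero] at h4
      exact hw'.2 (neg_eq_zero.1 h4.symm)
  rw [Finset.card_union_of_disjoint hdis, hcard] at h1
  obtain ⟨n, hn⟩ : ∃ n, Fintype.card F = n + 1 := ⟨Fintype.card F - 1, by omega⟩
  rw [hn] at h0 h1 ⊢
  have e2 : n + 1 - 1 = n := by omega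
  rw [e2] at h0 h1 ⊢
  have e3 : n * (n + 1 + 4) = n * (n + 1 + 2) + 2 * n := by ring
  rw [e3]
  omega

end Pool.Agent.H25.PS

end S_H25_PS_Conic
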