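import Mathlib
import Pool.Agent.H16.PM.A
import Pool.Agent.H16.PM.B

/-!
# MP_325208: maximal partial spreads, part D

This file joins several modules (of helpers 8, 16, 25, 27, 33, 84, 97) to save build time: coordinates in a rich plane; the plane data and the Cayley-Bacharach property of the tangent holes.
-/

section S_H8_PS_Bridge

/-!
MP_325208 (helper8): every rich plane of a maximal partial spread gives a `PlaneData`.
-/

set_option autoImplicit false

open Module Finset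
open scoped Classical LinearAlgebra.Projectivization

namespace H8.PS

variable {F : Type*} [Field F] [Fintype F]
variable {V : Type*} [AddCommGroup V] [Module F V] [Fintype V] [FiniteDimensional F V]

/-- the number of holes in a hyperplane containing no member -/
theorem holes_rich (hV : finrank F V = 4) {ι : Type*} {s : Finset ι} {A : ι → Submodule F V}
    (hA : ∀ i ∈ s, ∀ j ∈ s, i ≠ j → A i ⊓ A j = ⊥) (h2 : ∀ i ∈ s, finrank F (A i) = 2) (N : Submodule F V)
    (hN : finrank F N = 3) (hr : ∀ i ∈ s, ¬ A i ≤ N) :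
    (((holes s A).filter (· ∈ N)).card : ℤ) =
      ((Fintype.card F : ℤ) - 1) * ((Fintype.card F : ℤ) ^ 2 + Fintype.card F + 1 - s.card) := by
  rw [card_holes_inter s A hA N, hN]
  have h1 : ∀ i ∈ s, finrank F (A i ⊓ N : Submodule F V) = 1 := by
    intro i hi
    refine le_antisymm ?_ (one_le_inf hV (h2 i hi) hN)
    have h3 : A i ⊓ N < A i := by
      refine lt_of_le_of_ne inf_le_left fun h => hr i hi ?_
      rw [← h]; exact inf_le_right
    have := Submodule.finrank_lt_finrank_of_lt h3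
    have := h2 i hi
    omega
  rw [Finset.sum_congr rfl fun i hi => by rw [h1 i hi], Finset.sum_const, nsmul_eq_mul]
  ring

namespace Conf

variable {S : Finset (Submodule F V)} {Z E : V} (C : Conf (F := F) S Z E)
include C

theorem rK {δ : Dual F V} (hδ : δ ∈ DD S Z E) : finrank F (LinearMap.ker δ) = 3 := by
  have h0 : δ ≠ 0 := (mem_holes.1 (mem_DD.1 hδ).1).1
  have := Module.Dual.finrank_ker_add_one_of_ne_zero (K := F) (f := δ) h0
  have := C.hV
  omega

theorem coords {δ : Dual F V} (hδ : δ ∈ DD S Z E) : ∃ α β : Dual F V, α Z = 0 ∧ β Z = 0 ∧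
    (∀ x, δ x = 0 → β x = 0 → α x = 0 → x ∈ Submodule.span F {Z}) ∧
    (∀ y z : F, ∃ u, δ u = 0 ∧ α u = y ∧ β u = z) := by
  have hK := C.rK hδ
  have hZK : Z ∈ LinearMap.ker δ := (mem_DD.1 hδ).2.1
  obtain ⟨e₀, he₀, he₀Z⟩ : ∃ e₀ ∈ LinearMap.ker δ, e₀ ∉ Submodule.span F {Z} := by
    by_contra hcon
    push Not at hcon
    have h3 : LinearMap.ker δ ≤ Submodule.span F {Z} := hcon
    have h4 := Submodule.finrank_mono h3
    rw [hK, finrank_span_singleton C.hZ0] at h4
    omega
  have hN := finrank_span_pair C.hZ0 he₀Z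
  have hNK : Submodule.span F {Z, e₀} ≤ LinearMap.ker δ := by
    rw [Submodule.span_le]
    rintro x (rfl | hx)
    · exact hZK
    · rw [Set.mem_singleton_iff] at hx; subst hx; exact he₀
  obtain ⟨β, e, he, hβN, hβe, hβ⟩ := exists_cut hNK (by rw [hN, hK])
  obtain ⟨α, a, ha, hαZ, hαa, hα⟩ := exists_cut (P := Submodule.span F {Z}) (Q := Submodule.span F {Z, e₀})
    (Submodule.span_mono (by simp)) (by rw [hN, finrank_span_singleton C.hZ0])
  have hZN : Z ∈ Submodule.span F {Z, e₀} := Submodule.subset_span (by simp)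
  refine ⟨α, β, hαZ (Submodule.mem_span_singleton_self Z), hβN hZN, fun x hx hβx hαx => hα x (hβ x hx hβx) hαx, ?_⟩
  intro y z
  have h1 : β a = 0 := hβN ha
  have h2 : δ a = 0 := hNK ha
  have h3 : δ e = 0 := he
  refine ⟨z • e + (y - z * α e) • a, ?_, ?_, ?_⟩
  · simp [h2, h3]
  · simp [hαa]
  · simp [hβe, h1]

/-- a hole on a line through `Z` can be moved into a given class modulo `Z` -/
theorem rescale {u x : V} (hx : x ∈ holes S fun W => W) (hxu : x ∈ Submodule.span F {Z, u}) :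
    ∃ c p : F, c ≠ 0 ∧ c⁻¹ • x = p • Z + u := by
  obtain ⟨p, c, rfl⟩ := Submodule.mem_span_pair.1 hxu
  have hc : c ≠ 0 := by
    rintro rfl
    apply C.not_span hx
    rw [zero_smul, add_zero]
    exact Submodule.smul_mem _ _ (Submodule.mem_span_singleton_self _)
  exact ⟨c, c⁻¹ * p, hc, by rw [smul_add, smul_smul, smul_smul, inv_mul_cancel₀ hc, one_smul]⟩

theorem RR_nonempty {δ : Dual F V} (hδ : δ ∈ DD S Z E)
    (hd : (Fintype.card F : ℤ) ^ 2 + 1 - S.card < Fintype.card F + 2) : (RR S Z E δ).Nonempty := by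
  by_contra hemp
  rw [Finset.not_nonempty_iff_eq_empty] at hemp
  obtain ⟨α, β, hαZ, hβZ, hαβ, hsurj⟩ := C.coords hδ
  have hq : 1 < Fintype.card F := Fintype.one_lt_card
  have hδZ : δ Z = 0 := (mem_DD.1 hδ).2.1
  have hup := holes_hyperplane C.hV C.hd C.h2 (LinearMap.ker δ) (C.rK hδ)
  set B := (holes S fun W => W).filter (· ∈ LinearMap.ker δ) with hB
  have hmaps : ∀ v ∈ B, ((α v, β v) : F × F) ∈ (Finset.univ.erase (0, 0) : Finset (F × F)) := by
    intro v hv
    rw [Finset.mem_erase]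
    refine ⟨fun h => ?_, Finset.mem_univ _⟩
    rw [hB, Finset.mem_filter] at hv
    simp only [Prod.mk.injEq] at h
    exact C.not_span hv.1 (hαβ v hv.2 h.2 h.1)
  have hcard := Finset.card_eq_sum_card_fiberwise (f := fun v => ((α v, β v) : F × F)) hmaps
  have hfib : ∀ b ∈ (Finset.univ.erase (0, 0) : Finset (F × F)), 2 ≤ (B.filter fun v => ((α v, β v) : F × F) = b).card := by
    rintro ⟨y, z⟩ hb
    obtain ⟨u, hu, hαu, hβu⟩ := hsurj y z
    have huZ : u ∉ Submodule.span F {Z} := by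
      intro h
      obtain ⟨c, rfl⟩ := Submodule.mem_span_singleton.1 h
      rw [Finset.mem_erase] at hb
      apply hb.1
      rw [← hαu, ← hβu]
      simp [hαZ, hβZ]
    have hr := finrank_span_pair C.hZ0 huZ
    have hdu := duality C.hV C.hd C.h2 hr
    have hpos : 0 < ((holes S fun W => W).filter (· ∈ Submodule.span F {Z, u})).card := by
      rw [hdu]
      refine Finset.card_pos.2 ⟨δ, ?_⟩
      rw [Finset.mem_filter, mem_ann_pair]
      exact ⟨(mem_DD.1 hδ).1, hδZ, hu⟩
    obtain ⟨x, hx⟩ := Finset.card_pos.1 hpos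
    rw [Finset.mem_filter] at hx
    obtain ⟨c, p, hc, hcx⟩ := C.rescale hx.1 hx.2
    have hv0 : c⁻¹ • x ∈ holes S fun W => W := smul_mem_holes hx.1 (inv_ne_zero hc)
    have h0 : δ (c⁻¹ • x) = 0 ∧ α (c⁻¹ • x) = y ∧ β (c⁻¹ • x) = z := by
      rw [hcx]; simp [hδZ, hu, hαZ, hβZ, hαu, hβu]
    have hnot : c⁻¹ • x ∉ RR S Z E δ := by rw [hemp]; simp
    have hex : ∃ θ ∈ DD S Z E, θ ≠ δ ∧ θ (c⁻¹ • x) = 0 := by
      by_contra hcon
      push Not at hcon
      exact hnot (mem_RR.2 ⟨hv0, hcon⟩)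
    obtain ⟨θ, hθ, hθδ, hθ0⟩ := hex
    have hnt : ∃ x' ∈ holes S fun W => W, x' ∈ Submodule.span F {Z, c⁻¹ • x} ∧ x' ∉ Submodule.span F {c⁻¹ • x} := by
      by_contra hcon
      push Not at hcon
      exact hθδ (C.unique_of_tangent hv0 hcon hδ hθ h0.1 hθ0)
    obtain ⟨x', hx', hx's, hx'n⟩ := hnt
    obtain ⟨c', p', hc', hcx'⟩ := C.rescale hx' hx's
    have h1 : δ (c'⁻¹ • x') = 0 ∧ α (c'⁻¹ • x') = y ∧ β (c'⁻¹ • x') = z := by
      rw [hcx', map_add, map_add, map_add, h0.1, h0.2.1, h0.2.2]; simp [hδZ, hαZ, hβZ]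
    have hne : c⁻¹ • x ≠ c'⁻¹ • x' := by
      intro heq
      apply hx'n
      rw [Submodule.mem_span_singleton]
      exact ⟨c', by rw [heq, smul_smul, mul_inv_cancel₀ hc', one_smul]⟩
    have hsub : ({c⁻¹ • x, c'⁻¹ • x'} : Finset V) ⊆ B.filter fun v => ((α v, β v) : F × F) = (y, z) := by
      intro w hw
      rw [Finset.mem_insert, Finset.mem_singleton] at hw
      rw [Finset.mem_filter, hB, Finset.mem_filter]
      rcases hw with rfl | rfl
      · exact ⟨⟨hv0, h0.1⟩, by rw [h0.2.1, h0.2.2]⟩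
      · exact ⟨⟨smul_mem_holes hx' (inv_ne_zero hc'), h1.1⟩, by rw [h1.2.1, h1.2.2]⟩
    have := Finset.card_le_card hsub
    rwa [Finset.card_pair hne] at this
  have h2 : 2 * (Fintype.card F ^ 2 - 1) ≤ B.card := by
    rw [hcard]
    have := Finset.card_nsmul_le_sum _ _ 2 hfib
    rw [Finset.card_erase_of_mem (Finset.mem_univ _), Finset.card_univ, Fintype.card_prod, smul_eq_mul] at this
    have h3 : Fintype.card F ^ 2 = Fintype.card F * Fintype.card F := sq _
    rw [h3]; omega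
  have h3 : 2 * ((Fintype.card F : ℤ) ^ 2 - 1) ≤ B.card := by
    have h4 : 1 ≤ Fintype.card F ^ 2 := Nat.one_le_pow _ _ (by omega)
    have : ((2 * (Fintype.card F ^ 2 - 1) : ℕ) : ℤ) = 2 * ((Fintype.card F : ℤ) ^ 2 - 1) := by push_cast [h4]; ring
    rw [← this]; exact_mod_cast h2
  have h5 := h3.trans hup
  have hq' : (0 : ℤ) < (Fintype.card F : ℤ) - 1 := by
    have : (1 : ℤ) < Fintype.card F := by exact_mod_cast hq
    linarith
  nlinarith [mul_pos hq' (sub_pos.2 hd)]

theorem RR_ker {δ : Dual F V} {v : V} (hv : v ∈ RR S Z E δ) : δ v = 0 := by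
  rw [mem_RR] at hv
  obtain ⟨θ, hθ, h⟩ := C.exists_D hv.1
  by_contra hne
  refine hv.2 θ hθ ?_ h
  rintro rfl
  exact hne h

/-- the cone of tangent holes satisfies the Cayley–Bacharach condition -/
theorem good {δ : Dual F V} (hδ : δ ∈ DD S Z E) {m : ℕ} (hm : ((DD S Z E).erase δ).card + m = Fintype.card F - 1) :
    Good (RR S Z E δ) (fun v => ∏ θ ∈ (DD S Z E).erase δ, θ v) ((DD S Z E).erase δ).card m := by
  refine ⟨hm, fun v hv => (mem_holes.1 (mem_RR.1 hv).1).1, ?_, ?_, ?_, ?_⟩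
  · intro v hv c hc
    rw [mem_RR] at hv ⊢
    refine ⟨smul_mem_holes hv.1 hc, fun θ hθ hθδ => ?_⟩
    rw [map_smul]
    exact smul_ne_zero hc (hv.2 θ hθ hθδ)
  · intro v hv
    rw [mem_RR] at hv
    refine Finset.prod_ne_zero_iff.2 fun θ hθ => ?_
    rw [Finset.mem_erase] at hθ
    exact hv.2 θ hθ.2 hθ.1
  · intro v c _
    simp only [map_smul, smul_eq_mul]
    rw [Finset.prod_mul_distrib, Finset.prod_const]
  · intro L
    have h3 := sum_holes S (fun W => W) C.hd C.h2 (by rw [C.hV]; omega)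
      (Finset.univ : Finset ({θ // θ ∈ (DD S Z E).erase δ} ⊕ Fin m))
      (Sum.elim (fun θ => θ.1) L) (by
        rw [Finset.card_univ, Fintype.card_sum, Fintype.card_coe, Fintype.card_fin]
        exact hm)
    rw [RR, Finset.sum_filter]
    refine Eq.trans (Finset.sum_congr rfl fun v _ => ?_) h3
    rw [Fintype.prod_sum_type]
    simp only [Sum.elim_inl, Sum.elim_inr]
    rw [Finset.prod_coe_sort ((DD S Z E).erase δ) fun θ => θ v]
    by_cases hall : ∀ θ ∈ (DD S Z E).erase δ, θ v ≠ 0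
    · rw [if_pos hall]
    · rw [if_neg hall]
      push Not at hall
      obtain ⟨θ, hθ, hθ0⟩ := hall
      rw [Finset.prod_eq_zero hθ hθ0, zero_mul]

end Conf

end H8.PS

end S_H8_PS_Bridge

section S_H8_PS_Proj

/-!
MP_325208 (helper8): projective coordinates in a hyperplane.
-/

set_option autoImplicit false

open Module Finset
open scoped Classical LinearAlgebra.Projectivization

namespace H8.PS

variable {F : Type*} [Field F] [Fintype F]
variable {V : Type*} [AddCommGroup V] [Module F V] [Fintype V] [FiniteDimensional F V]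

/-- linear coordinates in the hyperplane `δ = 0` -/
structure Coord (δ : Dual F V) (j : (Fin 3 → F) →ₗ[F] V) : Prop where
  inj : Function.Injective j
  range : ∀ v, δ v = 0 ↔ ∃ x, j x = v

theorem exists_coord {δ : Dual F V} (hK : finrank F (LinearMap.ker δ) = 3) : ∃ j, Coord δ j := by
  let b := finBasisOfFinrankEq F (LinearMap.ker δ) hK
  refine ⟨(LinearMap.ker δ).subtype ∘ₗ b.equivFun.symm.toLinearMap, ?_, ?_⟩
  · intro x y h
    have h1 : b.equivFun.symm x = b.equivFun.symm y := Subtype.ext h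
    exact b.equivFun.symm.injective h1
  · intro v
    constructor
    · intro hv
      exact ⟨b.equivFun ⟨v, hv⟩, by simp⟩
    · rintro ⟨x, rfl⟩
      exact (b.equivFun.symm x).2

noncomputable instance : Fintype (ℙ F (Fin 3 → F)) := Fintype.ofFinite _

/-- the vector of a point -/
noncomputable def vec (j : (Fin 3 → F) →ₗ[F] V) (p : ℙ F (Fin 3 → F)) : V := j p.rep

theorem mem_line {p l : ℙ F (Fin 3 → F)} : p ∈ l ↔ p.rep ⬝ᵥ l.rep = 0 := by
  rw [Configuration.ofField.mem_iff]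
  conv_lhs => rw [← p.mk_rep, ← l.mk_rep]
  exact Projectivization.orthogonal_mk _ _

theorem mk_eq_of_smul {p p' : ℙ F (Fin 3 → F)} {c : F} (h : p.rep = c • p'.rep) : p = p' := by
  rw [← p.mk_rep, ← p'.mk_rep, Projectivization.mk_eq_mk_iff']
  exact ⟨c, h.symm⟩

/-- the plane of vectors orthogonal to a line vector -/
noncomputable def Kl (l : ℙ F (Fin 3 → F)) : Submodule F (Fin 3 → F) where
  carrier := {x | x ⬝ᵥ l.rep = 0}
  add_mem' := by intro a b ha hb; simp only [Set.mem_setOf_eq] at *; rw [add_dotProduct, ha, hb, add_zero]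
  zero_mem' := by simp
  smul_mem' := by intro c x hx; simp only [Set.mem_setOf_eq] at *; rw [smul_dotProduct, hx, smul_zero]

theorem mem_Kl {l : ℙ F (Fin 3 → F)} {x : Fin 3 → F} : x ∈ Kl l ↔ x ⬝ᵥ l.rep = 0 := Iff.rfl

/-- the linear form of a line -/
noncomputable def fl (l : ℙ F (Fin 3 → F)) : (Fin 3 → F) →ₗ[F] F where
  toFun x := x ⬝ᵥ l.rep
  map_add' := by intro a b; rw [add_dotProduct]
  map_smul' := by intro c x; rw [smul_dotProduct, RingHom.id_apply]

theorem fl_ne (l : ℙ F (Fin 3 → F)) : fl l ≠ 0 := by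
  intro h
  apply l.rep_nonzero
  rw [← dotProduct_eq_zero_iff]
  intro w
  have : fl l w = 0 := by rw [h]; rfl
  rw [dotProduct_comm]; exact this

theorem finrank_Kl (l : ℙ F (Fin 3 → F)) : finrank F (Kl l) = 2 := by
  have h1 : Kl l = LinearMap.ker (fl l) := by ext x; rfl
  have h2 := Module.Dual.finrank_ker_add_one_of_ne_zero (K := F) (f := fl l) (fl_ne l)
  rw [h1]
  simp at h2
  omega

/-- a plane of `F ^ 3` lies in some `Kl` -/
theorem exists_Kl {U : Submodule F (Fin 3 → F)} (hU : finrank F U ≤ 2) : ∃ l : ℙ F (Fin 3 → F), U ≤ Kl l := by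
  have hlt : U < ⊤ := by
    rw [lt_top_iff_ne_top]
    rintro rfl
    rw [finrank_top] at hU
    simp at hU
  obtain ⟨f, hf, hle⟩ := Submodule.exists_le_ker_of_lt_top U hlt
  let w : Fin 3 → F := fun i => f (Pi.single i 1)
  have hfw : ∀ x, f x = x ⬝ᵥ w := by
    intro x
    conv_lhs => rw [LinearMap.pi_apply_eq_sum_univ f x]
    simp only [dotProduct, w, smul_eq_mul]
    refine Finset.sum_congr rfl fun i _ => ?_
    congr 2
    ext k
    simp [Pi.single_apply, eq_comm]
  have hw : w ≠ 0 := by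
    intro h
    apply hf
    ext x
    simp only [LinearMap.comp_apply, LinearMap.zero_apply]
    rw [hfw, h, dotProduct_zero]
  refine ⟨Projectivization.mk F w hw, fun x hx => ?_⟩
  obtain ⟨a, ha⟩ := Projectivization.exists_smul_eq_mk_rep F w hw
  rw [mem_Kl, ← ha]
  have : x ⬝ᵥ w = 0 := by rw [← hfw]; exact hle hx
  change x ⬝ᵥ ((a : F) • w) = 0
  rw [dotProduct_smul, this, smul_zero]

theorem line_span {l Z X Y : ℙ F (Fin 3 → F)} (hne : X ≠ Z) (hZ : Z ∈ l) (hX : X ∈ l) :
    Y ∈ l ↔ Y.rep ∈ Submodule.span F {Z.rep, X.rep} := by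
  have h0 : X.rep ∉ Submodule.span F {Z.rep} := by
    intro h
    obtain ⟨c, hc⟩ := Submodule.mem_span_singleton.1 h
    exact hne (mk_eq_of_smul hc.symm)
  have h1 : Submodule.span F {Z.rep, X.rep} = Kl l := by
    refine Submodule.eq_of_le_of_finrank_le ?_ (by rw [finrank_Kl, finrank_span_pair Z.rep_nonzero h0])
    rw [Submodule.span_le]
    rintro x (rfl | hx)
    · exact mem_line.1 hZ
    · rw [Set.mem_singleton_iff] at hx; subst hx; exact mem_line.1 hX
  rw [h1, mem_line, mem_Kl]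

namespace Coord

variable {δ : Dual F V} {j : (Fin 3 → F) →ₗ[F] V} (J : Coord δ j)
include J

theorem vec_ne (p : ℙ F (Fin 3 → F)) : vec j p ≠ 0 := by
  intro h
  have : j p.rep = j 0 := by rw [map_zero]; exact h
  exact p.rep_nonzero (J.inj this)

theorem vec_ker (p : ℙ F (Fin 3 → F)) : δ (vec j p) = 0 := (J.range _).2 ⟨_, rfl⟩

theorem eq_of_span {p p' : ℙ F (Fin 3 → F)} (h : vec j p ∈ Submodule.span F {vec j p'}) : p = p' := by
  obtain ⟨c, hc⟩ := Submodule.mem_span_singleton.1 h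
  refine mk_eq_of_smul (c := c) (J.inj ?_)
  rw [map_smul]; exact hc.symm

theorem exists_point {v : V} (hv : v ≠ 0) (hδ : δ v = 0) : ∃ p : ℙ F (Fin 3 → F), ∃ c : F, c ≠ 0 ∧ vec j p = c • v := by
  obtain ⟨x, rfl⟩ := (J.range v).1 hδ
  have hx : x ≠ 0 := by rintro rfl; exact hv (map_zero _)
  obtain ⟨a, ha⟩ := Projectivization.exists_smul_eq_mk_rep F x hx
  refine ⟨Projectivization.mk F x hx, a, a.ne_zero, ?_⟩
  rw [vec, ← ha]
  change j ((a : F) • x) = _
  rw [map_smul]

theorem card_cone {T : Finset V} (h0 : ∀ v ∈ T, v ≠ 0) (hc : ∀ v ∈ T, ∀ c : F, c ≠ 0 → c • v ∈ T) (hδ : ∀ v ∈ T, δ v = 0) :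
    T.card = (Finset.univ.filter fun p : ℙ F (Fin 3 → F) => vec j p ∈ T).card * (Fintype.card F - 1) := by
  have h1 : T = ((Finset.univ.filter fun p : ℙ F (Fin 3 → F) => vec j p ∈ T) ×ˢ
      (Finset.univ.filter fun c : F => c ≠ 0)).image fun x => x.2 • vec j x.1 := by
    ext v
    rw [Finset.mem_image]
    constructor
    · intro hv
      obtain ⟨p, c, hc0, hp⟩ := J.exists_point (h0 v hv) (hδ v hv)
      refine ⟨(p, c⁻¹), ?_, ?_⟩
      · simp only [Finset.mem_product, Finset.mem_filter, Finset.mem_univ, true_and]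
        exact ⟨by rw [hp]; exact hc v hv c hc0, inv_ne_zero hc0⟩
      · simp only [hp, smul_smul, inv_mul_cancel₀ hc0, one_smul]
    · rintro ⟨⟨p, c⟩, hx, rfl⟩
      simp only [Finset.mem_product, Finset.mem_filter, Finset.mem_univ, true_and] at hx
      exact hc _ hx.1 c hx.2
  have h2 : (((Finset.univ.filter fun p : ℙ F (Fin 3 → F) => vec j p ∈ T) ×ˢ
      (Finset.univ.filter fun c : F => c ≠ 0)).image fun x => x.2 • vec j x.1).card =
      (Finset.univ.filter fun p : ℙ F (Fin 3 → F) => vec j p ∈ T).card * (Fintype.card F - 1) := by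
    rw [Finset.card_image_of_injOn, Finset.card_product, card_ne_zero_filter]
    rintro ⟨p, c⟩ hx ⟨p', c'⟩ hx' heq
    simp only [Finset.coe_product, Set.mem_prod, Finset.mem_coe, Finset.mem_filter, Finset.mem_univ, true_and] at hx hx' heq
    have h3 : p = p' := by
      apply J.eq_of_span
      rw [Submodule.mem_span_singleton]
      exact ⟨c⁻¹ * c', by rw [mul_smul, ← heq, smul_smul, inv_mul_cancel₀ hx.2, one_smul]⟩
    subst h3
    have h4 := smul_left_injective F (J.vec_ne p) heq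
    rw [h4]
  rw [← h2, ← h1]

theorem span_iff {Z X Y : ℙ F (Fin 3 → F)} :
    vec j Y ∈ Submodule.span F {vec j Z, vec j X} ↔ Y.rep ∈ Submodule.span F {Z.rep, X.rep} := by
  rw [Submodule.mem_span_pair, Submodule.mem_span_pair]
  constructor
  · rintro ⟨a, b, h⟩
    refine ⟨a, b, J.inj ?_⟩
    rw [map_add, map_smul, map_smul]; exact h
  · rintro ⟨a, b, h⟩
    refine ⟨a, b, ?_⟩
    rw [vec, vec, vec, ← h, map_add, map_smul, map_smul]

/-- the plane of `V` of a line -/
theorem finrank_map (l : ℙ F (Fin 3 → F)) : finrank F ((Kl l).map j) = 2 := by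
  rw [← (Submodule.equivMapOfInjective j J.inj (Kl l)).finrank_eq, finrank_Kl]

theorem vec_mem_map {p l : ℙ F (Fin 3 → F)} : vec j p ∈ (Kl l).map j ↔ p ∈ l := by
  rw [mem_line, Submodule.mem_map]
  constructor
  · rintro ⟨x, hx, h⟩
    rw [← J.inj h]; exact hx
  · intro h
    exact ⟨_, h, rfl⟩

theorem exists_line (a b : V) : ∃ l : ℙ F (Fin 3 → F), ∀ p : ℙ F (Fin 3 → F), vec j p ∈ Submodule.span F {a, b} → p ∈ l := by
  have h1 : finrank F ((Submodule.span F {a, b}).comap j) ≤ 2 := by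
    rw [(Submodule.equivMapOfInjective j J.inj _).finrank_eq]
    exact (Submodule.finrank_mono (Submodule.map_comap_le _ _)).trans (finrank_span_pair_le a b)
  obtain ⟨l, hl⟩ := exists_Kl h1
  exact ⟨l, fun p hp => mem_line.2 (hl hp)⟩

theorem exists_dual (l : ℙ F (Fin 3 → F)) : ∃ L : Dual F V, ∀ p : ℙ F (Fin 3 → F), L (vec j p) = 0 ↔ p ∈ l := by
  obtain ⟨g, hg⟩ := LinearMap.exists_leftInverse_of_injective j (LinearMap.ker_eq_bot.2 J.inj)
  refine ⟨(fl l).comp g, fun p => ?_⟩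
  have : g (vec j p) = p.rep := by
    have := congrArg (fun f => f p.rep) hg
    simpa [vec] using this
  rw [LinearMap.comp_apply, this, mem_line]
  rfl

end Coord

end H8.PS

end S_H8_PS_Proj

section S_H8_PS_Plane

/-!
MP_325208 (helper8): a rich plane of a maximal partial spread gives a `PlaneData`.
-/

set_option autoImplicit false

open Module Finset
open scoped Classical LinearAlgebra.Projectivization

namespace H8.PS

variable {F : Type*} [Field F] [Fintype F]
variable {V : Type*} [AddCommGroup V] [Module F V] [Fintype V] [FiniteDimensional F V]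

theorem order_eq : Configuration.ProjectivePlane.order (ℙ F (Fin 3 → F)) (ℙ F (Fin 3 → F)) = Fintype.card F := by
  have h1 := Configuration.ProjectivePlane.card_points (ℙ F (Fin 3 → F)) (ℙ F (Fin 3 → F))
  have h2 : Nat.card (ℙ F (Fin 3 → F)) = _ := Projectivization.card_of_finrank F (Fin 3 → F) (n := 3) (by simp)
  rw [Nat.card_eq_fintype_card, Nat.card_eq_fintype_card] at h2
  simp only [Finset.sum_range_succ, Finset.sum_range_zero, pow_zero, pow_one, zero_add] at h2
  rw [h2] at h1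
  set a := Configuration.ProjectivePlane.order (ℙ F (Fin 3 → F)) (ℙ F (Fin 3 → F))
  have h3 : a * (a + 1) = Fintype.card F * (Fintype.card F + 1) := by nlinarith
  by_contra hne
  rcases Nat.lt_or_gt_of_ne hne with h | h
  · have : a * (a + 1) < Fintype.card F * (Fintype.card F + 1) := Nat.mul_lt_mul'' h (by omega)
    omega
  · have : Fintype.card F * (Fintype.card F + 1) < a * (a + 1) := Nat.mul_lt_mul'' h (by omega)
    omega

/-- the hole points in coordinates -/
noncomputable def BB (S : Finset (Submodule F V)) (j : (Fin 3 → F) →ₗ[F] V) : Finset (ℙ F (Fin 3 → F)) :=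
  Finset.univ.filter fun p => vec j p ∈ holes S fun W => W

theorem mem_BB {S : Finset (Submodule F V)} {j : (Fin 3 → F) →ₗ[F] V} {p : ℙ F (Fin 3 → F)} :
    p ∈ BB S j ↔ vec j p ∈ holes S fun W => W := by simp [BB]

/-- **The bridge.** -/
theorem planeData (hV : finrank F V = 4) {S : Finset (Submodule F V)} (h2 : ∀ W ∈ S, finrank F W = 2)
    (hd : ∀ W ∈ S, ∀ W' ∈ S, W ≠ W' → W ⊓ W' = ⊥)
    (hmax : ∀ U : Submodule F V, finrank F U = 2 → U ∉ S → ∃ W ∈ S, U ⊓ W ≠ ⊥)
    {d : ℕ} (hdS : d + S.card = Fintype.card F ^ 2 + 1) (hdq : d < Fintype.card F)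
    {δ : Dual F V} (hδ : δ ∈ holes S fun W => W.dualAnnihilator) {j : (Fin 3 → F) →ₗ[F] V} (J : Coord δ j) :
    PlaneData (ℙ F (Fin 3 → F)) (ℙ F (Fin 3 → F)) (Fintype.card F) d (BB S j) := by
  have hq : 1 < Fintype.card F := Fintype.one_lt_card
  have hq1 : 0 < Fintype.card F - 1 := by omega
  have hcz : ((Fintype.card F - 1 : ℕ) : ℤ) = (Fintype.card F : ℤ) - 1 := by push_cast [hq.le]; ring
  have hq' : (0 : ℤ) < (Fintype.card F : ℤ) - 1 := by rw [← hcz]; exact_mod_cast hq1
  have hdz : (Fintype.card F : ℤ) ^ 2 + 1 - S.card = d := by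
    have : ((d + S.card : ℕ) : ℤ) = ((Fintype.card F ^ 2 + 1 : ℕ) : ℤ) := by rw [hdS]
    push_cast at this; linarith
  have hδ0 : δ ≠ 0 := (mem_holes.1 hδ).1
  have hK : finrank F (LinearMap.ker δ) = 3 := by
    have := Module.Dual.finrank_ker_add_one_of_ne_zero (K := F) (f := δ) hδ0
    omega
  -- the cone of holes on a line
  have hon : ∀ l : ℙ F (Fin 3 → F), ((holes S fun W => W).filter (· ∈ (Kl l).map j)).card =
      (on (BB S j) l).card * (Fintype.card F - 1) := by
    intro l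
    have h3 := J.card_cone (T := (holes S fun W => W).filter (· ∈ (Kl l).map j))
      (fun v hv => (mem_holes.1 (Finset.mem_filter.1 hv).1).1)
      (fun v hv c hc => by
        rw [Finset.mem_filter] at hv ⊢
        exact ⟨smul_mem_holes hv.1 hc, Submodule.smul_mem _ c hv.2⟩)
      (fun v hv => by
        rw [Finset.mem_filter] at hv
        obtain ⟨x, -, hx⟩ := Submodule.mem_map.1 hv.2
        exact (J.range v).2 ⟨x, hx⟩)
    rw [h3]
    congr 1
    apply congrArg
    ext p
    rw [on, Finset.mem_filter, Finset.mem_filter, Finset.mem_filter, mem_BB, J.vec_mem_map]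
    simp
  -- the configuration of a covered point of the plane
  have hconf : ∀ Z ∉ BB S j, ∃ E : V, Conf (F := F) S (vec j Z) E ∧ ∃ δ' ∈ DD S (vec j Z) E, ∃ c : F, c ≠ 0 ∧ δ' = c • δ := by
    intro Z hZ
    rw [mem_BB, mem_holes] at hZ
    push Not at hZ
    obtain ⟨W, hW, hZW⟩ := hZ (J.vec_ne Z)
    obtain ⟨E, hEW, hE⟩ : ∃ E ∈ W, E ∉ Submodule.span F {vec j Z} := by
      by_contra hcon3
      push Not at hcon3
      have h3 : W ≤ Submodule.span F {vec j Z} := hcon3
      have h4 := Submodule.finrank_mono h3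
      rw [h2 W hW, finrank_span_singleton (J.vec_ne Z)] at h4
      omega
    have C : Conf (F := F) S (vec j Z) E := ⟨hV, hd, h2, J.vec_ne Z, ⟨W, hW, hZW, hEW⟩, hE⟩
    exact ⟨E, C, _, C.norm hδ (J.vec_ker Z), _, inv_ne_zero (C.E_ne hδ (J.vec_ker Z)), rfl⟩
  -- the cone of tangent holes
  have hT : ∀ Z ∉ BB S j, ∃ (R : Finset V) (w : V → F) (k m : ℕ), Good R w k m ∧ Fintype.card F ≤ m + d ∧ 1 ≤ m ∧
      R.Nonempty ∧ (∀ v ∈ R, δ v = 0) ∧
      ∀ X, vec j X ∈ R ↔ X ∈ T (ℙ F (Fin 3 → F)) (BB S j) Z := by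
    intro Z hZ
    obtain ⟨E, C, δ', hδ', c, hc, hcδ⟩ := hconf Z hZ
    have hker : ∀ v, δ' v = 0 → δ v = 0 := by
      intro v hv
      rw [hcδ, LinearMap.smul_apply, smul_eq_mul] at hv
      exact (mul_eq_zero.1 hv).resolve_left hc
    obtain ⟨W, hW, hZW, -⟩ := C.ex
    have hD := card_DD hV hd h2 (E := E) hW hZW (J.vec_ne Z)
    rw [hdz] at hD
    have hD' : (DD S (vec j Z) E).card ≤ d := by exact_mod_cast hD
    have hDpos : 1 ≤ (DD S (vec j Z) E).card := Finset.card_pos.2 ⟨_, hδ'⟩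
    have hk1 : ((DD S (vec j Z) E).erase δ').card + 1 = (DD S (vec j Z) E).card := by
      rw [Finset.card_erase_of_mem hδ']; omega
    obtain ⟨m, hm⟩ : ∃ m, ((DD S (vec j Z) E).erase δ').card + m = Fintype.card F - 1 :=
      ⟨Fintype.card F - 1 - ((DD S (vec j Z) E).erase δ').card, by omega⟩
    refine ⟨RR S (vec j Z) E δ', _, _, m, C.good hδ' hm, by omega, by omega, C.RR_nonempty hδ' ?_,
      fun v hv => hker v (C.RR_ker hv), ?_⟩
    · rw [hdz]
      have : (d : ℤ) < Fintype.card F := by exact_mod_cast hdq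
      linarith
    intro X
    have hTdef : X ∈ T (ℙ F (Fin 3 → F)) (BB S j) Z ↔ X ∈ BB S j ∧
        ∀ l : ℙ F (Fin 3 → F), Z ∈ l → X ∈ l → ∀ Y ∈ BB S j, Y ∈ l → Y = X := mem_T
    rw [hTdef, mem_RR]
    constructor
    · rintro ⟨hX, hu⟩
      refine ⟨mem_BB.2 hX, fun l hZl hXl Y hY hYl => ?_⟩
      have hne : X ≠ Z := by rintro rfl; exact hZ (mem_BB.2 hX)
      have h5 := (line_span hne hZl hXl).1 hYl
      have h6 := C.tangent_of_unique hX hu _ (mem_BB.1 hY) (J.span_iff.2 h5)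
      exact J.eq_of_span h6
    · rintro ⟨hX, ht⟩
      refine ⟨mem_BB.1 hX, fun θ hθ hne h0 => hne ?_⟩
      have hXZ : X ≠ Z := by rintro rfl; exact hZ hX
      refine C.unique_of_tangent (mem_BB.1 hX) ?_ hδ' hθ ?_ h0
      · intro x hx hxs
        have hx0 : x ≠ 0 := (mem_holes.1 hx).1
        have hxδ : δ x = 0 := by
          obtain ⟨a, b, rfl⟩ := Submodule.mem_span_pair.1 hxs
          simp [J.vec_ker]
        obtain ⟨Y, c', hc', hY⟩ := J.exists_point hx0 hxδ
        have hYB : Y ∈ BB S j := by rw [mem_BB, hY]; exact smul_mem_holes hx hc'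
        let l : ℙ F (Fin 3 → F) := Configuration.HasLines.mkLine hXZ
        have hl := Configuration.HasLines.mkLine_ax (P := ℙ F (Fin 3 → F)) (L := ℙ F (Fin 3 → F)) hXZ
        have hYl : Y ∈ l := by
          rw [line_span hXZ hl.2 hl.1, ← J.span_iff, hY]
          exact Submodule.smul_mem _ _ hxs
        have hYX := ht l hl.2 hl.1 Y hYB hYl
        rw [hYX] at hY
        rw [Submodule.mem_span_singleton]
        exact ⟨c'⁻¹, by rw [hY, smul_smul, inv_mul_cancel₀ hc', one_smul]⟩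
      · rw [hcδ, LinearMap.smul_apply, J.vec_ker, smul_zero]
  refine ⟨order_eq, ?_, ?_, ?_, ?_, ?_, ?_, ?_⟩
  · -- card
    have h3 := J.card_cone (T := (holes S fun W => W).filter (· ∈ LinearMap.ker δ))
      (fun v hv => (mem_holes.1 (Finset.mem_filter.1 hv).1).1)
      (fun v hv c hc => by
        rw [Finset.mem_filter] at hv ⊢
        exact ⟨smul_mem_holes hv.1 hc, Submodule.smul_mem _ c hv.2⟩)
      (fun v hv => (Finset.mem_filter.1 hv).2)
    have h4 := holes_rich hV hd h2 (LinearMap.ker δ) hK (fun W hW hle => (mem_holes.1 hδ).2 W hW (by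
      rw [Submodule.mem_dualAnnihilator]
      intro w hw
      exact hle hw))
    have h5 : (Finset.univ.filter fun p : ℙ F (Fin 3 → F) => vec j p ∈ (holes S fun W => W).filter (· ∈ LinearMap.ker δ)) = BB S j := by
      ext p
      rw [Finset.mem_filter, Finset.mem_filter, mem_BB]
      simp [J.vec_ker]
    rw [h5] at h3
    rw [h3] at h4
    push_cast at h4
    rw [hcz] at h4
    have h6 : (Fintype.card F : ℤ) ^ 2 + Fintype.card F + 1 - S.card = Fintype.card F + d := by linarith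
    rw [h6, mul_comm] at h4
    have h7 : ((BB S j).card : ℤ) = Fintype.card F + d := mul_left_cancel₀ hq'.ne' h4
    exact_mod_cast h7
  · -- pos
    intro l
    have h3 := duality hV hd h2 (J.finrank_map l)
    have h4 : 0 < ((holes S fun W => W.dualAnnihilator).filter (· ∈ ((Kl l).map j).dualAnnihilator)).card := by
      refine Finset.card_pos.2 ⟨δ, ?_⟩
      rw [Finset.mem_filter, Submodule.mem_dualAnnihilator]
      refine ⟨hδ, fun w hw => ?_⟩
      obtain ⟨x, -, rfl⟩ := Submodule.mem_map.1 hw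
      exact (J.range _).2 ⟨x, rfl⟩
    rw [← h3, hon] at h4
    exact Nat.pos_of_mul_pos_right h4
  · -- le
    intro l
    by_cases h0 : (on (BB S j) l).card = 0
    · omega
    obtain ⟨p, hp⟩ := Finset.card_pos.1 (Nat.pos_of_ne_zero h0)
    rw [on, Finset.mem_filter, mem_BB] at hp
    have h3 := holes_plane hV hd h2 hmax (J.finrank_map l) hp.1 (J.vec_mem_map.2 hp.2)
      (R := (holes S fun W => W).filter (· ∈ (Kl l).map j)) (Finset.filter_subset _ _)
      (fun x hx => (Finset.mem_filter.1 hx).2)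
    rw [hon, hdz] at h3
    push_cast at h3
    rw [hcz, mul_comm] at h3
    have := le_of_mul_le_mul_left h3 hq'
    exact_mod_cast this
  · -- cb0
    intro Z hZ hcard
    obtain ⟨R, w, k, m, hg, hm, hm1, hne, hRδ, hRT⟩ := hT Z hZ
    have h3 := J.card_cone hg.ne hg.cone hRδ
    have h4 : (Finset.univ.filter fun p : ℙ F (Fin 3 → F) => vec j p ∈ R) = T (ℙ F (Fin 3 → F)) (BB S j) Z := by
      ext p; rw [Finset.mem_filter, hRT]; simp
    rw [h4] at h3
    obtain ⟨a, b, hab⟩ := (Good.cb m hg hne).2 (by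
      rw [h3]; exact Nat.mul_le_mul_right _ (by omega))
    obtain ⟨l, hl⟩ := J.exists_line a b
    exact ⟨l, fun X hX => hl X (hab _ ((hRT X).2 hX))⟩
  · -- cb0'
    intro Z hZ
    obtain ⟨R, w, k, m, hg, hm, hm1, hne, hRδ, hRT⟩ := hT Z hZ
    have h3 := J.card_cone hg.ne hg.cone hRδ
    have h4 : (Finset.univ.filter fun p : ℙ F (Fin 3 → F) => vec j p ∈ R) = T (ℙ F (Fin 3 → F)) (BB S j) Z := by
      ext p; rw [Finset.mem_filter, hRT]; simp
    rw [h4] at h3
    have h5 := (Good.cb m hg hne).1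
    rw [h3] at h5
    have := Nat.le_of_mul_le_mul_right h5 hq1
    omega
  · -- cb1
    intro Z hZ l hnel
    obtain ⟨R, w, k, m, hg, hm, hm1, hne, hRδ, hRT⟩ := hT Z hZ
    obtain ⟨L, hL⟩ := J.exists_dual l
    obtain ⟨m', rfl⟩ : ∃ m', m = m' + 1 := ⟨m - 1, by omega⟩
    have hg' := hg.filter L
    have h3 := J.card_cone hg'.ne hg'.cone (fun v hv => hRδ v (Finset.mem_filter.1 hv).1)
    have h4 : (Finset.univ.filter fun p : ℙ F (Fin 3 → F) => vec j p ∈ R.filter fun v => L v ≠ 0) =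
        (T (ℙ F (Fin 3 → F)) (BB S j) Z).filter fun X => X ∉ l := by
      ext p
      rw [Finset.mem_filter, Finset.mem_filter, Finset.mem_filter, hRT, ne_eq, hL]
      simp
    rw [h4] at h3
    have hne' : (R.filter fun v => L v ≠ 0).Nonempty := by
      obtain ⟨X, hX⟩ := hnel
      rw [Finset.mem_filter] at hX
      exact ⟨vec j X, Finset.mem_filter.2 ⟨(hRT X).2 hX.1, fun h => hX.2 ((hL X).1 h)⟩⟩
    have h5 := (Good.cb m' hg' hne').1
    rw [h3] at h5
    have := Nat.le_of_mul_le_mul_right h5 hq1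
    omega
  · -- cb3
    intro Z hZ l hcard
    obtain ⟨R, w, k, m, hg, hm, hm1, hne, hRδ, hRT⟩ := hT Z hZ
    obtain ⟨L, hL⟩ := J.exists_dual l
    obtain ⟨m', rfl⟩ : ∃ m', m = m' + 1 := ⟨m - 1, by omega⟩
    have hg' := hg.filter L
    have h3 := J.card_cone hg'.ne hg'.cone (fun v hv => hRδ v (Finset.mem_filter.1 hv).1)
    have h4 : (Finset.univ.filter fun p : ℙ F (Fin 3 → F) => vec j p ∈ R.filter fun v => L v ≠ 0) =
        (T (ℙ F (Fin 3 → F)) (BB S j) Z).filter fun X => X ∉ l := by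
      ext p
      rw [Finset.mem_filter, Finset.mem_filter, Finset.mem_filter, hRT, ne_eq, hL]
      simp
    rw [h4] at h3
    by_cases hne' : (R.filter fun v => L v ≠ 0).Nonempty
    · obtain ⟨a, b, hab⟩ := (Good.cb m' hg' hne').2 (by
        rw [h3]; exact Nat.mul_le_mul_right _ (by omega))
      obtain ⟨l', hl'⟩ := J.exists_line a b
      refine ⟨l', fun X hX hXl => hl' X (hab _ ?_)⟩
      rw [Finset.mem_filter]
      exact ⟨(hRT X).2 hX, fun h => hXl ((hL X).1 h)⟩
    · refine ⟨l, fun X hX hXl => (hne' ⟨vec j X, ?_⟩).elim⟩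
      rw [Finset.mem_filter]
      exact ⟨(hRT X).2 hX, fun h => hXl ((hL X).1 h)⟩

/-- A maximal partial spread of deficiency `d < q` that is not a spread has a rich plane, which gives a `PlaneData`. -/
theorem exists_planeData (hV : finrank F V = 4) {S : Finset (Submodule F V)} (h2 : ∀ W ∈ S, finrank F W = 2)
    (hd : ∀ W ∈ S, ∀ W' ∈ S, W ≠ W' → W ⊓ W' = ⊥)
    (hmax : ∀ U : Submodule F V, finrank F U = 2 → U ∉ S → ∃ W ∈ S, U ⊓ W ≠ ⊥)
    (hh : ∃ v : V, v ≠ 0 ∧ ∀ W ∈ S, v ∉ W) {d : ℕ} (hdS : d + S.card = Fintype.card F ^ 2 + 1) (hdq : d < Fintype.card F) :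
    ∃ B, PlaneData (ℙ F (Fin 3 → F)) (ℙ F (Fin 3 → F)) (Fintype.card F) d B := by
  obtain ⟨v₁, hv₁0, hv₁⟩ := hh
  have h₁ : v₁ ∈ holes S fun W => W := mem_holes.2 ⟨hv₁0, hv₁⟩
  obtain ⟨u, hu⟩ : ∃ u : V, u ∉ Submodule.span F {v₁} := by
    by_contra hcon
    push Not at hcon
    have h3 : (⊤ : Submodule F V) ≤ Submodule.span F {v₁} := fun x _ => hcon x
    have h4 := Submodule.finrank_mono h3
    rw [finrank_top, hV, finrank_span_singleton hv₁0] at h4
    omega
  have h3 := duality hV hd h2 (finrank_span_pair hv₁0 hu)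
  have h4 : 0 < ((holes S fun W => W).filter (· ∈ Submodule.span F {v₁, u})).card := by
    refine Finset.card_pos.2 ⟨v₁, ?_⟩
    rw [Finset.mem_filter]
    exact ⟨h₁, Submodule.subset_span (by simp)⟩
  rw [h3] at h4
  obtain ⟨δ, hδ⟩ := Finset.card_pos.1 h4
  rw [Finset.mem_filter] at hδ
  have hK : finrank F (LinearMap.ker δ) = 3 := by
    have := Module.Dual.finrank_ker_add_one_of_ne_zero (K := F) (f := δ) (mem_holes.1 hδ.1).1
    omega
  obtain ⟨j, J⟩ := exists_coord hK
  exact ⟨BB S j, planeData hV h2 hd hmax hdS hdq hδ.1 J⟩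

/-- the number of members of a partial spread -/
theorem card_le_spread (hV : finrank F V = 4) {S : Finset (Submodule F V)} (h2 : ∀ W ∈ S, finrank F W = 2)
    (hd : ∀ W ∈ S, ∀ W' ∈ S, W ≠ W' → W ⊓ W' = ⊥) : S.card ≤ Fintype.card F ^ 2 + 1 := by
  have hq : 1 < Fintype.card F := Fintype.one_lt_card
  have h4 := holes_total hV hd h2
  have h5 : (0 : ℤ) ≤ ((Fintype.card F : ℤ) ^ 2 - 1) * ((Fintype.card F : ℤ) ^ 2 + 1 - S.card) := by
    rw [← h4]; positivity
  have hqz : (1 : ℤ) < Fintype.card F := by exact_mod_cast hq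
  have h7 : (0 : ℤ) < (Fintype.card F : ℤ) ^ 2 - 1 := by nlinarith
  have h8 := nonneg_of_mul_nonneg_right h5 h7
  have : (S.card : ℤ) ≤ ((Fintype.card F ^ 2 + 1 : ℕ) : ℤ) := by push_cast; linarith
  exact_mod_cast this

end H8.PS

end S_H8_PS_Plane

section S_H84_PS_GoodAt

/-!
MP_325208 (helper84): the Cayley-Bacharach condition for the tangent holes of a point of a rich plane, in coordinates.
-/

set_option autoImplicit false
set_option linter.unusedSectionVars false

open Module Finset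
open scoped Classical LinearAlgebra.Projectivization

namespace H84.PS

open H8.PS

variable {F : Type*} [Field F] [Fintype F]
variable {V : Type*} [AddCommGroup V] [Module F V] [Fintype V] [FiniteDimensional F V]

theorem good_pull {V' : Type*} [AddCommGroup V'] [Module F V'] [Fintype V'] (j : V' →ₗ[F] V)
    (hj : Function.Injective j) {R : Finset V} (hR : ∀ v ∈ R, ∃ x, j x = v) {w : V → F} {k m : ℕ} (h : Good R w k m) :
    Good (Finset.univ.filter fun x => j x ∈ R) (fun x => w (j x)) k m := by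
  obtain ⟨g, hg⟩ := LinearMap.exists_leftInverse_of_injective j (LinearMap.ker_eq_bot.2 hj)
  have hgj : ∀ x, g (j x) = x := fun x => by
    have := congrArg (fun f => f x) hg
    simpa using this
  refine ⟨h.deg, ?_, ?_, ?_, ?_, ?_⟩
  · intro v hv hv0
    rw [Finset.mem_filter] at hv
    exact h.ne _ hv.2 (by rw [hv0, map_zero])
  · intro v hv c hc
    rw [Finset.mem_filter] at hv ⊢
    exact ⟨Finset.mem_univ _, by rw [map_smul]; exact h.cone _ hv.2 c hc⟩
  · intro v hv
    rw [Finset.mem_filter] at hv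
    exact h.wne _ hv.2
  · intro v c hc
    simp only [map_smul]
    exact h.whom _ c hc
  · intro L
    have h1 := h.id fun i => (L i).comp g
    rw [← h1]
    have h2 : R = (Finset.univ.filter fun x => j x ∈ R).image j := by
      ext v
      rw [Finset.mem_image]
      constructor
      · intro hv
        obtain ⟨x, rfl⟩ := hR v hv
        exact ⟨x, Finset.mem_filter.2 ⟨Finset.mem_univ _, hv⟩, rfl⟩
      · rintro ⟨x, hx, rfl⟩
        exact (Finset.mem_filter.1 hx).2
    conv_rhs => rw [h2]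
    rw [Finset.sum_image fun a _ b _ hab => hj hab]
    refine Finset.sum_congr rfl fun x _ => ?_
    simp [hgj]

theorem good3 (hV : finrank F V = 4) {S : Finset (Submodule F V)} (h2 : ∀ W ∈ S, finrank F W = 2)
    (hd : ∀ W ∈ S, ∀ W' ∈ S, W ≠ W' → W ⊓ W' = ⊥)
    {d : ℕ} (hdS : d + S.card = Fintype.card F ^ 2 + 1) (hdq : d < Fintype.card F)
    {δ : Dual F V} (hδ : δ ∈ holes S fun W => W.dualAnnihilator) {j : (Fin 3 → F) →ₗ[F] V} (J : Coord δ j) :
    ∀ Z ∉ BB S j, ∃ (R : Finset (Fin 3 → F)) (w : (Fin 3 → F) → F) (k m : ℕ), Good R w k m ∧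
      Fintype.card F ≤ m + d ∧ ∀ X : ℙ F (Fin 3 → F), X.rep ∈ R ↔ X ∈ T (ℙ F (Fin 3 → F)) (BB S j) Z := by
  have hq : 1 < Fintype.card F := Fintype.one_lt_card
  have hdz : (Fintype.card F : ℤ) ^ 2 + 1 - S.card = d := by
    have : ((d + S.card : ℕ) : ℤ) = ((Fintype.card F ^ 2 + 1 : ℕ) : ℤ) := by rw [hdS]
    push_cast at this; linarith
  -- the configuration of a covered point of the plane
  have hconf : ∀ Z ∉ BB S j, ∃ E : V, Conf (F := F) S (vec j Z) E ∧ ∃ δ' ∈ DD S (vec j Z) E, ∃ c : F, c ≠ 0 ∧ δ' = c • δ := by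
    intro Z hZ
    rw [mem_BB, mem_holes] at hZ
    push Not at hZ
    obtain ⟨W, hW, hZW⟩ := hZ (J.vec_ne Z)
    obtain ⟨E, hEW, hE⟩ : ∃ E ∈ W, E ∉ Submodule.span F {vec j Z} := by
      by_contra hcon3
      push Not at hcon3
      have h3 : W ≤ Submodule.span F {vec j Z} := hcon3
      have h4 := Submodule.finrank_mono h3
      rw [h2 W hW, finrank_span_singleton (J.vec_ne Z)] at h4
      omega
    have C : Conf (F := F) S (vec j Z) E := ⟨hV, hd, h2, J.vec_ne Z, ⟨W, hW, hZW, hEW⟩, hE⟩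
    exact ⟨E, C, _, C.norm hδ (J.vec_ker Z), _, inv_ne_zero (C.E_ne hδ (J.vec_ker Z)), rfl⟩
  intro Z hZ
  obtain ⟨E, C, δ', hδ', c, hc, hcδ⟩ := hconf Z hZ
  have hker : ∀ v, δ' v = 0 → δ v = 0 := by
    intro v hv
    rw [hcδ, LinearMap.smul_apply, smul_eq_mul] at hv
    exact (mul_eq_zero.1 hv).resolve_left hc
  obtain ⟨W, hW, hZW, -⟩ := C.ex
  have hD := card_DD hV hd h2 (E := E) hW hZW (J.vec_ne Z)
  rw [hdz] at hD
  have hD' : (DD S (vec j Z) E).card ≤ d := by exact_mod_cast hD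
  have hDpos : 1 ≤ (DD S (vec j Z) E).card := Finset.card_pos.2 ⟨_, hδ'⟩
  have hk1 : ((DD S (vec j Z) E).erase δ').card + 1 = (DD S (vec j Z) E).card := by
    rw [Finset.card_erase_of_mem hδ']; omega
  obtain ⟨m, hm⟩ : ∃ m, ((DD S (vec j Z) E).erase δ').card + m = Fintype.card F - 1 :=
    ⟨Fintype.card F - 1 - ((DD S (vec j Z) E).erase δ').card, by omega⟩
  have hgood := C.good hδ' hm
  refine ⟨_, _, _, m, good_pull j J.inj (fun v hv => (J.range v).1 (hker v (C.RR_ker hv))) hgood, by omega, ?_⟩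
  intro X
  rw [Finset.mem_filter]
  have hX1 : j X.rep = vec j X := rfl
  rw [hX1]
  have hTdef : X ∈ T (ℙ F (Fin 3 → F)) (BB S j) Z ↔ X ∈ BB S j ∧
      ∀ l : ℙ F (Fin 3 → F), Z ∈ l → X ∈ l → ∀ Y ∈ BB S j, Y ∈ l → Y = X := mem_T
  rw [hTdef, mem_RR]
  constructor
  · rintro ⟨-, hX, hu⟩
    refine ⟨mem_BB.2 hX, fun l hZl hXl Y hY hYl => ?_⟩
    have hne : X ≠ Z := by rintro rfl; exact hZ (mem_BB.2 hX)
    have h5 := (line_span hne hZl hXl).1 hYl
    have h6 := C.tangent_of_unique hX hu _ (mem_BB.1 hY) (J.span_iff.2 h5)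
    exact J.eq_of_span h6
  · rintro ⟨hX, ht⟩
    refine ⟨Finset.mem_univ _, mem_BB.1 hX, fun θ hθ hne h0 => hne ?_⟩
    have hXZ : X ≠ Z := by rintro rfl; exact hZ hX
    refine C.unique_of_tangent (mem_BB.1 hX) ?_ hδ' hθ ?_ h0
    · intro x hx hxs
      have hx0 : x ≠ 0 := (mem_holes.1 hx).1
      have hxδ : δ x = 0 := by
        obtain ⟨a, b, rfl⟩ := Submodule.mem_span_pair.1 hxs
        simp [J.vec_ker]
      obtain ⟨Y, c', hc', hY⟩ := J.exists_point hx0 hxδ
      have hYB : Y ∈ BB S j := by rw [mem_BB, hY]; exact smul_mem_holes hx hc'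
      let l : ℙ F (Fin 3 → F) := Configuration.HasLines.mkLine hXZ
      have hl := Configuration.HasLines.mkLine_ax (P := ℙ F (Fin 3 → F)) (L := ℙ F (Fin 3 → F)) hXZ
      have hYl : Y ∈ l := by
        rw [line_span hXZ hl.2 hl.1, ← J.span_iff, hY]
        exact Submodule.smul_mem _ _ hxs
      have hYX := ht l hl.2 hl.1 Y hYB hYl
      rw [hYX] at hY
      rw [Submodule.mem_span_singleton]
      exact ⟨c'⁻¹, by rw [hY, smul_smul, inv_mul_cancel₀ hc', one_smul]⟩
    · rw [hcδ, LinearMap.smul_apply, J.vec_ker, smul_zero]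

end H84.PS

end S_H84_PS_GoodAt
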